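import Mathlib
import Pool.Agent.SqrtDC.Defs

open Finset

namespace Pool.Agent.DigitA

open Pool.Agent.SqrtDC

/-! ## Clusters of a finite set `V` at the scales `r k` -/

section cluster

/-- cluster of `v` at level `k`: the elements of `V` in the same `r k`-gap cluster as `v` -/
def cl (V : Finset ℕ) (r : ℕ → ℕ) (k v : ℕ) : Finset ℕ :=
  V.filter (fun u => stt V (r k) u = stt V (r k) v)

/-- `1/y`-jump at centre `k+6` -/
def Jump (V : Finset ℕ) (r : ℕ → ℕ) (y k v : ℕ) : Prop :=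
  (y+1) * #(cl V r k v) ≤ y * #(cl V r (k+12) v)

/-- `1/y`-big at centre `k+6` -/
def Big (V : Finset ℕ) (r : ℕ → ℕ) (y k v : ℕ) : Prop :=
  y * #(cl V r (k+4) v) ≤ #(cl V r (k+8) v)

instance (V : Finset ℕ) (r : ℕ → ℕ) (y k v : ℕ) : Decidable (Jump V r y k v) := by
  unfold Jump; infer_instance

instance (V : Finset ℕ) (r : ℕ → ℕ) (y k v : ℕ) : Decidable (Big V r y k v) := by
  unfold Big; infer_instance

/-- at every level at most one component of the tuple jumps -/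
def T1 (V : Finset ℕ) (r : ℕ → ℕ) (y : ℕ) {n : ℕ} (a : Fin n → ℕ) : Prop :=
  ∀ k i j, Jump V r y k (a i) → Jump V r y k (a j) → i = j

/-- every component is isolated at level `20` -/
def T2 (V : Finset ℕ) (r : ℕ → ℕ) {n : ℕ} (a : Fin n → ℕ) : Prop :=
  ∀ i, #(cl V r 20 (a i)) ≤ 1

/-- sum of a tuple -/
def sm {n : ℕ} (a : Fin n → ℕ) : ℤ := ∑ i, (a i : ℤ)

/-- growth of the scales -/
structure Gr (V : Finset ℕ) (r : ℕ → ℕ) (t m : ℕ) : Prop where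
  pos : 1 ≤ r 0
  card : #V ≤ t
  step : ∀ k, 100 * (m+1)^2 * (t+1)^(m+1) * r k ≤ r (k+1)

/-- all `n`-tuples of elements of `V` -/
def tup (V : Finset ℕ) (n : ℕ) : Finset (Fin n → ℕ) := Fintype.piFinset (fun _ => V)

open scoped Classical in
/-- good tuples -/
noncomputable def gt (V : Finset ℕ) (r : ℕ → ℕ) (y n : ℕ) : Finset (Fin n → ℕ) :=
  (tup V n).filter (fun a => T1 V r y a ∧ T2 V r a)

/-- exceptional levels of `x` (centre `k+6`) -/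
def Ev (V : Finset ℕ) (r : ℕ → ℕ) (y n : ℕ) (x : ℤ) (k : ℕ) : Prop :=
  ∃ z : Fin n → ℕ, (∀ l, z l ∈ V) ∧ T1 V r y z ∧ (∀ l, ¬ Jump V r y k (z l)) ∧
    (r (k+6) : ℤ) < 2 * |sm z - x| ∧ 2 * |sm z - x| ≤ r (k+8)

/-- all sums of `n`-tuples -/
def sums (V : Finset ℕ) (n : ℕ) : Finset ℕ := (tup V n).image (fun a => ∑ i, a i)

/-- cell of a tuple: components in the same clusters at level `k+3`, sums in the same
`r k`-cluster of the sumset -/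
def cell (V : Finset ℕ) (r : ℕ → ℕ) {n : ℕ} (k : ℕ) (a : Fin n → ℕ) : Finset (Fin n → ℕ) :=
  (tup V n).filter (fun a' => (∀ l, a' l ∈ cl V r (k+3) (a l)) ∧
    stt (sums V n) (r k) (∑ i, a' i) = stt (sums V n) (r k) (∑ i, a i))

/-- good sources -/
structure Good (V : Finset ℕ) (r : ℕ → ℕ) (y f m : ℕ) (v : Fin (m+1) → ℕ) : Prop where
  mem : ∀ i, v i ∈ V
  g0 : ∀ a : Fin (m+1) → ℕ, (∀ i, a i ∈ V) → |sm a - sm v| ≤ ((m+1)^2 * r 1 : ℕ) →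
    T1 V r y a ∧ T2 V r a
  g1 : ∀ a : Fin (m+1) → ℕ, (∀ i, a i ∈ V) → |sm a - sm v| ≤ ((m+1)^2 * r 1 : ℕ) →
    ∀ k, 3 ≤ k → #(cell V r k v) ≤ f * #(cell V r k a) ∧ #(cell V r k a) ≤ f * #(cell V r k v)
  g2 : ∀ a : Fin (m+1) → ℕ, (∀ i, a i ∈ V) → |sm a - sm v| ≤ ((m+1)^2 * r 1 : ℕ) →
    ∀ i k, Ev V r y m (sm (fun l => a (i.succAbove l))) k → ¬ Jump V r y k (a i)
  g3 : Function.Injective v

end cluster

/-! ## The system of elements generated by the sources -/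

/-- abstract system over sources `0, …, m-1`: `W T` are the elements generated by the sources in
`T`, `code w j` is the letter of `w` at the source `j` -/
structure Sys (K P : Type) [Field K] [Inhabited P] [DecidableEq P] (m q : ℕ) where
  V : Finset ℕ
  F : ℕ → K
  e : ℕ
  W : Finset ℕ → Finset ℕ
  code : ℕ → ℕ → P
  hF : ∀ v ∈ V, F v ≠ 0
  hWV : ∀ T, W T ⊆ V
  hmono : ∀ T T', T ⊆ T' → W T ⊆ W T'
  hsupp : ∀ T ⊆ range m, ∀ w ∈ W T, ∀ j, code w j ≠ default → j ∈ T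
  hcard : ∀ w ∈ W (range m), #((range m).filter (fun j => code w j ≠ default)) ≤ q
  hinj : ∀ w ∈ W (range m), ∀ w' ∈ W (range m), (∀ j < m, code w j = code w' j) → w = w'
  hiso : ∀ w ∈ W (range m), ∀ u ∈ V, u ≠ w → 4 * (e : ℤ) < |(u : ℤ) - w|
  hclos : ∀ T ⊆ range m, ∀ T' ⊆ range m, Disjoint T T' → ∀ w ∈ W T, ∀ w' ∈ W T', ∀ u ∈ V,
    ∀ u' ∈ V, |(u : ℤ) + u' - w - w'| ≤ e → u ∈ W (T ∪ T') ∧ u' ∈ W (T ∪ T')
  hrel : ∀ w ∈ W (range m), ∀ w' ∈ W (range m), w ≠ w' → ∃ α β : ℕ, α ≤ w + w' ∧ w + w' ≤ β ∧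
    w + w' ≤ α + e ∧ β ≤ w + w' + e ∧
    ∑ x ∈ (V ×ˢ V).filter (fun x => α ≤ x.1 + x.2 ∧ x.1 + x.2 ≤ β), F x.1 * F x.2 = 0
  hsrc : ∃ s : ℕ → ℕ, (∀ j < m, s j ∈ W {j}) ∧ ∀ i < m, ∀ j < m, s i = s j → i = j

/-- homogeneous system: order isomorphisms between index sets of size `≤ M` transport everything -/
structure Hom {K P : Type} [Field K] [Inhabited P] [DecidableEq P] {m q : ℕ} (S : Sys K P m q)
    (M : ℕ) : Prop where
  h1 : ∀ D ⊆ range m, #D ≤ M → ∀ φ : ℕ → ℕ, StrictMonoOn φ D → (∀ x ∈ D, φ x < m) →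
    ∀ T ⊆ D, ∀ w ∈ S.W T, ∃ w' ∈ S.W (T.image φ), ∀ j ∈ D, S.code w' (φ j) = S.code w j
  h2 : ∀ D ⊆ range m, #D ≤ M → ∀ φ : ℕ → ℕ, StrictMonoOn φ D → (∀ x ∈ D, φ x < m) →
    ∀ w₁ ∈ S.W D, ∀ w₂ ∈ S.W D, ∀ w₃ ∈ S.W D, ∀ w₄ ∈ S.W D,
    ∀ w₁' ∈ S.W (D.image φ), ∀ w₂' ∈ S.W (D.image φ), ∀ w₃' ∈ S.W (D.image φ),
    ∀ w₄' ∈ S.W (D.image φ),
    (∀ j ∈ D, S.code w₁' (φ j) = S.code w₁ j) → (∀ j ∈ D, S.code w₂' (φ j) = S.code w₂ j) →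
    (∀ j ∈ D, S.code w₃' (φ j) = S.code w₃ j) → (∀ j ∈ D, S.code w₄' (φ j) = S.code w₄ j) →
    |(w₁ : ℤ) + w₂ - w₃ - w₄| ≤ S.e → |(w₁' : ℤ) + w₂' - w₃' - w₄'| ≤ S.e

end Pool.Agent.DigitA
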