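import Mathlib
import Pool.Agent.SqrtDC.Clus
import Pool.Agent.DigitA.Defs

open Finset

namespace Pool.Agent.DigitA

open Pool.Agent.SqrtDC

variable {V : Finset ℕ} {r : ℕ → ℕ} {t m : ℕ}

lemma mem_cl {k u v : ℕ} : u ∈ cl V r k v ↔ u ∈ V ∧ stt V (r k) u = stt V (r k) v := by
  simp [cl]

lemma self_mem_cl {k v : ℕ} (hv : v ∈ V) : v ∈ cl V r k v := mem_cl.mpr ⟨hv, rfl⟩

lemma cl_eq {k u v : ℕ} (h : u ∈ cl V r k v) : cl V r k u = cl V r k v := by
  have h2 := (mem_cl.mp h).2
  ext x
  rw [mem_cl, mem_cl, h2]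

lemma cl_sub (k v : ℕ) : cl V r k v ⊆ V := Finset.filter_subset _ _

lemma Gr.rmono (hG : Gr V r t m) : Monotone r := by
  apply monotone_nat_of_le_succ
  intro k
  refine le_trans ?_ (hG.step k)
  apply Nat.le_mul_of_pos_left
  positivity

lemma cl_mono (hr : Monotone r) {k k' v : ℕ} (h : k ≤ k') : cl V r k v ⊆ cl V r k' v := by
  intro u hu
  rw [mem_cl] at hu ⊢
  refine ⟨hu.1, ?_⟩
  rw [← stt_stt V (hr h) u, ← stt_stt V (hr h) v, hu.2]

lemma mem_cl_of_near {k u v : ℕ} (hu : u ∈ V) (hv : v ∈ V) (h : |(u:ℤ) - v| ≤ r k) :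
    u ∈ cl V r k v := by
  rw [mem_cl]
  refine ⟨hu, ?_⟩
  rw [abs_le] at h
  rcases le_total u v with huv | huv
  · exact stt_eq_of_near V hu hv huv (by omega)
  · exact (stt_eq_of_near V hv hu huv (by omega)).symm

lemma dist_of_mem_cl {k u v : ℕ} (ht : #V ≤ t) (hv : v ∈ V) (h : u ∈ cl V r k v) :
    |(u:ℤ) - v| ≤ t * r k := by
  rw [mem_cl] at h
  have h1 := stt_le V (r k) u
  have h2 := stt_le V (r k) v
  have h3 := le_stt' V (r k) u t ht h.1
  have h4 := le_stt' V (r k) v t ht hv
  have h5 := h.2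
  have h6 : ((t * r k : ℕ) : ℤ) = (t : ℤ) * r k := by push_cast; ring
  rw [← h6, abs_le]
  constructor <;> omega

lemma cl_disj {k u v : ℕ} (h : u ∉ cl V r k v) (hu : u ∈ V) :
    Disjoint (cl V r k u) (cl V r k v) := by
  rw [Finset.disjoint_left]
  intro x hx hx'
  rw [mem_cl] at hx hx' h
  apply h
  exact ⟨hu, hx.2.symm.trans hx'.2⟩

lemma Gr.r_ge (hG : Gr V r t m) (k : ℕ) : k + 1 ≤ r k := by
  induction k with
  | zero => exact hG.pos
  | succ k ih =>
    have h1 := hG.step k
    have h2 : 2 * r k ≤ 100 * (m+1)^2 * (t+1)^(m+1) * r k := by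
      apply Nat.mul_le_mul_right
      have : 1 ≤ (m+1)^2 * (t+1)^(m+1) := Nat.one_le_iff_ne_zero.mpr (by positivity)
      nlinarith
    omega

lemma cl_top (hG : Gr V r t m) : ∃ K, ∀ k, K ≤ k → ∀ v ∈ V, cl V r k v = V := by
  refine ⟨V.sup id, fun k hk v hv => ?_⟩
  apply Finset.Subset.antisymm (cl_sub k v)
  intro u hu
  apply mem_cl_of_near hu hv
  have h1 : u ≤ V.sup id := Finset.le_sup (f := id) hu
  have h2 : v ≤ V.sup id := Finset.le_sup (f := id) hv
  have h3 := hG.r_ge k
  rw [abs_le]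
  constructor <;> omega

/-- general growth count -/
lemma growth_count (g : ℕ → ℕ) (hg : Monotone g) (a b D T n : ℕ) (hD : 1 ≤ D)
    (hg1 : ∀ k, 1 ≤ g k) (hgT : ∀ k, g k ≤ T) (hab : ∀ j, n < j → b^j * T < a^j)
    (s : Finset ℕ) (hs : ∀ k ∈ s, a * g k ≤ b * g (k+D)) : #s ≤ D * n := by
  classical
  -- one residue class
  have key : ∀ (j : ℕ) (u : Finset ℕ), #u = j → (∀ k ∈ u, a * g k ≤ b * g (k+D)) →
      (∀ k ∈ u, ∀ k' ∈ u, k < k' → k + D ≤ k') → ∀ x, (∀ k ∈ u, k + D ≤ x) →
      a^j ≤ b^j * g x := by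
    intro j
    induction j with
    | zero => intro u _ _ _ x _; simpa using hg1 x
    | succ j ih =>
      intro u hu h1 h2 x hx
      have hne : u.Nonempty := by rw [← Finset.card_pos]; omega
      set k := u.max' hne with hk
      have hku : k ∈ u := Finset.max'_mem _ _
      have h3 := ih (u.erase k) (by rw [Finset.card_erase_of_mem hku]; omega)
        (fun k' hk' => h1 k' (Finset.mem_of_mem_erase hk'))
        (fun k' hk' k'' hk'' h => h2 k' (Finset.mem_of_mem_erase hk') k''
          (Finset.mem_of_mem_erase hk'') h) k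
        (fun k' hk' => by
          have h4 := Finset.mem_of_mem_erase hk'
          have h5 : k' ≤ k := Finset.le_max' _ _ h4
          have h6 : k' ≠ k := Finset.ne_of_mem_erase hk'
          exact h2 k' h4 k hku (by omega))
      calc a^(j+1) = a^j * a := pow_succ _ _
        _ ≤ (b^j * g k) * a := Nat.mul_le_mul_right _ h3
        _ = b^j * (a * g k) := by ring
        _ ≤ b^j * (b * g (k+D)) := Nat.mul_le_mul_left _ (h1 k hku)
        _ ≤ b^j * (b * g x) := Nat.mul_le_mul_left _ (Nat.mul_le_mul_left _ (hg (hx k hku)))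
        _ = b^(j+1) * g x := by rw [pow_succ]; ring
  have hcls : ∀ c ∈ range D, #(s.filter (fun k => k % D = c)) ≤ n := by
    intro c _
    by_contra hcon
    push Not at hcon
    set u := s.filter (fun k => k % D = c) with hu
    have h1 := key #u u rfl (fun k hk => hs k (Finset.mem_filter.mp hk).1)
      (fun k hk k' hk' h => by
        have h2 := (Finset.mem_filter.mp hk).2
        have h3 := (Finset.mem_filter.mp hk').2
        have h4 := Nat.div_add_mod k D
        have h5 := Nat.div_add_mod k' D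
        have h6 : k / D < k' / D := by
          by_contra h7
          push Not at h7
          have := Nat.mul_le_mul_left D h7
          omega
        have h7 := Nat.mul_le_mul_left D (Nat.succ_le_of_lt h6)
        rw [Nat.mul_succ] at h7
        omega)
      (u.sup id + D) (fun k hk => by
        have : k ≤ u.sup id := Finset.le_sup (f := id) hk
        omega)
    have h2 := hab #u hcon
    have h3 : b^(#u) * g (u.sup id + D) ≤ b^(#u) * T := Nat.mul_le_mul_left _ (hgT _)
    omega
  calc #s = ∑ c ∈ range D, #(s.filter (fun k => k % D = c)) :=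
        Finset.card_eq_sum_card_fiberwise (fun k _ => Finset.mem_coe.mpr
          (Finset.mem_range.mpr (Nat.mod_lt _ (by omega))))
    _ ≤ ∑ c ∈ range D, n := Finset.sum_le_sum hcls
    _ = D * n := by simp

lemma cl_card_pos {k v : ℕ} (hv : v ∈ V) : 1 ≤ #(cl V r k v) :=
  Finset.card_pos.mpr ⟨v, self_mem_cl hv⟩

lemma count_big (hG : Gr V r t m) {y A : ℕ} (hy : 2 ≤ y) (hty : t < y^(A+1)) {v : ℕ} (hv : v ∈ V)
    (i : ℕ) (s : Finset ℕ) (hs : ∀ k ∈ s, y * #(cl V r (k+i) v) ≤ #(cl V r (k+i+4) v)) :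
    #s ≤ 4*A := by
  have hr := hG.rmono
  refine growth_count (fun k => #(cl V r (k+i) v)) ?_ y 1 4 t A (by norm_num) ?_ ?_ ?_ s ?_
  · intro a b hab
    exact Finset.card_le_card (cl_mono hr (by omega))
  · intro k; exact cl_card_pos hv
  · intro k; exact (Finset.card_le_card (cl_sub _ _)).trans hG.card
  · intro j hj
    rw [one_pow, one_mul]
    exact lt_of_lt_of_le hty (Nat.pow_le_pow_right (by omega) hj)
  · intro k hk
    have := hs k hk
    have h2 : k + i + 4 = k + 4 + i := by ring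
    rw [h2] at this
    simpa using this

lemma count_LL (hG : Gr V r t m) {z A : ℕ} (hz : 2 ≤ z) (htz : t < z^(A+1)) {v : ℕ} (hv : v ∈ V)
    (s : Finset ℕ) (hs : ∀ k ∈ s, z * #(cl V r k v) ≤ #(cl V r (k+12) v)) :
    #s ≤ 12*A := by
  have hr := hG.rmono
  refine growth_count (fun k => #(cl V r k v)) ?_ z 1 12 t A (by norm_num) ?_ ?_ ?_ s ?_
  · intro a b hab
    exact Finset.card_le_card (cl_mono hr (by omega))
  · intro k; exact cl_card_pos hv
  · intro k; exact (Finset.card_le_card (cl_sub _ _)).trans hG.card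
  · intro j hj
    rw [one_pow, one_mul]
    exact lt_of_lt_of_le htz (Nat.pow_le_pow_right (by omega) hj)
  · intro k hk
    simpa using hs k hk

lemma count_jump (hr : Monotone r) (hV : #V ≤ t) {y l : ℕ} (hy : 1 ≤ y) (htl : t < 2^l) {v : ℕ}
    (hv : v ∈ V) (D : ℕ) (s : Finset ℕ)
    (hs : ∀ k ∈ s, (y+1) * #(cl V r k v) ≤ y * #(cl V r (k+D) v)) :
    #s ≤ D*(y*l) := by
  rcases Nat.eq_zero_or_pos D with hD | hD
  · subst hD
    have : s = ∅ := by
      apply Finset.eq_empty_of_forall_notMem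
      intro k hk
      have h1 : (y+1) * #(cl V r k v) ≤ y * #(cl V r k v) := hs k hk
      have h2 : 1 ≤ #(cl V r k v) := cl_card_pos hv
      rw [add_mul] at h1
      omega
    simp [this]
  refine growth_count (fun k => #(cl V r k v)) ?_ (y+1) y D t (y*l) hD ?_ ?_ ?_ s hs
  · intro a b hab
    exact Finset.card_le_card (cl_mono hr hab)
  · intro k; exact cl_card_pos hv
  · intro k; exact (Finset.card_le_card (cl_sub _ _)).trans hV
  · intro j hj
    have h1 : 2 * y^y ≤ (y+1)^y := by
      have h3 : (y:ℕ)^y + y * y^(y-1) ≤ (y+1)^y := by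
        have h4 := add_pow y 1 y
        rw [h4]
        obtain ⟨z, rfl⟩ : ∃ z, y = z + 1 := ⟨y-1, by omega⟩
        rw [Finset.sum_range_succ, Finset.sum_range_succ]
        simp only [one_pow, mul_one, Nat.choose_self, Nat.cast_id]
        have h5 : (z+1).choose z = z + 1 := by
          rw [Nat.choose_succ_self_right]
        rw [h5]
        have h6 : z + 1 - 1 = z := by omega
        rw [h6]
        have h7 : (z+1)^z * (z+1) = (z+1) * (z+1)^z := by ring
        omega
      have h8 : y * y^(y-1) = y^y := by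
        rw [← pow_succ']
        congr 1
        omega
      omega
    have h2 : 2^l * y^(y*l) ≤ (y+1)^(y*l) := by
      rw [pow_mul, pow_mul, ← mul_pow]
      exact Nat.pow_le_pow_left h1 l
    obtain ⟨i, rfl⟩ : ∃ i, j = y*l + i := ⟨j - y*l, by omega⟩
    calc y^(y*l+i) * t = (y^(y*l) * t) * y^i := by rw [pow_add]; ring
      _ < (y^(y*l) * 2^l) * y^i := by
          apply Nat.mul_lt_mul_of_pos_right _ (by positivity)
          apply Nat.mul_lt_mul_of_pos_left htl (by positivity)
      _ ≤ (y+1)^(y*l) * (y+1)^i := by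
          apply Nat.mul_le_mul
          · rw [mul_comm]; exact h2
          · exact Nat.pow_le_pow_left (by omega) i
      _ = (y+1)^(y*l+i) := by rw [pow_add]

end Pool.Agent.DigitA
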