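import Mathlib
import Pool.Agent.DigitA.Cl

open Finset

namespace Pool.Agent.DigitA

open Pool.Agent.SqrtDC

variable {V : Finset ℕ} {r : ℕ → ℕ} {t m : ℕ}

/-! ## Module Diff : Lemma 1, Lemma 2, Kraft bound -/

lemma ccl_mono (hG : Gr V r t m) {k k' : ℕ} (h : k ≤ k') (v : ℕ) :
    #(cl V r k v) ≤ #(cl V r k' v) := card_le_card (cl_mono hG.rmono h)

lemma L1 (hG : Gr V r t m) {y k i j u v : ℕ} (hij : i ≤ j) (hj : j ≤ 12) (hv : v ∈ V)
    (hu : u ∈ cl V r (k+j) v) (hu' : u ∉ cl V r (k+i) v) (hJ : ¬ Jump V r y k v) :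
    y * #(cl V r (k+i) u) ≤ #(cl V r (k+j) u) := by
  have huV : u ∈ V := cl_sub _ _ hu
  have h1 : cl V r (k+j) u = cl V r (k+j) v := cl_eq hu
  have h2 : #(cl V r (k+i) u) + #(cl V r (k+i) v) ≤ #(cl V r (k+j) v) := by
    rw [← card_union_of_disjoint (cl_disj hu' huV)]
    apply card_le_card
    apply union_subset
    · rw [← h1]; exact cl_mono hG.rmono (by omega)
    · exact cl_mono hG.rmono (by omega)
  have h3 := ccl_mono hG (show k+j ≤ k+12 by omega) v
  have h4 := ccl_mono hG (show k ≤ k+i by omega) v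
  unfold Jump at hJ
  rw [h1]
  push Not at hJ
  nlinarith

lemma Big.jump (hG : Gr V r t m) {y k v : ℕ} (hy : 2 ≤ y) (hv : v ∈ V) (h : Big V r y k v) :
    Jump V r y k v := by
  unfold Jump
  unfold Big at h
  have h3 := ccl_mono hG (show k+8 ≤ k+12 by omega) v
  have h4 := ccl_mono hG (show k ≤ k+4 by omega) v
  have h5 : y * #(cl V r k v) ≤ #(cl V r (k+12) v) := by nlinarith
  have h6 : y + 1 ≤ y * y := by nlinarith
  calc (y + 1) * #(cl V r k v) ≤ (y * y) * #(cl V r k v) := Nat.mul_le_mul_right _ h6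
    _ = y * (y * #(cl V r k v)) := by ring
    _ ≤ y * #(cl V r (k+12) v) := Nat.mul_le_mul_left _ h5

lemma mem_cl_symm {k u v : ℕ} (hv : v ∈ V) (h : u ∈ cl V r k v) : v ∈ cl V r k u :=
  mem_cl.2 ⟨hv, (mem_cl.1 h).2.symm⟩

lemma mem_cl_trans {k u v w : ℕ} (h : u ∈ cl V r k v) (h' : v ∈ cl V r k w) : u ∈ cl V r k w :=
  mem_cl.2 ⟨(mem_cl.1 h).1, (mem_cl.1 h).2.trans (mem_cl.1 h').2⟩

lemma Gr.one_le (hG : Gr V r t m) : ∀ k, 1 ≤ r k := fun k =>
  hG.pos.trans (hG.rmono (Nat.zero_le k))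

/-- growth of the scales in a convenient form -/
lemma Gr.lin (hG : Gr V r t m) {i j : ℕ} (hij : i < j) :
    (100 * (m * (t * r i)) + 100 * (m * r i) + 100 * (t * r i) + 100 * r i : ℤ) ≤ r j := by
  have h1 := hG.step i
  have h2 : r (i+1) ≤ r j := hG.rmono (by omega)
  have h3 : (t+1) ^ 1 ≤ (t+1)^(m+1) := Nat.pow_le_pow_right (by omega) (by omega)
  have h4 : (m+1)^1 ≤ (m+1)^2 := Nat.pow_le_pow_right (by omega) (by omega)
  have h5 : 100 * (m+1) * (t+1) * r i ≤ r j := by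
    calc 100 * (m+1) * (t+1) * r i ≤ 100 * (m+1)^2 * (t+1)^(m+1) * r i := by
          rw [pow_one] at h3 h4
          gcongr
      _ ≤ r (i+1) := h1
      _ ≤ r j := h2
  have h6 : 100 * (m+1) * (t+1) * r i =
    100 * (m * (t * r i)) + 100 * (m * r i) + 100 * (t * r i) + 100 * r i := by ring
  rw [h6] at h5
  exact_mod_cast h5

lemma sm_diff (hG : Gr V r t m) {n : ℕ} (hn : n ≤ m) {a b : Fin n → ℕ} {k : ℕ}
    (hb : ∀ l, b l ∈ V) (h : ∀ l, a l ∈ cl V r k (b l)) :
    |sm a - sm b| ≤ m * (t * r k) := by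
  unfold sm
  rw [← sum_sub_distrib]
  calc |∑ i, ((a i : ℤ) - b i)| ≤ ∑ i, |(a i : ℤ) - b i| := abs_sum_le_sum_abs _ _
    _ ≤ ∑ i : Fin n, (t * r k : ℤ) := by
        apply sum_le_sum
        intro i _
        exact dist_of_mem_cl hG.card (hb i) (h i)
    _ = n * (t * r k) := by simp
    _ ≤ m * (t * r k) := by
        apply mul_le_mul_of_nonneg_right
        · exact_mod_cast hn
        · positivity

theorem diff_lemma (hG : Gr V r t m) {y : ℕ} (hy : 2 ≤ y) {n : ℕ} (hn : n ≤ m) {a b : Fin n → ℕ}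
    (ha : ∀ l, a l ∈ V) (hb : ∀ l, b l ∈ V) (hTa : T1 V r y a) (hTb : T1 V r y b) {k : ℕ}
    (hsame : ∀ l, a l ∈ cl V r (k+7) (b l)) (hdiff : ∃ l, a l ∉ cl V r (k+6) (b l))
    (hsum : |sm a - sm b| ≤ r (k+5)) :
    ∃ i j, i ≠ j ∧ Big V r y k (a i) ∧ Big V r y k (b j) := by
  classical
  -- big from the partner
  have bg1 : ∀ i, a i ∉ cl V r (k+4) (b i) → ¬ Jump V r y k (b i) → Big V r y k (a i) := by
    intro i hi hj
    have := L1 hG (i := 4) (j := 8) (by omega) (by omega) (hb i)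
      (cl_mono hG.rmono (by omega) (hsame i)) hi hj
    exact this
  have bg2 : ∀ i, a i ∉ cl V r (k+4) (b i) → ¬ Jump V r y k (a i) → Big V r y k (b i) := by
    intro i hi hj
    have := L1 hG (i := 4) (j := 8) (by omega) (by omega) (ha i)
      (cl_mono hG.rmono (by omega) (mem_cl_symm (hb i) (hsame i)))
      (fun hc => hi (mem_cl_symm (ha i) hc)) hj
    exact this
  -- an index in `D` has a jump
  have hD : ∀ i, a i ∉ cl V r (k+4) (b i) → Jump V r y k (a i) ∨ Jump V r y k (b i) := by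
    intro i hi
    by_cases hj : Jump V r y k (b i)
    · exact Or.inr hj
    · exact Or.inl (Big.jump hG hy (ha i) (bg1 i hi hj))
  obtain ⟨i₀, hi₀⟩ := hdiff
  have hi₀' : a i₀ ∉ cl V r (k+4) (b i₀) := fun hc => hi₀ (cl_mono hG.rmono (by omega) hc)
  -- there is a second index
  have hsec : ∃ l, l ≠ i₀ ∧ a l ∉ cl V r (k+4) (b l) := by
    by_contra hcon
    push Not at hcon
    apply hi₀
    apply mem_cl_of_near (ha i₀) (hb i₀)
    have e1 : (a i₀ : ℤ) - b i₀ = (sm a - sm b) - ∑ l ∈ univ.erase i₀, ((a l : ℤ) - b l) := by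
      unfold sm
      rw [← sum_sub_distrib, ← add_sum_erase univ (fun l => (a l : ℤ) - b l) (mem_univ i₀)]
      ring
    have e2 : |∑ l ∈ univ.erase i₀, ((a l : ℤ) - b l)| ≤ m * (t * r (k+4)) := by
      calc |∑ l ∈ univ.erase i₀, ((a l : ℤ) - b l)| ≤ ∑ l ∈ univ.erase i₀, |(a l : ℤ) - b l| :=
            abs_sum_le_sum_abs _ _
        _ ≤ ∑ l ∈ univ.erase i₀, (t * r (k+4) : ℤ) := by
            apply sum_le_sum
            intro l hl
            exact dist_of_mem_cl hG.card (hb l) (hcon l (ne_of_mem_erase hl))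
        _ ≤ m * (t * r (k+4)) := by
            rw [sum_const, nsmul_eq_mul]
            apply mul_le_mul_of_nonneg_right
            · have := card_erase_le (s := (univ : Finset (Fin n))) (a := i₀)
              rw [card_univ, Fintype.card_fin] at this
              exact_mod_cast this.trans hn
            · positivity
    have e3 := hG.lin (show k+4 < k+5 by omega)
    have e4 := hG.lin (show k+5 < k+6 by omega)
    have f1 : (0:ℤ) ≤ m * (t * r (k+4)) := by positivity
    have f2 : (0:ℤ) ≤ m * r (k+4) := by positivity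
    have f3 : (0:ℤ) ≤ t * r (k+4) := by positivity
    have f4 : (0:ℤ) ≤ r (k+4) := by positivity
    have f5 : (0:ℤ) ≤ m * (t * r (k+5)) := by positivity
    have f6 : (0:ℤ) ≤ m * r (k+5) := by positivity
    have f7 : (0:ℤ) ≤ t * r (k+5) := by positivity
    have f8 : (0:ℤ) ≤ r (k+5) := by positivity
    rw [e1]
    calc |(sm a - sm b) - ∑ l ∈ univ.erase i₀, ((a l : ℤ) - b l)|
        ≤ |sm a - sm b| + |∑ l ∈ univ.erase i₀, ((a l : ℤ) - b l)| := abs_sub _ _
      _ ≤ r (k+5) + r (k+5) := by linarith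
      _ ≤ r (k+6) := by linarith
  obtain ⟨l₀, hl₀, hl₀'⟩ := hsec
  have a1 := hD i₀ hi₀'
  have a2 := hD l₀ hl₀'
  rcases a1 with a1 | a1
  · have n1 : ¬ Jump V r y k (a l₀) := fun hc => hl₀ (hTa k _ _ hc a1)
    have a2' : Jump V r y k (b l₀) := a2.resolve_left n1
    have n2 : ¬ Jump V r y k (b i₀) := fun hc => hl₀ (hTb k _ _ a2' hc)
    exact ⟨i₀, l₀, hl₀.symm, bg1 i₀ hi₀' n2, bg2 l₀ hl₀' n1⟩
  · have n1 : ¬ Jump V r y k (b l₀) := fun hc => hl₀ (hTb k _ _ hc a1)
    have a2' : Jump V r y k (a l₀) := a2.resolve_right n1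
    have n2 : ¬ Jump V r y k (a i₀) := fun hc => hl₀ (hTa k _ _ a2' hc)
    exact ⟨l₀, i₀, hl₀, bg1 l₀ hl₀' n1, bg2 i₀ hi₀' n2⟩

/-- the pairs (component, level below `k`) at which a tuple is big -/
def bigs {n : ℕ} (V : Finset ℕ) (r : ℕ → ℕ) (y : ℕ) (k : ℕ) (a : Fin n → ℕ) :
    Finset (Fin n × ℕ) :=
  ((univ : Finset (Fin n)) ×ˢ range k).filter (fun p => Big V r y p.2 (a p.1))

lemma bigs_card (hG : Gr V r t m) {y A : ℕ} (hy : 2 ≤ y) (hty : t < y^(A+1)) {n : ℕ}
    {a : Fin n → ℕ} (ha : ∀ i, a i ∈ V) (k : ℕ) : #(bigs V r y k a) ≤ n * (4 * A) := by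
  classical
  have h1 : bigs V r y k a = (univ : Finset (Fin n)).biUnion (fun i =>
      ((range k).filter (fun j => Big V r y j (a i))).image (fun j => (i, j))) := by
    ext ⟨i, j⟩
    simp [bigs]
  rw [h1]
  refine card_biUnion_le.trans ?_
  calc ∑ i : Fin n, #(((range k).filter (fun j => Big V r y j (a i))).image (fun j => (i, j)))
      ≤ ∑ i : Fin n, 4 * A := by
        apply sum_le_sum
        intro i _
        refine card_image_le.trans ?_
        refine count_big hG hy hty (ha i) 4 _ ?_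
        intro k hk
        exact (mem_filter.1 hk).2
    _ = n * (4 * A) := by simp

/-- Lemma 3, inductive form -/
lemma kraft_aux (hG : Gr V r t m) {y : ℕ} (hy : 2 ≤ y) {n : ℕ} (hn : n ≤ m) (hn1 : 1 ≤ n)
    {α : Type*} (s : Finset α) (a : α → Fin n → ℕ) (κ : α → ℕ) (x : ℤ)
    (hV : ∀ i ∈ s, ∀ l, a i l ∈ V) (hT : ∀ i ∈ s, T1 V r y (a i))
    (hx : ∀ i ∈ s, 2 * |sm (a i) - x| ≤ r (κ i + 5))
    (hsep : ∀ i ∈ s, ∀ j ∈ s, i ≠ j → ∃ k, κ i ≤ k ∧ κ j ≤ k ∧ ∃ l, a i l ∉ cl V r (k+6) (a j l))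
    (k : ℕ) :
    ∀ (T : Finset α) (N : ℕ), T ⊆ s → (∀ i ∈ T, ∀ j ∈ T, ∀ l, a i l ∈ cl V r (k+6) (a j l)) →
      (∀ i ∈ T, #(bigs V r y k (a i)) ≤ N) → #T ≤ n ^ N := by
  classical
  induction k with
  | zero =>
    intro T N hTI hE _
    have h1 : #T ≤ 1 := by
      rw [card_le_one]
      intro i hi j hj
      by_contra hne
      obtain ⟨k, _, _, l, hk⟩ := hsep i (hTI hi) j (hTI hj) hne
      exact hk (cl_mono hG.rmono (by omega) (hE i hi j hj l))
    exact h1.trans (Nat.one_le_pow _ _ (by omega))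
  | succ k ih =>
    intro T N hTI hE hN
    by_cases hall : ∀ i ∈ T, ∀ j ∈ T, ∀ l, a i l ∈ cl V r (k+6) (a j l)
    · refine ih T N hTI hall (fun i hi => le_trans (card_le_card ?_) (hN i hi))
      intro p hp
      simp only [bigs, mem_filter, mem_product, mem_univ, true_and, mem_range] at hp ⊢
      exact ⟨by omega, hp.2⟩
    · push Not at hall
      obtain ⟨a₀, ha₀, b₀, hb₀, l₀, hab⟩ := hall
      -- the level is above all `κ`
      have hκ : ∀ i ∈ T, κ i ≤ k := by
        intro i hi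
        have hne : ∃ j ∈ T, i ≠ j := by
          by_cases hia : i = a₀
          · refine ⟨b₀, hb₀, ?_⟩
            rintro rfl
            subst hia
            exact hab (self_mem_cl (hV i (hTI ha₀) l₀))
          · exact ⟨a₀, ha₀, hia⟩
        obtain ⟨j, hj, hne⟩ := hne
        obtain ⟨k', hk1, _, l, hk3⟩ := hsep i (hTI hi) j (hTI hj) hne
        by_contra hcon
        exact hk3 (cl_mono hG.rmono (by omega) (hE i hi j hj l))
      have hsum : ∀ i ∈ T, ∀ j ∈ T, |sm (a i) - sm (a j)| ≤ r (k+5) := by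
        intro i hi j hj
        have e1 := hx i (hTI hi)
        have e2 := hx j (hTI hj)
        have e3 : (r (κ i + 5) : ℤ) ≤ r (k+5) := by
          exact_mod_cast hG.rmono (by have := hκ i hi; omega)
        have e4 : (r (κ j + 5) : ℤ) ≤ r (k+5) := by
          exact_mod_cast hG.rmono (by have := hκ j hj; omega)
        have e5 : |sm (a i) - sm (a j)| ≤ |sm (a i) - x| + |sm (a j) - x| := by
          rw [show sm (a i) - sm (a j) = (sm (a i) - x) - (sm (a j) - x) by ring]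
          exact abs_sub _ _
        omega
      have hsw : ∀ i ∈ T, ∀ j ∈ T, (∃ l, a i l ∉ cl V r (k+6) (a j l)) → ∃ p l, p ≠ l ∧
          Big V r y k (a i p) ∧ Big V r y k (a j l) := fun i hi j hj hne =>
        diff_lemma hG hy hn (hV i (hTI hi)) (hV j (hTI hj)) (hT i (hTI hi)) (hT j (hTI hj))
          (hE i hi j hj) hne (hsum i hi j hj)
      -- every member has a big jump at `k`
      have hlam : ∀ i ∈ T, ∃ p, Big V r y k (a i p) := by
        intro i hi
        by_cases h1 : ∃ l, a i l ∉ cl V r (k+6) (a a₀ l)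
        · obtain ⟨p, l, _, q1, q2⟩ := hsw i hi a₀ ha₀ h1
          exact ⟨p, q1⟩
        · by_cases h2 : ∃ l, a i l ∉ cl V r (k+6) (a b₀ l)
          · obtain ⟨p, l, _, q1, q2⟩ := hsw i hi b₀ hb₀ h2
            exact ⟨p, q1⟩
          · exfalso
            push Not at h1 h2
            exact hab (mem_cl_trans (mem_cl_symm (hV a₀ (hTI ha₀) l₀) (h1 l₀)) (h2 l₀))
      have hNpos : ∀ i ∈ T, ∀ p, Big V r y k (a i p) →
          #(bigs V r y k (a i)) + 1 ≤ #(bigs V r y (k + 1) (a i)) := by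
        intro i _ p hp
        have hnot : ((p, k) : Fin n × ℕ) ∉ bigs V r y k (a i) := by
          simp [bigs]
        rw [← card_insert_of_notMem hnot]
        apply card_le_card
        intro q hq
        rcases mem_insert.1 hq with rfl | hq
        · simp [bigs, hp]
        · simp only [bigs, mem_filter, mem_product, mem_univ, true_and, mem_range] at hq ⊢
          exact ⟨by omega, hq.2⟩
      obtain ⟨N', rfl⟩ : ∃ N', N = N' + 1 := by
        obtain ⟨p, q2⟩ := hlam a₀ ha₀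
        have e1 := hNpos a₀ ha₀ p q2
        have e2 := hN a₀ ha₀
        exact ⟨N - 1, by omega⟩
      have hcov : T ⊆ (univ : Finset (Fin n)).biUnion (fun p =>
          T.filter (fun i => Big V r y k (a i p))) := by
        intro i hi
        obtain ⟨p, q1⟩ := hlam i hi
        simp only [mem_biUnion, mem_univ, true_and, mem_filter]
        exact ⟨p, hi, q1⟩
      calc #T ≤ _ := card_le_card hcov
        _ ≤ ∑ p : Fin n, #(T.filter (fun i => Big V r y k (a i p))) := card_biUnion_le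
        _ ≤ ∑ p : Fin n, n ^ N' := by
            apply sum_le_sum
            intro p _
            apply ih _ N' ((filter_subset _ _).trans hTI)
            · intro i hi j hj
              rw [mem_filter] at hi hj
              by_contra hne
              push Not at hne
              obtain ⟨p', l', hpl, q1, q3⟩ := hsw i hi.1 j hj.1 hne
              have e1 := hT i (hTI hi.1) k _ _ (Big.jump hG hy (hV i (hTI hi.1) p) hi.2)
                (Big.jump hG hy (hV i (hTI hi.1) p') q1)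
              have e2 := hT j (hTI hj.1) k _ _ (Big.jump hG hy (hV j (hTI hj.1) p) hj.2)
                (Big.jump hG hy (hV j (hTI hj.1) l') q3)
              exact hpl (e1.symm.trans e2)
            · intro i hi
              rw [mem_filter] at hi
              obtain ⟨p', q2⟩ := hlam i hi.1
              have e1 := hNpos i hi.1 p' q2
              have e2 := hN i hi.1
              omega
        _ = n * n ^ N' := by simp
        _ = n ^ (N' + 1) := by ring

theorem kraft (hG : Gr V r t m) {y A : ℕ} (hy : 2 ≤ y) (hty : t < y^(A+1)) {n : ℕ} (hn : n ≤ m)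
    {α : Type*} (s : Finset α) (a : α → Fin n → ℕ) (κ : α → ℕ) (x : ℤ)
    (hV : ∀ i ∈ s, ∀ l, a i l ∈ V) (hT : ∀ i ∈ s, T1 V r y (a i))
    (hx : ∀ i ∈ s, 2 * |sm (a i) - x| ≤ r (κ i + 5))
    (hsep : ∀ i ∈ s, ∀ j ∈ s, i ≠ j → ∃ k, κ i ≤ k ∧ κ j ≤ k ∧ ∃ l, a i l ∉ cl V r (k+6) (a j l)) :
    #s ≤ n^(n*(4*A)) := by
  rcases Nat.eq_zero_or_pos n with h0 | h0
  · subst h0
    rw [Nat.zero_mul, pow_zero, card_le_one]
    intro i hi j hj
    by_contra hne
    obtain ⟨_, _, _, l, _⟩ := hsep i hi j hj hne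
    exact l.elim0
  · obtain ⟨K, hK⟩ := cl_top hG
    exact kraft_aux hG hy hn h0 s a κ x hV hT hx hsep K s (n * (4 * A)) (Subset.refl _)
      (fun i hi j hj l => by
        rw [hK (K+6) (by omega) _ (hV j hj l)]; exact hV i hi l)
      (fun i hi => bigs_card hG hy hty (hV i hi) K)

lemma mem_gt {y n : ℕ} {a : Fin n → ℕ} :
    a ∈ gt V r y n ↔ (∀ l, a l ∈ V) ∧ T1 V r y a ∧ T2 V r a := by
  simp [gt, tup]

theorem reps_card (hG : Gr V r t m) {y A : ℕ} (hy : 2 ≤ y) (hty : t < y^(A+1)) {n : ℕ} (hn : n ≤ m)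
    (S : Finset (Fin n → ℕ)) (x : ℤ) (hS : S ⊆ gt V r y n)
    (hx : ∀ a ∈ S, 2 * |sm a - x| ≤ r 19) : #S ≤ n^(n*(4*A)) := by
  refine kraft hG hy hty hn S (fun a => a) (fun _ => 14) x
    (fun a ha => (mem_gt.1 (hS ha)).1) (fun a ha => (mem_gt.1 (hS ha)).2.1) hx ?_
  intro a ha b hb hab
  refine ⟨14, le_rfl, le_rfl, ?_⟩
  by_contra hcon
  push Not at hcon
  apply hab
  funext l
  have h1 := (mem_gt.1 (hS hb)).2.2 l
  rw [card_le_one] at h1
  exact h1 _ (hcon l) _ (self_mem_cl ((mem_gt.1 (hS hb)).1 l))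

/-- density of the law of the representations -/
theorem near_card (hG : Gr V r t m) {y A : ℕ} (hy : 2 ≤ y) (hty : t < y^(A+1)) {n : ℕ} (hn : n ≤ m)
    (BAD : Finset (Fin n → ℕ)) (τ : ℕ) (hτ : 2*τ ≤ r 19) (G : Finset (Fin n → ℕ))
    (hG' : G ⊆ gt V r y n) (hnear : ∀ v ∈ G, ∃ b ∈ BAD, |sm b - sm v| ≤ τ) :
    #G ≤ n^(n*(4*A)) * #BAD := by
  classical
  have hcov : G ⊆ BAD.biUnion (fun b => G.filter (fun v => |sm b - sm v| ≤ τ)) := by
    intro v hv
    obtain ⟨b, hb, hbv⟩ := hnear v hv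
    rw [mem_biUnion]
    exact ⟨b, hb, mem_filter.2 ⟨hv, hbv⟩⟩
  calc #G ≤ _ := card_le_card hcov
    _ ≤ ∑ b ∈ BAD, #(G.filter (fun v => |sm b - sm v| ≤ τ)) := card_biUnion_le
    _ ≤ ∑ b ∈ BAD, n^(n*(4*A)) := by
        apply sum_le_sum
        intro b _
        refine reps_card hG hy hty hn _ (sm b) ((filter_subset _ _).trans hG') ?_
        intro v hv
        have h1 := (mem_filter.1 hv).2
        rw [abs_sub_comm] at h1
        have h2 : (2 * (τ:ℤ)) ≤ r 19 := by exact_mod_cast hτ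
        linarith
    _ = n^(n*(4*A)) * #BAD := by rw [sum_const, smul_eq_mul, mul_comm]

end Pool.Agent.DigitA
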