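import Mathlib
import Pool.Agent.DigitA.Diff
import Pool.Agent.SqrtDC.Clus

open Finset

namespace Pool.Agent.DigitA

open Pool.Agent.SqrtDC

variable {V : Finset ℕ} {r : ℕ → ℕ} {t m : ℕ}

/-! ## Module Imb : imbalance lemma (helper27) and U1 (helper17, after helper27) -/

lemma imb_sm_cast {n : ℕ} (a : Fin n → ℕ) : ((∑ i, a i : ℕ) : ℤ) = sm a := by
  unfold sm; push_cast; rfl

lemma imb_mem_tup {n : ℕ} {a : Fin n → ℕ} : a ∈ tup V n ↔ ∀ l, a l ∈ V := by simp [tup]

lemma imb_card_tup (V : Finset ℕ) (n : ℕ) : #(tup V n) = #V ^ n := by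
  simp [tup, Fintype.card_piFinset]

lemma imb_card_sums (V : Finset ℕ) (n : ℕ) : #(sums V n) ≤ #V ^ n :=
  card_image_le.trans (imb_card_tup V n).le

lemma imb_mem_sums {n : ℕ} {a : Fin n → ℕ} (ha : ∀ l, a l ∈ V) : ∑ i, a i ∈ sums V n :=
  mem_image_of_mem (fun a : Fin n → ℕ => ∑ i, a i) (imb_mem_tup.2 ha)

lemma imb_stt_near {S : Finset ℕ} {γ x x' : ℕ} (hx : x ∈ S) (hx' : x' ∈ S)
    (h : |(x:ℤ) - x'| ≤ γ) : stt S γ x = stt S γ x' := by
  have h1 := abs_le.1 h
  rcases le_total x x' with h2 | h2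
  · exact stt_eq_of_near S hx hx' h2 (by omega)
  · exact (stt_eq_of_near S hx' hx h2 (by omega)).symm

lemma imb_stt_dist {S : Finset ℕ} {γ x x' T : ℕ} (hS : #S ≤ T) (hx : x ∈ S) (hx' : x' ∈ S)
    (h : stt S γ x = stt S γ x') : |(x:ℤ) - x'| ≤ T * γ := by
  have h1 := le_stt' S γ x T hS hx
  have h2 := le_stt' S γ x' T hS hx'
  have h3 := stt_le S γ x
  have h4 := stt_le S γ x'
  have h5 : ((T * γ : ℕ) : ℤ) = T * γ := by push_cast; ring
  rw [← h5, abs_le]
  constructor <;> omega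

lemma imb_stt_up {S : Finset ℕ} {γ γ' x x' : ℕ} (hγ : γ ≤ γ') (h : stt S γ x = stt S γ x') :
    stt S γ' x = stt S γ' x' := by
  rw [← stt_stt S hγ x, h, stt_stt S hγ x']

lemma imb_mem_cell {k n : ℕ} {a a' : Fin n → ℕ} : a' ∈ cell V r k a ↔
    (∀ l, a' l ∈ V) ∧ (∀ l, a' l ∈ cl V r (k+3) (a l)) ∧
      stt (sums V n) (r k) (∑ i, a' i) = stt (sums V n) (r k) (∑ i, a i) := by
  simp [cell, imb_mem_tup]

lemma imb_self_mem_cell {k n : ℕ} {a : Fin n → ℕ} (ha : ∀ i, a i ∈ V) : a ∈ cell V r k a :=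
  imb_mem_cell.2 ⟨ha, fun i => self_mem_cl (ha i), rfl⟩

lemma imb_cell_eq {k n : ℕ} {a a' : Fin n → ℕ} (ha : ∀ i, a i ∈ V) (h : a' ∈ cell V r k a) :
    cell V r k a' = cell V r k a := by
  obtain ⟨h1, h2, h3⟩ := imb_mem_cell.1 h
  ext b
  rw [imb_mem_cell, imb_mem_cell]
  constructor
  · rintro ⟨g1, g2, g3⟩
    exact ⟨g1, fun l => mem_cl_trans (g2 l) (h2 l), g3.trans h3⟩
  · rintro ⟨g1, g2, g3⟩
    exact ⟨g1, fun l => mem_cl_trans (g2 l) (mem_cl_symm (ha l) (h2 l)), g3.trans h3.symm⟩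

/-- at a large level every cell is everything -/
lemma imb_cell_top (hG : Gr V r t m) (n : ℕ) : ∃ K, ∀ k, K ≤ k → ∀ a : Fin n → ℕ, (∀ l, a l ∈ V) →
    cell V r k a = tup V n := by
  obtain ⟨K, hK⟩ := cl_top hG
  have hgrow : ∀ k : ℕ, k ≤ r k := by
    intro k
    induction k with
    | zero => exact Nat.zero_le _
    | succ k ih =>
      have h1 := hG.lin (show k < k + 1 by omega)
      have h2 := hG.one_le k
      have f1 : (0:ℤ) ≤ m * (t * r k) := by positivity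
      have f2 : (0:ℤ) ≤ m * r k := by positivity
      have f3 : (0:ℤ) ≤ t * r k := by positivity
      have f4 : (r k : ℤ) + 1 ≤ r (k+1) := by linarith [(show (1:ℤ) ≤ r k by exact_mod_cast h2)]
      have f5 : r k + 1 ≤ r (k+1) := by exact_mod_cast f4
      omega
  refine ⟨K + (sums V n).sup id, ?_⟩
  intro k hk a ha
  ext b
  rw [imb_mem_cell, imb_mem_tup]
  constructor
  · exact fun h => h.1
  · intro hb
    refine ⟨hb, fun l => ?_, ?_⟩
    · rw [hK (k+3) (by omega) _ (ha l)]; exact hb l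
    · apply imb_stt_near (imb_mem_sums hb) (imb_mem_sums ha)
      have h1 : (∑ i, b i) ≤ (sums V n).sup id := le_sup (f := id) (imb_mem_sums hb)
      have h2 : (∑ i, a i) ≤ (sums V n).sup id := le_sup (f := id) (imb_mem_sums ha)
      have h3 := hgrow k
      rw [abs_le]
      constructor <;> omega

open scoped Classical in
theorem imb_count (hG : Gr V r t m) {y A : ℕ} (hy : 2 ≤ y) (hty : t < y^(A+1)) {n : ℕ}
    (hn : n ≤ m) {f : ℕ} (hf : 1 ≤ f) (τ : ℕ) (hτ : 2*τ ≤ r 3) :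
    f * #((gt V r y n ×ˢ gt V r y n).filter (fun q => |sm q.1 - sm q.2| ≤ τ ∧
      ∃ k, 3 ≤ k ∧ f * #(cell V r k q.1) < #(cell V r k q.2))) ≤
      (n^(n*(4*A)))^2 * (#V)^n := by
  set N := n^(n*(4*A)) with hN
  obtain ⟨K₀, hK₀⟩ := imb_cell_top hG n
  generalize hPdef : (gt V r y n ×ˢ gt V r y n).filter (fun q => |sm q.1 - sm q.2| ≤ τ ∧
      ∃ k, 3 ≤ k ∧ f * #(cell V r k q.1) < #(cell V r k q.2)) = P
  have hP : ∀ p ∈ P, p.1 ∈ gt V r y n ∧ p.2 ∈ gt V r y n ∧ |sm p.1 - sm p.2| ≤ τ ∧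
      ∃ k, 3 ≤ k ∧ f * #(cell V r k p.1) < #(cell V r k p.2) := by
    intro p hp
    rw [← hPdef, mem_filter, mem_product] at hp
    exact ⟨hp.1.1, hp.1.2, hp.2.1, hp.2.2⟩
  -- the maximal violating level
  set viol : (Fin n → ℕ) × (Fin n → ℕ) → ℕ → Prop := fun p k =>
    3 ≤ k ∧ f * #(cell V r k p.1) < #(cell V r k p.2) with hviol
  have hvK : ∀ p ∈ P, ∀ k, viol p k → k ≤ K₀ := by
    intro p hp k hk
    by_contra hcon
    obtain ⟨h1, h2, _⟩ := hP p hp
    have h3 := hk.2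
    rw [hK₀ k (by omega) _ (mem_gt.1 h1).1, hK₀ k (by omega) _ (mem_gt.1 h2).1] at h3
    nlinarith
  set kp : (Fin n → ℕ) × (Fin n → ℕ) → ℕ := fun p => Nat.findGreatest (viol p) K₀ with hkp
  have hk1 : ∀ p ∈ P, viol p (kp p) := by
    intro p hp
    obtain ⟨_, _, _, k, h1, h3⟩ := hP p hp
    exact Nat.findGreatest_spec (P := viol p) (hvK p hp k ⟨h1, h3⟩) ⟨h1, h3⟩
  have hk2 : ∀ p ∈ P, ∀ k, viol p k → k ≤ kp p := fun p hp k h2 =>
    Nat.le_findGreatest (hvK p hp k h2) h2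
  set Tr : (Fin n → ℕ) × (Fin n → ℕ) → ℕ × Finset (Fin n → ℕ) × Finset (Fin n → ℕ) :=
    fun p => (kp p, cell V r (kp p) p.1, cell V r (kp p) p.2) with hTr
  have hrk : ∀ k, 3 ≤ k → r 3 ≤ r k := fun k hk => hG.rmono hk
  have hnear : ∀ p ∈ P, ∀ k, 3 ≤ k → stt (sums V n) (r k) (∑ i, p.1 i) =
      stt (sums V n) (r k) (∑ i, p.2 i) := by
    intro p hp k hk
    obtain ⟨h1, h3, h5, _⟩ := hP p hp
    apply imb_stt_near (imb_mem_sums (mem_gt.1 h1).1) (imb_mem_sums (mem_gt.1 h3).1)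
    rw [imb_sm_cast, imb_sm_cast]
    have e1 := hrk k hk
    have e2 : (τ : ℤ) ≤ r k := by exact_mod_cast (by omega : τ ≤ r k)
    exact h5.trans e2
  -- two violating pairs
  have tri : ∀ p ∈ P, ∀ p' ∈ P, ∀ b' : Fin n → ℕ, (∀ i, b' i ∈ V) → kp p ≤ kp p' →
      b' ∈ cell V r (kp p) p.2 → b' ∈ cell V r (kp p') p'.2 →
      (∀ l, p'.1 l ∈ cl V r (kp p' + 3) (p.1 l)) → Tr p = Tr p' := by
    intro p hp p' hp' b' hb' hle hb1 hb2 he
    obtain ⟨h1, h3, h5, _⟩ := hP p hp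
    obtain ⟨h1', h3', h5', _⟩ := hP p' hp'
    have hv := hk1 p hp
    have hv' := hk1 p' hp'
    obtain ⟨c1, c2, c3⟩ := imb_mem_cell.1 hb1
    obtain ⟨d1, d2, d3⟩ := imb_mem_cell.1 hb2
    have c3' : stt (sums V n) (r (kp p')) (∑ i, b' i) = stt (sums V n) (r (kp p')) (∑ i, p.2 i) :=
      imb_stt_up (hG.rmono hle) c3
    have e1 : stt (sums V n) (r (kp p')) (∑ i, p'.1 i) =
        stt (sums V n) (r (kp p')) (∑ i, p.1 i) := by
      rw [hnear p' hp' _ hv'.1, ← d3, c3', hnear p hp _ hv'.1]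
    have e2 : cell V r (kp p') p'.1 = cell V r (kp p') p.1 :=
      imb_cell_eq (mem_gt.1 h1).1 (imb_mem_cell.2 ⟨(mem_gt.1 h1').1, he, e1⟩)
    have e3 : cell V r (kp p') b' = cell V r (kp p') p.2 :=
      imb_cell_eq (mem_gt.1 h3).1 (imb_mem_cell.2 ⟨hb', fun l => cl_mono hG.rmono (by omega) (c2 l), c3'⟩)
    have e4 : cell V r (kp p') b' = cell V r (kp p') p'.2 := imb_cell_eq (mem_gt.1 h3').1 hb2
    have e5 : kp p' ≤ kp p := by
      apply hk2 p hp _
      refine ⟨hv'.1, ?_⟩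
      have := hv'.2
      rw [e2, ← e4, e3] at this
      exact this
    have e6 : kp p = kp p' := le_antisymm hle e5
    simp only [hTr]
    rw [e6, ← e2, ← e3, e4]
  -- the fibres
  have hfib : ∀ T ∈ P.image Tr, f * #(P.filter (fun p => Tr p = T)) ≤ N * #T.2.2 := by
    intro T hT
    obtain ⟨p₀, hp₀, rfl⟩ := mem_image.1 hT
    have h1 : P.filter (fun p => Tr p = Tr p₀) ⊆ (Tr p₀).2.1.biUnion (fun a =>
        (((gt V r y n).filter (fun b => |sm b - sm a| ≤ τ)).image (fun b => (a, b)))) := by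
      intro p hp
      obtain ⟨hp1, hp2⟩ := mem_filter.1 hp
      obtain ⟨g1, g3, g5, _⟩ := hP p hp1
      rw [mem_biUnion]
      refine ⟨p.1, ?_, ?_⟩
      · rw [← hp2]
        exact imb_self_mem_cell (mem_gt.1 g1).1
      · rw [mem_image]
        refine ⟨p.2, ?_, rfl⟩
        rw [mem_filter]
        exact ⟨g3, by rw [abs_sub_comm]; exact g5⟩
    have h2 : #(P.filter (fun p => Tr p = Tr p₀)) ≤ #(Tr p₀).2.1 * N := by
      refine (card_le_card h1).trans (card_biUnion_le.trans ?_)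
      rw [← smul_eq_mul, ← sum_const]
      apply sum_le_sum
      intro a _
      refine card_image_le.trans ?_
      refine reps_card hG hy hty hn _ (sm a) (filter_subset _ _) ?_
      intro b hb
      have h3 := (mem_filter.1 hb).2
      have h4 : r 3 ≤ r 19 := hG.rmono (by omega)
      have h5 : (2 * (τ:ℤ)) ≤ r 19 := by exact_mod_cast hτ.trans h4
      linarith
    have h3 : f * #(Tr p₀).2.1 ≤ #(Tr p₀).2.2 := (hk1 p₀ hp₀).2.le
    calc f * #(P.filter (fun p => Tr p = Tr p₀)) ≤ f * (#(Tr p₀).2.1 * N) :=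
          Nat.mul_le_mul_left _ h2
      _ = N * (f * #(Tr p₀).2.1) := by ring
      _ ≤ N * #(Tr p₀).2.2 := Nat.mul_le_mul_left _ h3
  -- the triples through a given tuple
  have hthr : ∀ b' ∈ tup V n, #((P.image Tr).filter (fun T => b' ∈ T.2.2)) ≤ N := by
    intro b' hb'
    have hb'V := imb_mem_tup.1 hb'
    have hw : ∀ T ∈ (P.image Tr).filter (fun T => b' ∈ T.2.2), ∃ p, p ∈ P ∧ Tr p = T := by
      intro T hT
      obtain ⟨p, hp, he⟩ := mem_image.1 (mem_filter.1 hT).1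
      exact ⟨p, hp, he⟩
    have hbm : ∀ T ∈ (P.image Tr).filter (fun T => b' ∈ T.2.2), b' ∈ T.2.2 :=
      fun T hT => (mem_filter.1 hT).2
    generalize hR' : (P.image Tr).filter (fun T => b' ∈ T.2.2) = R' at hw hbm ⊢
    choose! w hw1 hw2 using hw
    have hcell : ∀ T ∈ R', b' ∈ cell V r (kp (w T)) (w T).2 := by
      intro T hT
      have := hbm T hT
      rw [← hw2 T hT] at this
      exact this
    refine kraft hG hy hty hn R' (fun T => (w T).1) (fun T => kp (w T) - 3) (sm b') ?_ ?_ ?_ ?_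
    · intro T hT; exact (mem_gt.1 (hP _ (hw1 T hT)).1).1
    · intro T hT; exact (mem_gt.1 (hP _ (hw1 T hT)).1).2.1
    · intro T hT
      obtain ⟨g1, g3, g5, _⟩ := hP _ (hw1 T hT)
      have hk := (hk1 _ (hw1 T hT)).1
      set k := kp (w T) with hkdef
      have e1 : |sm (w T).2 - sm b'| ≤ t^n * r k := by
        have := imb_stt_dist (T := t^n) ((imb_card_sums V n).trans (Nat.pow_le_pow_left hG.card n))
          (imb_mem_sums hb'V) (imb_mem_sums (mem_gt.1 g3).1) (imb_mem_cell.1 (hcell T hT)).2.2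
        rw [imb_sm_cast, imb_sm_cast, abs_sub_comm] at this
        exact_mod_cast this
      have e2 : 100 * (t^n * r k) + 100 * r k ≤ r (k+2) := by
        have h1 := hG.step k
        have h2 : r (k+1) ≤ r (k+2) := hG.rmono (by omega)
        have h3 : t^n + 1 ≤ 2 * (t+1)^(m+1) := by
          have a1 : t^n ≤ (t+1)^n := Nat.pow_le_pow_left (by omega) n
          have a2 : (t+1)^n ≤ (t+1)^(m+1) := Nat.pow_le_pow_right (by omega) (by omega)
          have a3 : 1 ≤ (t+1)^(m+1) := Nat.one_le_pow _ _ (by omega)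
          omega
        have h3' : t^n ≤ (t+1)^(m+1) :=
          (Nat.pow_le_pow_left (by omega) n).trans (Nat.pow_le_pow_right (by omega) (by omega))
        have h4 : 100 * (t^n * r k) ≤ 1 * (100 * (m+1)^2 * (t+1)^(m+1) * r k) := by
          calc 100 * (t^n * r k) = 100 * 1 * t^n * r k := by ring
            _ ≤ 100 * (m+1)^2 * (t+1)^(m+1) * r k := by
                have : 1 ≤ (m+1)^2 := Nat.one_le_pow _ _ (by omega)
                gcongr
            _ = _ := by ring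
        have h5 : ∀ k, 100 * r k ≤ r (k+1) := by
          intro k
          calc 100 * r k = 100 * 1 * 1 * r k := by ring
            _ ≤ 100 * (m+1)^2 * (t+1)^(m+1) * r k := by
                have : 1 ≤ (m+1)^2 := Nat.one_le_pow _ _ (by omega)
                have : 1 ≤ (t+1)^(m+1) := Nat.one_le_pow _ _ (by omega)
                gcongr
            _ ≤ _ := hG.step k
        have h6 := h5 k
        have h6' := h5 (k+1)
        rw [show k + 1 + 1 = k + 2 by ring] at h6'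
        have h7 : 100 * (t^n * r k) ≤ r (k+1) := by omega
        omega
      have e3 := hrk k hk
      have e7 : |sm (w T).1 - sm b'| ≤ |sm (w T).1 - sm (w T).2| + |sm (w T).2 - sm b'| := by
        rw [show sm (w T).1 - sm b' = (sm (w T).1 - sm (w T).2) + (sm (w T).2 - sm b') by ring]
        exact abs_add_le _ _
      have e8 : r (k - 3 + 5) = r (k+2) := by congr 1; omega
      show 2 * |sm (w T).1 - sm b'| ≤ r (k - 3 + 5)
      rw [e8]
      have e9 : (100 * ((t:ℤ)^n * r k) + 100 * r k : ℤ) ≤ r (k+2) := by exact_mod_cast e2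
      have e10 : (2 * (τ:ℤ)) ≤ r k := by exact_mod_cast hτ.trans e3
      have e11 : (0:ℤ) ≤ (t:ℤ)^n * r k := by positivity
      have e12 : (0:ℤ) ≤ r k := by positivity
      linarith
    · intro T hT T' hT' hne
      by_contra hcon
      push Not at hcon
      have hkT := (hk1 _ (hw1 T hT)).1
      have hkT' := (hk1 _ (hw1 T' hT')).1
      rcases le_total (kp (w T)) (kp (w T')) with hle | hle
      · have h1 := hcon (kp (w T') - 3) (by omega) le_rfl
        have := tri _ (hw1 T hT) _ (hw1 T' hT') b' hb'V hle (hcell T hT) (hcell T' hT')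
          (fun l => by
            have h2 := h1 l
            rw [show kp (w T') - 3 + 6 = kp (w T') + 3 by omega] at h2
            exact mem_cl_symm ((mem_gt.1 (hP _ (hw1 T' hT')).1).1 l) h2)
        rw [hw2 T hT, hw2 T' hT'] at this
        exact hne this
      · have h1 := hcon (kp (w T) - 3) le_rfl (by omega)
        have := tri _ (hw1 T' hT') _ (hw1 T hT) b' hb'V hle (hcell T' hT') (hcell T hT)
          (fun l => by
            have h2 := h1 l
            rw [show kp (w T) - 3 + 6 = kp (w T) + 3 by omega] at h2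
            exact h2)
        rw [hw2 T hT, hw2 T' hT'] at this
        exact hne this.symm
  -- summation
  have h1 : #P = ∑ T ∈ P.image Tr, #(P.filter (fun p => Tr p = T)) :=
    card_eq_sum_card_image Tr P
  have h2 : ∑ T ∈ P.image Tr, #T.2.2 =
      ∑ b' ∈ tup V n, #((P.image Tr).filter (fun T => b' ∈ T.2.2)) := by
    have e1 : ∀ T ∈ P.image Tr, #T.2.2 = ∑ b' ∈ tup V n, if b' ∈ T.2.2 then 1 else 0 := by
      intro T hT
      obtain ⟨p, _, rfl⟩ := mem_image.1 hT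
      rw [← card_filter]
      congr 1
      ext b'
      rw [mem_filter]
      exact ⟨fun hh => ⟨imb_mem_tup.2 (imb_mem_cell.1 hh).1, hh⟩, fun hh => hh.2⟩
    rw [sum_congr rfl e1, sum_comm]
    apply sum_congr rfl
    intro b' _
    rw [← card_filter]
  calc f * #P = ∑ T ∈ P.image Tr, f * #(P.filter (fun p => Tr p = T)) := by
        rw [h1, mul_sum]
    _ ≤ ∑ T ∈ P.image Tr, N * #T.2.2 := sum_le_sum hfib
    _ = N * ∑ b' ∈ tup V n, #((P.image Tr).filter (fun T => b' ∈ T.2.2)) := by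
        rw [← mul_sum, h2]
    _ ≤ N * ∑ b' ∈ tup V n, N := Nat.mul_le_mul_left _ (sum_le_sum hthr)
    _ = N ^ 2 * #V ^ n := by rw [sum_const, imb_card_tup, smul_eq_mul]; ring

/-! ## U1 -/

lemma imb_cell_le {n : ℕ} (k : ℕ) (a : Fin n → ℕ) : #(cell V r k a) ≤ ∏ l, #(cl V r (k+3) (a l)) := by
  rw [← Fintype.card_piFinset]
  apply card_le_card
  intro b hb
  rw [Fintype.mem_piFinset]
  exact (imb_mem_cell.1 hb).2.1

lemma imb_stt_sums_near {n k : ℕ} {a b : Fin n → ℕ} (ha : ∀ l, a l ∈ V) (hb : ∀ l, b l ∈ V)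
    (h : |sm a - sm b| ≤ r k) :
    stt (sums V n) (r k) (∑ i, a i) = stt (sums V n) (r k) (∑ i, b i) := by
  have h1 : sm a = ((∑ i, a i : ℕ) : ℤ) := by unfold sm; push_cast; rfl
  have h2 : sm b = ((∑ i, b i : ℕ) : ℤ) := by unfold sm; push_cast; rfl
  rw [h1, h2, abs_le] at h
  rcases Nat.le_total (∑ i, a i) (∑ i, b i) with hab | hab
  · exact stt_eq_of_near _ (imb_mem_sums ha) (imb_mem_sums hb) hab (by omega)
  · exact (stt_eq_of_near _ (imb_mem_sums hb) (imb_mem_sums ha) hab (by omega)).symm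

lemma imb_cell_ge (hG : Gr V r t m) {n : ℕ} (hn : n ≤ m) {k : ℕ} {a : Fin n → ℕ}
    (ha : ∀ l, a l ∈ V) : ∏ l, #(cl V r k (a l)) ≤ #(cell V r (k+1) a) := by
  rw [← Fintype.card_piFinset]
  apply card_le_card
  intro b hb
  rw [Fintype.mem_piFinset] at hb
  have hbV : ∀ i, b i ∈ V := fun i => cl_sub _ _ (hb i)
  refine imb_mem_cell.2 ⟨hbV, fun i => cl_mono hG.rmono (by omega) (hb i), ?_⟩
  apply imb_stt_sums_near hbV ha
  refine (sm_diff hG hn ha hb).trans ?_
  have h1 := hG.lin (show k < k+1 by omega)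
  have h2 : (0:ℤ) ≤ m * (t * r k) := by positivity
  have h3 : (0:ℤ) ≤ m * r k := by positivity
  have h4 : (0:ℤ) ≤ t * r k := by positivity
  have h5 : (0:ℤ) ≤ r k := by positivity
  linarith

lemma imb_pow_succ_le_two {y : ℕ} : ∀ j : ℕ, 2*j ≤ y → (y+1)^j * y ≤ y^j * (y + 2*j) := by
  intro j
  induction j with
  | zero => intro _; simp
  | succ j ih =>
    intro hj
    have h1 := ih (by omega)
    calc (y+1)^(j+1) * y = (y+1) * ((y+1)^j * y) := by ring
      _ ≤ (y+1) * (y^j * (y+2*j)) := Nat.mul_le_mul_left _ h1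
      _ = y^j * ((y+1) * (y+2*j)) := by ring
      _ ≤ y^j * (y * (y + 2*(j+1))) := Nat.mul_le_mul_left _ (by nlinarith)
      _ = y^(j+1) * (y + 2*(j+1)) := by ring

theorem U1 (hG : Gr V r t m) {y f z n : ℕ} (hn : n ≤ m) (hz : 2 ≤ z) (hyz : 4*f^2*z ≤ y) (hf : 1 ≤ f)
    (hyn : 2*n ≤ y) {a b : Fin n → ℕ} (ha : a ∈ gt V r y n) (hb : b ∈ gt V r y n)
    (hab : ∀ k, 3 ≤ k → #(cell V r k a) ≤ f * #(cell V r k b) ∧ #(cell V r k b) ≤ f * #(cell V r k a))
    {i : Fin n} {k : ℕ} (hbig : Big V r y k (b i)) :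
    ∃ j, z * #(cl V r k (a j)) ≤ #(cl V r (k+12) (a j)) := by
  classical
  unfold gt at ha hb
  rw [Finset.mem_filter, imb_mem_tup] at ha hb
  obtain ⟨haV, haT1, -⟩ := ha
  obtain ⟨hbV, -, hbT2⟩ := hb
  have hf2 : 1 ≤ f^2 := Nat.one_le_pow _ _ hf
  have hy8 : 8 ≤ y := by nlinarith
  have hpos : ∀ e (l : Fin n), 0 < #(cl V r e (a l)) := fun e l =>
    card_pos.2 ⟨a l, self_mem_cl (haV l)⟩
  have hposb : ∀ e (l : Fin n), 0 < #(cl V r e (b l)) := fun e l =>
    card_pos.2 ⟨b l, self_mem_cl (hbV l)⟩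
  have hbig' : y * #(cl V r (k+4) (b i)) ≤ #(cl V r (k+8) (b i)) := hbig
  -- `k > 12`
  have hk : 12 < k := by
    by_contra hk
    have h1 := ccl_mono hG (show k+8 ≤ 20 by omega) (b i)
    have h2 := hbT2 i
    have h3 := hposb (k+4) i
    nlinarith
  -- choose the component
  obtain ⟨j, hj⟩ : ∃ j : Fin n, ∀ l, l ≠ j → ¬ Jump V r y k (a l) := by
    by_cases hex : ∃ j, Jump V r y k (a j)
    · obtain ⟨j, hj⟩ := hex
      exact ⟨j, fun l hl hc => hl (haT1 k _ _ hc hj)⟩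
    · push Not at hex
      exact ⟨i, fun l _ => hex l⟩
  refine ⟨j, ?_⟩
  -- growth for `b`
  have g1 : y * #(cell V r (k+1) b) ≤ #(cell V r (k+9) b) := by
    calc y * #(cell V r (k+1) b) ≤ y * ∏ l, #(cl V r (k+4) (b l)) :=
          Nat.mul_le_mul_left _ (imb_cell_le _ _)
      _ = (y * #(cl V r (k+4) (b i))) * ∏ l ∈ univ.erase i, #(cl V r (k+4) (b l)) := by
          rw [← mul_prod_erase univ _ (mem_univ i)]; ring
      _ ≤ #(cl V r (k+8) (b i)) * ∏ l ∈ univ.erase i, #(cl V r (k+8) (b l)) := by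
          apply Nat.mul_le_mul hbig'
          apply prod_le_prod'
          intro l _
          exact ccl_mono hG (by omega) _
      _ = ∏ l, #(cl V r (k+8) (b l)) :=
          mul_prod_erase univ (fun l => #(cl V r (k+8) (b l))) (mem_univ i)
      _ ≤ _ := imb_cell_ge hG hn hbV
  have g2 : y * #(cell V r (k+1) a) ≤ f ^ 2 * #(cell V r (k+9) a) := by
    calc y * #(cell V r (k+1) a) ≤ y * (f * #(cell V r (k+1) b)) :=
          Nat.mul_le_mul_left _ (hab (k+1) (by omega)).1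
      _ = f * (y * #(cell V r (k+1) b)) := by ring
      _ ≤ f * #(cell V r (k+9) b) := Nat.mul_le_mul_left _ g1
      _ ≤ f * (f * #(cell V r (k+9) a)) := Nat.mul_le_mul_left _ (hab (k+9) (by omega)).2
      _ = _ := by ring
  have g3 : y * ∏ l, #(cl V r k (a l)) ≤ f ^ 2 * ∏ l, #(cl V r (k+12) (a l)) :=
    (Nat.mul_le_mul_left _ (imb_cell_ge hG hn haV)).trans
        (g2.trans (Nat.mul_le_mul_left _ (imb_cell_le _ _)))
  have g4 : y ^ (n - 1) * ∏ l ∈ univ.erase j, #(cl V r (k+12) (a l)) ≤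
      (y + 1) ^ (n - 1) * ∏ l ∈ univ.erase j, #(cl V r k (a l)) := by
    have e1 : #(univ.erase j : Finset (Fin n)) = n - 1 := by
      rw [card_erase_of_mem (mem_univ j), card_univ, Fintype.card_fin]
    rw [← e1, ← prod_const, ← prod_const, ← prod_mul_distrib, ← prod_mul_distrib]
    apply prod_le_prod'
    intro l hl
    have := hj l (ne_of_mem_erase hl)
    unfold Jump at this
    omega
  set R := ∏ l ∈ univ.erase j, #(cl V r k (a l)) with hR
  have hRpos : 0 < R := prod_pos (fun l _ => hpos _ l)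
  rw [← mul_prod_erase univ _ (mem_univ j), ← mul_prod_erase univ _ (mem_univ j)] at g3
  have hypow : (y+1)^(n-1) ≤ 2 * y^(n-1) := by
    have h1 := imb_pow_succ_le_two (y := y) (n-1) (by omega)
    have h2 : y^(n-1) * (y + 2*(n-1)) ≤ y^(n-1) * (2*y) := Nat.mul_le_mul_left _ (by omega)
    have h3 : (y+1)^(n-1) * y ≤ (2 * y^(n-1)) * y := by
      calc (y+1)^(n-1) * y ≤ y^(n-1) * (2*y) := h1.trans h2
        _ = _ := by ring
    exact Nat.le_of_mul_le_mul_right h3 (by omega)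
  have hyp : 0 < y ^ (n - 1) := Nat.pow_pos (by omega)
  have g5 : (y ^ (n - 1) * R) * (y * #(cl V r k (a j))) ≤
      (y ^ (n - 1) * R) * (2 * f ^ 2 * #(cl V r (k+12) (a j))) := by
    calc (y ^ (n - 1) * R) * (y * #(cl V r k (a j)))
        = y ^ (n - 1) * (y * (#(cl V r k (a j)) * R)) := by ring
      _ ≤ y ^ (n - 1) * (f ^ 2 * (#(cl V r (k+12) (a j)) *
            ∏ l ∈ univ.erase j, #(cl V r (k+12) (a l)))) := Nat.mul_le_mul_left _ g3
      _ = (f ^ 2 * #(cl V r (k+12) (a j))) *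
            (y ^ (n - 1) * ∏ l ∈ univ.erase j, #(cl V r (k+12) (a l))) := by ring
      _ ≤ (f ^ 2 * #(cl V r (k+12) (a j))) * ((y + 1) ^ (n - 1) * R) :=
          Nat.mul_le_mul_left _ g4
      _ ≤ (f ^ 2 * #(cl V r (k+12) (a j))) * ((2 * y ^ (n - 1)) * R) := by gcongr
      _ = _ := by ring
  have g6 : y * #(cl V r k (a j)) ≤ 2 * f ^ 2 * #(cl V r (k+12) (a j)) :=
    Nat.le_of_mul_le_mul_left g5 (Nat.mul_pos hyp hRpos)
  have g7 : (2*f^2) * (2 * z * #(cl V r k (a j))) ≤ (2*f^2) * #(cl V r (k+12) (a j)) := by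
    calc (2*f^2) * (2 * z * #(cl V r k (a j))) = (4*f^2*z) * #(cl V r k (a j)) := by ring
      _ ≤ y * #(cl V r k (a j)) := Nat.mul_le_mul_right _ hyz
      _ ≤ _ := g6
  have g8 := Nat.le_of_mul_le_mul_left g7 (by omega)
  calc z * #(cl V r k (a j)) ≤ 2 * z * #(cl V r k (a j)) := by
        apply Nat.mul_le_mul_right; omega
    _ ≤ _ := g8

end Pool.Agent.DigitA
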