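import Mathlib
import Pool.Agent.DigitA.Defs
import Pool.Agent.DigitA.Cl
import Pool.Agent.DigitA.Diff
import Pool.Agent.DigitA.Imb

open Finset

namespace Pool.Agent.DigitA

open Pool.Agent.SqrtDC

variable {V : Finset ℕ} {r : ℕ → ℕ} {t m : ℕ}

/-- the elements of the tuple without the component `i` -/
lemma so_sm_succAbove {n : ℕ} (a : Fin (n+1) → ℕ) (i : Fin (n+1)) :
    sm (fun l => a (i.succAbove l)) = sm a - a i := by
  unfold sm
  rw [Fin.sum_univ_succAbove (fun l => (a l : ℤ)) i]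
  ring

lemma Gr.so_four (hG : Gr V r t (m+1)) (k : ℕ) : 4 * (m+1)^2 * r 1 < r (k+2) := by
  have h0 : 1 ≤ r 1 := hG.pos.trans (hG.rmono (Nat.zero_le 1))
  have h1 : 100 * (m+1+1)^2 * (t+1)^(m+1+1) * r 1 ≤ r 2 := hG.step 1
  have h2 : r 2 ≤ r (k+2) := hG.rmono (by omega)
  have h3 : 1 ≤ (t+1)^(m+1+1) := Nat.one_le_pow _ _ (by omega)
  have h4 : 100 * (m+1+1)^2 * r 1 ≤ 100 * (m+1+1)^2 * (t+1)^(m+1+1) * r 1 := by
    have : 100 * (m+1+1)^2 * 1 ≤ 100 * (m+1+1)^2 * (t+1)^(m+1+1) :=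
      Nat.mul_le_mul_left _ h3
    have := Nat.mul_le_mul_right (r 1) this
    simpa using this
  have h5 : 4 * (m+1)^2 * r 1 < 100 * (m+1+1)^2 * r 1 := by
    apply Nat.mul_lt_mul_of_pos_right _ h0
    have : (m+1)^2 ≤ (m+1+1)^2 := Nat.pow_le_pow_left (by omega) 2
    have : 0 < (m+1+1)^2 := by positivity
    omega
  exact lt_of_lt_of_le h5 (h4.trans (h1.trans h2))

/-- Claim A -/
theorem claimA (hG : Gr V r t (m+1)) {y f : ℕ} (hy : 2 ≤ y) {v : Fin (m+1) → ℕ}
    (hgood : Good V r y f m v) {a b : Fin (m+1) → ℕ} (ha : ∀ i, a i ∈ V) (hb : ∀ i, b i ∈ V)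
    (hav : |sm a - sm v| ≤ ((m+1)^2 * r 1 : ℕ)) (hbv : |sm b - sm v| ≤ ((m+1)^2 * r 1 : ℕ))
    {i j : Fin (m+1)} (hL : ∀ k, Big V r y k (a i) ↔ Big V r y k (b j)) : a i = b j := by
  by_contra hne
  obtain ⟨hT1a, hT2a⟩ := hgood.g0 a ha hav
  obtain ⟨hT1b, hT2b⟩ := hgood.g0 b hb hbv
  have h20 : a i ∉ cl V r 20 (b j) := by
    intro h
    have h1 := Finset.card_le_one.mp (hT2b j) (a i) h (b j) (self_mem_cl (hb j))
    exact hne h1
  obtain ⟨K₀, hK₀⟩ := cl_top hG
  have hex : ∃ K, a i ∈ cl V r K (b j) := ⟨K₀, by rw [hK₀ K₀ le_rfl (b j) (hb j)]; exact ha i⟩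
  classical
  obtain ⟨K, hK1, hK2⟩ : ∃ K, a i ∈ cl V r K (b j) ∧ ∀ K' < K, a i ∉ cl V r K' (b j) :=
    ⟨Nat.find hex, Nat.find_spec hex, fun K' h => Nat.find_min hex h⟩
  have hK20 : 20 < K := by
    by_contra h
    push Not at h
    exact h20 (cl_mono hG.rmono h hK1)
  obtain ⟨k, rfl⟩ : ∃ k, K = k + 7 := ⟨K - 7, by omega⟩
  have hsame : a i ∈ cl V r (k+7) (b j) := hK1
  have hdiff : a i ∉ cl V r (k+6) (b j) := hK2 _ (by omega)
  have hsym : ∀ k', a i ∈ cl V r k' (b j) ↔ b j ∈ cl V r k' (a i) := by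
    intro k'
    rw [mem_cl, mem_cl]
    constructor
    · rintro ⟨_, h⟩; exact ⟨hb j, h.symm⟩
    · rintro ⟨_, h⟩; exact ⟨ha i, h.symm⟩
  have h8 : a i ∈ cl V r (k+8) (b j) := cl_mono hG.rmono (by omega) hsame
  have h4 : a i ∉ cl V r (k+4) (b j) := fun h => hdiff (cl_mono hG.rmono (by omega) h)
  have hJb : Jump V r y k (b j) := by
    by_contra hJ
    have hbig : Big V r y k (a i) := L1 hG (by omega) (by omega) (hb j) h8 h4 hJ
    exact hJ (Big.jump hG hy (hb j) ((hL k).mp hbig))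
  have hJa : Jump V r y k (a i) := by
    by_contra hJ
    have hbig : Big V r y k (b j) := L1 hG (by omega) (by omega) (ha i) ((hsym _).mp h8)
      (fun h => h4 ((hsym _).mpr h)) hJ
    exact hJ (Big.jump hG hy (ha i) ((hL k).mpr hbig))
  -- both jump
  have hdl : (r (k+6) : ℤ) < |(a i : ℤ) - b j| := by
    by_contra h
    push Not at h
    exact hdiff (mem_cl_of_near (ha i) (hb j) h)
  have hdu : |(a i : ℤ) - b j| ≤ t * r (k+7) := dist_of_mem_cl hG.card (hb j) hsame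
  have hEv : Ev V r y m (sm (fun l => a (i.succAbove l))) k := by
    refine ⟨fun l => b (j.succAbove l), fun l => hb _, ?_, ?_, ?_, ?_⟩
    · intro k' l l' h1 h2
      exact Fin.succAbove_right_injective (hT1b k' _ _ h1 h2)
    · intro l h
      exact Fin.succAbove_ne j l (hT1b k _ _ h hJb)
    · rw [so_sm_succAbove, so_sm_succAbove]
      have h1 := hG.so_four (k+4)
      have h2 : (4 * (m+1)^2 * r 1 : ℕ) < (r (k+6) : ℤ) := by exact_mod_cast h1
      push_cast at h2 hav hbv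
      rw [abs_le] at hav hbv
      rcases le_total 0 ((a i : ℤ) - b j) with h | h
      · rw [abs_of_nonneg h] at hdl
        have : sm b - (b j : ℤ) - (sm a - a i) ≤ |sm b - (b j : ℤ) - (sm a - a i)| := le_abs_self _
        linarith
      · rw [abs_of_nonpos h] at hdl
        have : -(sm b - (b j : ℤ) - (sm a - a i)) ≤ |sm b - (b j : ℤ) - (sm a - a i)| :=
          neg_le_abs _
        linarith
    · rw [so_sm_succAbove, so_sm_succAbove]
      have h1 : 4 * (m+1)^2 * r 1 < r (k+7) := hG.so_four (k+5)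
      have h2 : (4 * (m+1)^2 * r 1 : ℕ) < (r (k+7) : ℤ) := by exact_mod_cast h1
      have h3 : 100 * (m+1+1)^2 * (t+1)^(m+1+1) * r (k+7) ≤ r (k+8) := hG.step (k+7)
      have h4 : 2 * (t * r (k+7)) + r (k+7) ≤ r (k+8) := by
        refine le_trans ?_ h3
        have h5 : (t+1)^1 ≤ (t+1)^(m+1+1) := Nat.pow_le_pow_right (by omega) (by omega)
        have h6 : 2 * (t+1) ≤ 100 * (m+1+1)^2 * (t+1)^(m+1+1) := by
          have : 2 ≤ 100 * (m+1+1)^2 := by
            have : 0 < (m+1+1)^2 := by positivity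
            omega
          calc 2 * (t+1) ≤ 100 * (m+1+1)^2 * (t+1) := Nat.mul_le_mul_right _ this
            _ ≤ _ := Nat.mul_le_mul_left _ (by simpa using h5)
        have h7 := Nat.mul_le_mul_right (r (k+7)) h6
        have h8 : 2 * (t+1) * r (k+7) = 2 * (t * r (k+7)) + 2 * r (k+7) := by ring
        omega
      have h4' : (2 * (t * r (k+7)) + r (k+7) : ℤ) ≤ r (k+8) := by exact_mod_cast h4
      push_cast at h2 hav hbv
      rw [abs_le] at hav hbv hdu
      have : |sm b - (b j : ℤ) - (sm a - a i)| ≤ t * r (k+7) + 2 * ((m+1)^2 * r 1) := by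
        rw [abs_le]
        constructor <;> linarith
      linarith
  exact hgood.g2 a ha hav i k hEv hJa

/-- elements generated by the sources in `T` -/
def so_WT (V : Finset ℕ) (e : ℕ) {m : ℕ} (v : Fin (m+1) → ℕ) (T : Finset ℕ) (u : ℕ) : Prop :=
  ∃ a : Fin (m+1) → ℕ, (∀ l, a l ∈ V) ∧ (∀ l : Fin (m+1), (l : ℕ) ∉ T → a l = v l) ∧
    |sm a - sm v| ≤ ((#T)^2 * e : ℕ) ∧ ∃ i : Fin (m+1), (i : ℕ) ∈ T ∧ a i = u

lemma so_WT.mono {e : ℕ} {v : Fin (m+1) → ℕ} {T T' : Finset ℕ} (h : T ⊆ T') {u : ℕ}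
    (hu : so_WT V e v T u) : so_WT V e v T' u := by
  obtain ⟨a, ha, hoff, hs, i, hi, hiu⟩ := hu
  refine ⟨a, ha, fun l hl => hoff l (fun h' => hl (h h')), ?_, i, h hi, hiu⟩
  refine hs.trans ?_
  have : (#T)^2 * e ≤ (#T')^2 * e :=
    Nat.mul_le_mul_right _ (Nat.pow_le_pow_left (Finset.card_le_card h) 2)
  exact_mod_cast this

lemma so_WT.mem {e : ℕ} {v : Fin (m+1) → ℕ} {T : Finset ℕ} {u : ℕ}
    (hu : so_WT V e v T u) : u ∈ V := by
  obtain ⟨a, ha, hoff, hs, i, hi, hiu⟩ := hu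
  rw [← hiu]; exact ha i

/-- unpack an element generated by sources in `T ⊆ range (m+1)` -/
lemma so_WT.get {e : ℕ} {v : Fin (m+1) → ℕ} {T : Finset ℕ} (hT : T ⊆ range (m+1)) {u : ℕ}
    (hu : so_WT V e v T u) : ∃ a : Fin (m+1) → ℕ, (∀ l, a l ∈ V) ∧
      (∀ l : Fin (m+1), (l : ℕ) ∉ T → a l = v l) ∧
      |sm a - sm v| ≤ ((m+1)^2 * e : ℕ) ∧ ∃ i : Fin (m+1), (i : ℕ) ∈ T ∧ a i = u := by
  obtain ⟨a, ha, hoff, hs, i, hi, hiu⟩ := hu
  refine ⟨a, ha, hoff, hs.trans ?_, i, hi, hiu⟩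
  have h1 : #T ≤ m+1 := by simpa using Finset.card_le_card hT
  have : (#T)^2 * e ≤ (m+1)^2 * e := Nat.mul_le_mul_right _ (Nat.pow_le_pow_left h1 2)
  exact_mod_cast this

/-- closure of the generated elements under near sums -/
lemma so_WT.clos {e : ℕ} {v : Fin (m+1) → ℕ} {T T' : Finset ℕ} (hTT : Disjoint T T') {w w' u u' : ℕ}
    (hw : so_WT V e v T w) (hw' : so_WT V e v T' w') (hu : u ∈ V) (hu' : u' ∈ V)
    (hn : |(u : ℤ) + u' - w - w'| ≤ e) :
    so_WT V e v (T ∪ T') u ∧ so_WT V e v (T ∪ T') u' := by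
  classical
  obtain ⟨a, ha, hoff, hs, i, hi, hiu⟩ := hw
  obtain ⟨a', ha', hoff', hs', i', hi', hiu'⟩ := hw'
  have hii : i ≠ i' := by
    rintro rfl
    exact Finset.disjoint_left.mp hTT hi hi'
  -- the combined tuple
  let c : Fin (m+1) → ℕ := fun l => if l = i then u else if l = i' then u' else
    if (l : ℕ) ∈ T then a l else a' l
  have hc : ∀ l, c l ∈ V := by
    intro l
    simp only [c]
    split_ifs
    · exact hu
    · exact hu'
    · exact ha l
    · exact ha' l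
  have hci : c i = u := by simp [c]
  have hci' : c i' = u' := by simp [c, hii.symm]
  have hcoff : ∀ l : Fin (m+1), (l : ℕ) ∉ T ∪ T' → c l = v l := by
    intro l hl
    rw [Finset.mem_union, not_or] at hl
    have h1 : l ≠ i := by rintro rfl; exact hl.1 hi
    have h2 : l ≠ i' := by rintro rfl; exact hl.2 hi'
    simp only [c, h1, h2, hl.1, if_false]
    exact hoff' l hl.2
  have hsum : sm c - sm v = (sm a - sm v) + (sm a' - sm v) + ((u : ℤ) + u' - w - w') := by
    have key : ∀ l : Fin (m+1), (c l : ℤ) - v l = ((a l : ℤ) - v l) + ((a' l : ℤ) - v l) +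
        ((if l = i then (u : ℤ) - w else 0) + (if l = i' then (u' : ℤ) - w' else 0)) := by
      intro l
      by_cases h1 : l = i
      · subst h1
        have h3 : (l : ℕ) ∉ T' := fun h => Finset.disjoint_left.mp hTT hi h
        rw [hoff' l h3, hci, hiu]
        simp [hii]
      · by_cases h2 : l = i'
        · subst h2
          have h3 : (l : ℕ) ∉ T := fun h => Finset.disjoint_left.mp hTT h hi'
          rw [hoff l h3, hci', hiu']
          simp [h1]
        · by_cases h3 : (l : ℕ) ∈ T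
          · have h4 : (l : ℕ) ∉ T' := fun h => Finset.disjoint_left.mp hTT h3 h
            have h5 : c l = a l := by simp [c, h1, h2, h3]
            rw [h5, hoff' l h4]
            simp [h1, h2]
          · have h5 : c l = a' l := by simp [c, h1, h2, h3]
            rw [h5, hoff l h3]
            simp [h1, h2]
    have h0 : sm c - sm v = ∑ l, ((c l : ℤ) - v l) := by
      unfold sm; rw [Finset.sum_sub_distrib]
    have h0a : sm a - sm v = ∑ l, ((a l : ℤ) - v l) := by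
      unfold sm; rw [Finset.sum_sub_distrib]
    have h0a' : sm a' - sm v = ∑ l, ((a' l : ℤ) - v l) := by
      unfold sm; rw [Finset.sum_sub_distrib]
    rw [h0, h0a, h0a', Finset.sum_congr rfl (fun l _ => key l), Finset.sum_add_distrib,
      Finset.sum_add_distrib, Finset.sum_add_distrib, Finset.sum_ite_eq', Finset.sum_ite_eq']
    simp only [Finset.mem_univ, if_true]
    ring
  have hbound : |sm c - sm v| ≤ ((#(T ∪ T'))^2 * e : ℕ) := by
    rw [hsum]
    have hT1 : 1 ≤ #T := Finset.card_pos.mpr ⟨_, hi⟩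
    have hT1' : 1 ≤ #T' := Finset.card_pos.mpr ⟨_, hi'⟩
    rw [Finset.card_union_of_disjoint hTT]
    have h1 : (#T)^2 * e + (#T')^2 * e + e ≤ (#T + #T')^2 * e := by
      have : (#T)^2 + (#T')^2 + 1 ≤ (#T + #T')^2 := by nlinarith
      have := Nat.mul_le_mul_right e this
      nlinarith
    have h1' : (((#T)^2 * e : ℕ) : ℤ) + ((#T')^2 * e : ℕ) + e ≤ (((#T + #T')^2 * e : ℕ) : ℤ) := by
      exact_mod_cast h1
    have h2 := abs_add_three (sm a - sm v) (sm a' - sm v) ((u : ℤ) + u' - w - w')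
    linarith
  exact ⟨⟨c, hc, hcoff, hbound, i, Finset.mem_union_left _ hi, hci⟩,
    ⟨c, hc, hcoff, hbound, i', Finset.mem_union_right _ hi', hci'⟩⟩

/-- levels at which the source `x` makes a large jump -/
def so_LL (V : Finset ℕ) (r : ℕ → ℕ) (z K x : ℕ) : Finset ℕ :=
  (range K).filter (fun k => z * #(cl V r k x) ≤ #(cl V r (k+12) x))

/-- rank in a finset -/
def so_rk (s : Finset ℕ) (k : ℕ) : ℕ := #(s.filter (fun k' => k' < k))

lemma so_rk_lt {s : Finset ℕ} {k : ℕ} (hk : k ∈ s) : so_rk s k < #s := by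
  unfold so_rk
  apply Finset.card_lt_card
  rw [Finset.ssubset_iff_of_subset (Finset.filter_subset _ _)]
  exact ⟨k, hk, by simp⟩

lemma so_rk_inj {s : Finset ℕ} {k k' : ℕ} (hk : k ∈ s) (hk' : k' ∈ s) (h : so_rk s k = so_rk s k') :
    k = k' := by
  by_contra hne
  have key : ∀ a b, a ∈ s → a < b → so_rk s a < so_rk s b := by
    intro a b ha hab
    unfold so_rk
    apply Finset.card_lt_card
    rw [Finset.ssubset_iff_of_subset]
    · exact ⟨a, by simp [ha, hab], by simp⟩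
    · intro x hx
      rw [Finset.mem_filter] at hx ⊢
      exact ⟨hx.1, by omega⟩
  rcases lt_or_gt_of_ne hne with h1 | h1
  · have := key _ _ hk h1; omega
  · have := key _ _ hk' h1; omega

/-- the letter of `w` at a source whose large jumps are the levels in `s` -/
def so_letter (V : Finset ℕ) (r : ℕ → ℕ) (y n : ℕ) (s : Finset ℕ) (w : ℕ) : Finset (Fin n) :=
  Finset.univ.filter (fun x => ∃ k ∈ s, Big V r y k w ∧ so_rk s k = x)

lemma so_letter_ne {y n : ℕ} {s : Finset ℕ} {w : ℕ} (h : so_letter V r y n s w ≠ ∅) :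
    ∃ k ∈ s, Big V r y k w := by
  obtain ⟨x, hx⟩ := Finset.nonempty_iff_ne_empty.mpr h
  rw [so_letter, Finset.mem_filter] at hx
  obtain ⟨_, k, hk, hb, _⟩ := hx
  exact ⟨k, hk, hb⟩

lemma so_letter_eq {y n : ℕ} {s : Finset ℕ} (hs : #s ≤ n) {w w' : ℕ}
    (h : so_letter V r y n s w = so_letter V r y n s w') {k : ℕ} (hk : k ∈ s) (hb : Big V r y k w) :
    Big V r y k w' := by
  have hx : (⟨so_rk s k, lt_of_lt_of_le (so_rk_lt hk) hs⟩ : Fin n) ∈ so_letter V r y n s w := by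
    rw [so_letter, Finset.mem_filter]
    exact ⟨Finset.mem_univ _, k, hk, hb, rfl⟩
  rw [h, so_letter, Finset.mem_filter] at hx
  obtain ⟨_, k', hk', hb', hr⟩ := hx
  have := so_rk_inj hk hk' hr.symm
  rw [this]; exact hb'

lemma so_mem_tup {n : ℕ} {a : Fin n → ℕ} : a ∈ tup V n ↔ ∀ i, a i ∈ V := by
  unfold tup
  rw [Fintype.mem_piFinset]

lemma so_mem_gt {y n : ℕ} {a : Fin n → ℕ} :
    a ∈ gt V r y n ↔ (∀ i, a i ∈ V) ∧ T1 V r y a ∧ T2 V r a := by
  classical
  unfold gt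
  rw [Finset.mem_filter, so_mem_tup]

theorem sys_of_good (hG : Gr V r t (m+1)) {p A A' y f z X : ℕ} [Fact p.Prime] (hy : 2 ≤ y)
    (hty : t < y^(A+1)) (hz : 2 ≤ z) (hyz : 4*f^2*z ≤ y) (hf : 1 ≤ f) (hym : 2*(m+1) ≤ y)
    (htz : t < z^(A'+1)) (F : ℕ → ZMod p) (hF : ∀ v ∈ V, F v ≠ 0)
    {v : Fin (m+1) → ℕ} (hgood : Good V r y f m v)
    (hX : ∀ i, 2*(m+1) * v i + 2*(m+1)^2 * r 1 ≤ X)
    (hN1 : ∀ σ, r 2 ≤ σ → σ ≤ X → ∃ α β : ℕ, α ≤ σ ∧ σ ≤ β ∧ σ ≤ α + r 1 ∧ β ≤ σ + r 1 ∧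
      ∑ x ∈ (V ×ˢ V).filter (fun x => α ≤ x.1 + x.2 ∧ x.1 + x.2 ≤ β), F x.1 * F x.2 = 0) :
    Nonempty (Sys (ZMod p) (Finset (Fin (12*A'))) (m+1) (4*A)) := by
  classical
  have hr1 : 1 ≤ r 1 := hG.pos.trans (hG.rmono (Nat.zero_le 1))
  have hvv : |sm v - sm v| ≤ ((m+1)^2 * r 1 : ℕ) := by
    rw [sub_self, abs_zero]; exact Int.natCast_nonneg _
  obtain ⟨K, hK⟩ := cl_top hG
  -- large levels of the sources
  set L : ℕ → Finset ℕ := fun j => if h : j < m+1 then so_LL V r z K (v ⟨j, h⟩) else ∅ with hLdef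
  have hLj : ∀ j : Fin (m+1), L j = so_LL V r z K (v j) := by
    intro j
    simp only [hLdef, j.isLt, dif_pos]
  have hLcard : ∀ j, #(L j) ≤ 12*A' := by
    intro j
    by_cases h : j < m+1
    · simp only [hLdef, h, dif_pos]
      apply count_LL hG hz htz (hgood.mem ⟨j, h⟩)
      intro k hk
      rw [so_LL, Finset.mem_filter] at hk
      exact hk.2
    · simp only [hLdef, h, dif_neg, not_false_eq_true, Finset.card_empty, Nat.zero_le]
  have hLjump : ∀ j : Fin (m+1), ∀ k ∈ L j, Jump V r y k (v j) := by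
    intro j k hk
    rw [hLj, so_LL, Finset.mem_filter] at hk
    unfold Jump
    calc (y+1) * #(cl V r k (v j)) ≤ (y * z) * #(cl V r k (v j)) :=
          Nat.mul_le_mul_right _ (by nlinarith)
      _ = y * (z * #(cl V r k (v j))) := by ring
      _ ≤ y * #(cl V r (k+12) (v j)) := Nat.mul_le_mul_left _ hk.2
  have hLmem : ∀ j : Fin (m+1), ∀ k, z * #(cl V r k (v j)) ≤ #(cl V r (k+12) (v j)) → k ∈ L j := by
    intro j k hk
    rw [hLj, so_LL, Finset.mem_filter]
    refine ⟨?_, hk⟩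
    rw [Finset.mem_range]
    by_contra hKk
    push Not at hKk
    rw [hK k hKk _ (hgood.mem j), hK (k+12) (by omega) _ (hgood.mem j)] at hk
    have : 0 < #V := Finset.card_pos.mpr ⟨_, hgood.mem j⟩
    nlinarith
  -- the letters
  let code : ℕ → ℕ → Finset (Fin (12*A')) := fun w j => so_letter V r y (12*A') (L j) w
  -- Big levels of generated elements are levels of some source
  have hU : ∀ w, so_WT V (r 1) v (range (m+1)) w → ∀ k, Big V r y k w → ∃ j : Fin (m+1), k ∈ L j := by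
    intro w hw k hk
    obtain ⟨a, ha, hoff, hs, i, hi, hiu⟩ := hw.get (Finset.Subset.refl _)
    obtain ⟨hT1v, hT2v⟩ := hgood.g0 v hgood.mem hvv
    obtain ⟨hT1a, hT2a⟩ := hgood.g0 a ha hs
    rw [← hiu] at hk
    obtain ⟨j, hj⟩ := U1 hG le_rfl hz hyz hf hym (so_mem_gt.mpr ⟨hgood.mem, hT1v, hT2v⟩)
      (so_mem_gt.mpr ⟨ha, hT1a, hT2a⟩) (fun k hk => hgood.g1 a ha hs k hk) hk
    exact ⟨j, hLmem j k hj⟩
  refine ⟨{
    V := V
    F := F
    e := r 1
    W := fun T => V.filter (fun u => so_WT V (r 1) v T u)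
    code := code
    hF := hF
    hWV := fun T => Finset.filter_subset _ _
    hmono := ?_
    hsupp := ?_
    hcard := ?_
    hinj := ?_
    hiso := ?_
    hclos := ?_
    hrel := ?_
    hsrc := ?_ }⟩
  · -- hmono
    intro T T' h u hu
    rw [Finset.mem_filter] at hu ⊢
    exact ⟨hu.1, hu.2.mono h⟩
  · -- hsupp
    intro T hT w hw j hj
    rw [Finset.mem_filter] at hw
    obtain ⟨k, hk, hb⟩ := so_letter_ne hj
    by_contra hjT
    have hjm : j < m+1 := by
      by_contra h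
      simp only [hLdef, h, dif_neg, not_false_eq_true, Finset.notMem_empty] at hk
    obtain ⟨a, ha, hoff, hs, i, hi, hiu⟩ := hw.2.get hT
    obtain ⟨hT1a, hT2a⟩ := hgood.g0 a ha hs
    have h1 := hLjump ⟨j, hjm⟩ k hk
    rw [← hoff ⟨j, hjm⟩ hjT] at h1
    rw [← hiu] at hb
    have h2 := hT1a k i ⟨j, hjm⟩ (Big.jump hG hy (ha i) hb) h1
    rw [h2] at hi
    exact hjT hi
  · -- hcard
    intro w hw
    rw [Finset.mem_filter] at hw
    have h1 : ∀ j ∈ (range (m+1)).filter (fun j => code w j ≠ default),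
        ∃ k ∈ L j, Big V r y k w := fun j hj => so_letter_ne (Finset.mem_filter.mp hj).2
    choose! kk hkk hkb using h1
    obtain ⟨hT1v, hT2v⟩ := hgood.g0 v hgood.mem hvv
    have hinj : Set.InjOn kk ((range (m+1)).filter (fun j => code w j ≠ default)) := by
      intro j hj j' hj' heq
      have hj1 := hj
      have hj1' := hj'
      rw [Finset.mem_coe, Finset.mem_filter, Finset.mem_range] at hj1 hj1'
      have h2 := hLjump ⟨j, hj1.1⟩ (kk j) (hkk j hj)
      have h3 := hLjump ⟨j', hj1'.1⟩ (kk j') (hkk j' hj')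
      rw [heq] at h2
      have := hT1v _ _ _ h2 h3
      simpa using this
    rw [← Finset.card_image_of_injOn hinj]
    apply count_big hG hy hty hw.1 4
    intro k hk
    rw [Finset.mem_image] at hk
    obtain ⟨j, hj, rfl⟩ := hk
    exact hkb j hj
  · -- hinj
    intro w hw w' hw' hc
    rw [Finset.mem_filter] at hw hw'
    obtain ⟨a, ha, hoff, hs, i, hi, hiu⟩ := hw.2.get (Finset.Subset.refl _)
    obtain ⟨b, hb, hoffb, hsb, i', hi', hiu'⟩ := hw'.2.get (Finset.Subset.refl _)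
    rw [← hiu, ← hiu']
    apply claimA hG hy hgood ha hb hs hsb
    intro k
    rw [hiu, hiu']
    constructor
    · intro hk
      obtain ⟨j, hj⟩ := hU w hw.2 k hk
      exact so_letter_eq (hLcard j) (hc j j.isLt) hj hk
    · intro hk
      obtain ⟨j, hj⟩ := hU w' hw'.2 k hk
      exact so_letter_eq (hLcard j) (hc j j.isLt).symm hj hk
  · -- hiso
    intro w hw u hu hne
    rw [Finset.mem_filter] at hw
    obtain ⟨a, ha, hoff, hs, i, hi, hiu⟩ := hw.2.get (Finset.Subset.refl _)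
    obtain ⟨hT1a, hT2a⟩ := hgood.g0 a ha hs
    by_contra hle
    push Not at hle
    apply hne
    have h1 : 4 * r 1 ≤ r 20 := by
      have := hG.so_four 18
      have h2 : 4 * 1 * r 1 ≤ 4 * (m+1)^2 * r 1 :=
        Nat.mul_le_mul_right _ (Nat.mul_le_mul_left _ (Nat.one_le_pow _ _ (by omega)))
      have h3 : r (18+2) = r 20 := rfl
      omega
    have h1' : (4 * r 1 : ℤ) ≤ r 20 := by exact_mod_cast h1
    have h2 : u ∈ cl V r 20 w := mem_cl_of_near hu hw.1 (hle.trans h1')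
    rw [← hiu] at h2 ⊢
    exact Finset.card_le_one.mp (hT2a i) u h2 (a i) (self_mem_cl (ha i))
  · -- hclos
    intro T hT T' hT' hTT w hw w' hw' u hu u' hu' hn
    rw [Finset.mem_filter] at hw hw'
    obtain ⟨h1, h2⟩ := so_WT.clos hTT hw.2 hw'.2 hu hu' hn
    exact ⟨Finset.mem_filter.mpr ⟨hu, h1⟩, Finset.mem_filter.mpr ⟨hu', h2⟩⟩
  · -- hrel
    intro w hw w' hw' hne
    rw [Finset.mem_filter] at hw hw'
    obtain ⟨a, ha, hoff, hs, i, hi, hiu⟩ := hw.2.get (Finset.Subset.refl _)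
    obtain ⟨b, hb, hoffb, hsb, i', hi', hiu'⟩ := hw'.2.get (Finset.Subset.refl _)
    obtain ⟨hT1a, hT2a⟩ := hgood.g0 a ha hs
    -- a maximal source
    obtain ⟨i₀, -, hi₀⟩ := Finset.exists_max_image Finset.univ v ⟨0, Finset.mem_univ _⟩
    have hsv : sm v ≤ (m+1) * v i₀ := by
      unfold sm
      calc ∑ l, (v l : ℤ) ≤ ∑ l : Fin (m+1), (v i₀ : ℤ) :=
            Finset.sum_le_sum (fun l _ => by exact_mod_cast hi₀ l (Finset.mem_univ _))
        _ = (m+1) * v i₀ := by simp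
    have hle : ∀ (c : Fin (m+1) → ℕ) (l : Fin (m+1)), (c l : ℤ) ≤ sm c := by
      intro c l
      unfold sm
      exact Finset.single_le_sum (f := fun l => (c l : ℤ)) (fun l _ => Int.natCast_nonneg _)
        (Finset.mem_univ l)
    have hwa : (w : ℤ) ≤ (m+1) * v i₀ + (m+1)^2 * r 1 := by
      have h1 := hle a i
      rw [hiu] at h1
      push_cast at hs
      rw [abs_le] at hs
      linarith
    have hwb : (w' : ℤ) ≤ (m+1) * v i₀ + (m+1)^2 * r 1 := by
      have h1 := hle b i'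
      rw [hiu'] at h1
      push_cast at hsb
      rw [abs_le] at hsb
      linarith
    have hXX : w + w' ≤ X := by
      have h1 := hX i₀
      have h1' : (2*(m+1) * v i₀ + 2*(m+1)^2 * r 1 : ℤ) ≤ X := by exact_mod_cast h1
      have : (w : ℤ) + w' ≤ X := by linarith
      exact_mod_cast this
    have hr2 : r 2 ≤ w + w' := by
      by_contra hlt
      push Not at hlt
      apply hne
      have h20 : r 2 ≤ r 20 := hG.rmono (by omega)
      have h2 : w' ∈ cl V r 20 w := by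
        apply mem_cl_of_near hw'.1 hw.1
        rw [abs_le]
        constructor <;> omega
      rw [← hiu] at h2 ⊢
      exact (Finset.card_le_one.mp (hT2a i) w' h2 (a i) (self_mem_cl (ha i))).symm
    exact hN1 (w + w') hr2 hXX
  · -- hsrc
    refine ⟨fun j => if h : j < m+1 then v ⟨j, h⟩ else 0, ?_, ?_⟩
    · intro j hj
      beta_reduce
      rw [dif_pos hj, Finset.mem_filter]
      refine ⟨hgood.mem _, v, hgood.mem, fun l _ => rfl, ?_, ⟨j, hj⟩, by simp, rfl⟩
      rw [sub_self, abs_zero]; exact Int.natCast_nonneg _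
    · intro i hi j hj h
      beta_reduce at h
      rw [dif_pos hi, dif_pos hj] at h
      have := hgood.g3 h
      simpa using this

end Pool.Agent.DigitA
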