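import Mathlib
import Pool.Agent.DigitA.Diff

open Finset

namespace Pool.Agent.DigitA

open Pool.Agent.SqrtDC

variable {V : Finset ℕ} {r : ℕ → ℕ} {t m : ℕ}

/-! ## Module Ev -/

theorem ev_card (hG : Gr V r t m) {y A : ℕ} (hy : 2 ≤ y) (hty : t < y^(A+1)) {n : ℕ} (hn : n ≤ m)
    (x : ℤ) (s : Finset ℕ) (hs : ∀ k ∈ s, Ev V r y n x k) :
    #s ≤ 3 * (n^(n*(4*A)) * (1 + n*(4*A))) := by
  classical
  unfold Ev at hs
  choose! z hz0 hz1 hz2 hz3 hz4 using hs
  -- comparable levels
  have key : ∀ k ∈ s, ∀ k' ∈ s, k + 3 ≤ k' → (∀ l, z k l ∈ cl V r (k' + 9) (z k' l)) →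
      ∃ i, y * #(cl V r (k'+5) (z k i)) ≤ #(cl V r (k'+5+4) (z k i)) := by
    intro k hk k' hk' hkk he
    have e1 := hz4 k hk
    have e2 := hz3 k' hk'
    have e3 : (r (k + 8) : ℤ) ≤ r (k' + 5) := by exact_mod_cast hG.rmono (by omega)
    have e4 := hG.lin (show k' + 5 < k' + 6 by omega)
    obtain ⟨i, hi⟩ : ∃ i, z k i ∉ cl V r (k' + 5) (z k' i) := by
      by_contra hcon
      push Not at hcon
      have f1 : |sm (z k) - sm (z k')| ≤ m * (t * r (k' + 5)) :=
        sm_diff hG hn (hz0 k' hk') hcon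
      have f2 : |sm (z k') - x| ≤ |sm (z k) - x| + |sm (z k) - sm (z k')| := by
        rw [show sm (z k') - x = (sm (z k) - x) - (sm (z k) - sm (z k')) by ring]
        exact abs_sub _ _
      have f5 : (0:ℤ) ≤ m * (t * r (k' + 5)) := by positivity
      have f6 : (0:ℤ) ≤ m * r (k' + 5) := by positivity
      have f7 : (0:ℤ) ≤ t * r (k' + 5) := by positivity
      have f8 : (0:ℤ) ≤ r (k' + 5) := by positivity
      linarith
    refine ⟨i, ?_⟩
    exact L1 hG (i := 5) (j := 9) (by omega) (by omega) (hz0 k' hk' i) (he i) hi (hz2 k' hk' i)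
  have kt : ∀ k ∈ s, ∀ k' ∈ s, ∀ k'' ∈ s, k' ≤ k'' →
      (∀ l, z k l ∈ cl V r (k' + 9) (z k' l)) → (∀ l, z k' l ∈ cl V r (k'' + 9) (z k'' l)) →
      (∀ l, z k l ∈ cl V r (k'' + 9) (z k'' l)) := by
    intro k hk k' hk' k'' hk'' h2 h3 h4 l
    exact mem_cl_trans (cl_mono hG.rmono (by omega) (h3 l)) (h4 l)
  -- one residue class
  have hc : ∀ c, #(s.filter (fun k => k % 3 = c)) ≤ n^(n*(4*A)) * (1 + n*(4*A)) := by
    intro c
    set Sc := s.filter (fun k => k % 3 = c) with hSc
    have hsub : ∀ k ∈ Sc, k ∈ s := fun k hk => (mem_filter.1 hk).1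
    have hsep : ∀ k ∈ Sc, ∀ k' ∈ Sc, k < k' → k + 3 ≤ k' := by
      intro k hk k' hk' hlt
      have e1 := (mem_filter.1 hk).2
      have e2 := (mem_filter.1 hk').2
      omega
    set M := Sc.filter (fun k => ∀ k₁ ∈ Sc, k₁ < k →
      ¬ ∀ l, z k₁ l ∈ cl V r (k + 9) (z k l)) with hM
    have hMcard : #M ≤ n^(n*(4*A)) := by
      refine kraft hG hy hty hn M z (fun k => k + 3) x ?_ ?_ ?_ ?_
      · intro k hk; exact hz0 k (hsub k (mem_filter.1 hk).1)
      · intro k hk; exact hz1 k (hsub k (mem_filter.1 hk).1)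
      · intro k hk; exact hz4 k (hsub k (mem_filter.1 hk).1)
      · intro k hk k' hk' hne
        have hk1 := mem_filter.1 hk
        have hk2 := mem_filter.1 hk'
        rcases lt_or_gt_of_ne hne with hlt | hlt
        · have := hk2.2 k hk1.1 hlt
          push Not at this
          exact ⟨k' + 3, by omega, le_rfl, this⟩
        · have := hk1.2 k' hk2.1 hlt
          push Not at this
          obtain ⟨l, hl⟩ := this
          exact ⟨k + 3, le_rfl, by omega, l,
            fun hcc => hl (mem_cl_symm (hz0 k' (hsub k' hk2.1) l) hcc)⟩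
    have hcov : Sc ⊆ M.biUnion (fun k => insert k (univ.biUnion (fun i : Fin n =>
        Sc.filter (fun k' => y * #(cl V r (k'+5) (z k i)) ≤ #(cl V r (k'+5+4) (z k i)))))) := by
      have hstrong : ∀ N k, k ≤ N → k ∈ Sc → ∃ k₁ ∈ M, k₁ ≤ k ∧
          (k₁ < k → ∀ l, z k₁ l ∈ cl V r (k + 9) (z k l)) := by
        intro N
        induction N with
        | zero =>
          intro k hk hkS
          refine ⟨k, ?_, le_rfl, fun hh => absurd hh (lt_irrefl _)⟩
          rw [hM, mem_filter]
          exact ⟨hkS, fun k₁ _ hlt => by omega⟩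
        | succ N ih =>
          intro k hk hkS
          by_cases hmin : ∀ k₁ ∈ Sc, k₁ < k → ¬ ∀ l, z k₁ l ∈ cl V r (k + 9) (z k l)
          · exact ⟨k, by rw [hM, mem_filter]; exact ⟨hkS, hmin⟩, le_rfl,
              fun hh => absurd hh (lt_irrefl _)⟩
          · obtain ⟨k₁, hk₁, hlt, he⟩ : ∃ k₁ ∈ Sc, k₁ < k ∧
                ∀ l, z k₁ l ∈ cl V r (k + 9) (z k l) := by
              by_contra hcc
              apply hmin
              intro k₁ hk₁ hlt he
              exact hcc ⟨k₁, hk₁, hlt, he⟩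
            obtain ⟨k₂, hk₂, hle, he₂⟩ := ih k₁ (by omega) hk₁
            refine ⟨k₂, hk₂, by omega, fun _ => ?_⟩
            rcases hle.lt_or_eq with hl | hl
            · exact kt k₂ (hsub _ (mem_filter.1 hk₂).1) k₁ (hsub _ hk₁) k (hsub _ hkS)
                hlt.le (he₂ hl) he
            · rw [hl]; exact he
      intro k hk
      obtain ⟨k₁, hk₁, hle, he⟩ := hstrong k k le_rfl hk
      rw [mem_biUnion]
      refine ⟨k₁, hk₁, ?_⟩
      rcases hle.lt_or_eq with hl | hl
      · rw [mem_insert]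
        right
        have hk₁S := (mem_filter.1 hk₁).1
        obtain ⟨i, hi⟩ := key k₁ (hsub _ hk₁S) k (hsub _ hk) (hsep _ hk₁S _ hk hl) (he hl)
        simp only [mem_biUnion, mem_univ, true_and, mem_filter]
        exact ⟨i, hk, hi⟩
      · rw [mem_insert]; left; exact hl.symm
    calc #Sc ≤ _ := card_le_card hcov
      _ ≤ ∑ k ∈ M, #(insert k (univ.biUnion (fun i : Fin n =>
        Sc.filter (fun k' => y * #(cl V r (k'+5) (z k i)) ≤ #(cl V r (k'+5+4) (z k i)))))) :=
          card_biUnion_le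
      _ ≤ ∑ k ∈ M, (1 + n * (4 * A)) := by
          apply sum_le_sum
          intro k hk
          have hkS := hsub _ (mem_filter.1 hk).1
          refine (card_insert_le _ _).trans ?_
          rw [add_comm]
          apply Nat.add_le_add_left
          refine card_biUnion_le.trans ?_
          calc ∑ i : Fin n, #(Sc.filter (fun k' =>
                y * #(cl V r (k'+5) (z k i)) ≤ #(cl V r (k'+5+4) (z k i))))
              ≤ ∑ i : Fin n, 4 * A := by
                apply sum_le_sum
                intro i _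
                exact count_big hG hy hty (hz0 k hkS i) 5 _ (fun k' hk' => (mem_filter.1 hk').2)
            _ = n * (4 * A) := by simp
      _ = #M * (1 + n * (4 * A)) := by simp
      _ ≤ _ := Nat.mul_le_mul_right _ hMcard
  calc #s = ∑ c ∈ range 3, #(s.filter (fun k => k % 3 = c)) := by
        rw [← card_eq_sum_card_fiberwise (f := fun k => k % 3) (t := range 3)]
        intro k _
        simp only [coe_range, Set.mem_Iio]
        omega
    _ ≤ ∑ c ∈ range 3, n^(n*(4*A)) * (1 + n*(4*A)) := sum_le_sum (fun c _ => hc c)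
    _ = 3 * (n^(n*(4*A)) * (1 + n*(4*A))) := by simp

end Pool.Agent.DigitA
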