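import Mathlib
import Pool.Agent.DigitA.Cl
import Pool.Agent.DigitA.Ev

open Finset

namespace Pool.Agent.DigitA

open Pool.Agent.SqrtDC

variable {V : Finset ℕ} {r : ℕ → ℕ} {t m : ℕ}

/-! ## Module Cnt : counting bad tuples -/

lemma cnt_card_tup (V : Finset ℕ) (n : ℕ) : #(tup V n) = (#V)^n := by
  unfold tup
  rw [Fintype.card_piFinset]
  simp

lemma cnt_mem_tup {V : Finset ℕ} {n : ℕ} {a : Fin n → ℕ} : a ∈ tup V n ↔ ∀ i, a i ∈ V := by
  unfold tup
  rw [Fintype.mem_piFinset]

lemma cnt_fib1 (V : Finset ℕ) {n : ℕ} (i : Fin n) (B : Finset ℕ) (S : Finset (Fin n → ℕ))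
    (hS : S ⊆ tup V n) (hB : ∀ a ∈ S, a i ∈ B) : #V * #S ≤ #B * (#V)^n := by
  rw [← cnt_card_tup, ← card_product, ← card_product]
  apply Finset.card_le_card_of_injOn (fun q : ℕ × (Fin n → ℕ) => (q.2 i, Function.update q.2 i q.1))
  · rintro ⟨u, a⟩ h
    simp only [coe_product, Set.mem_prod, mem_coe] at h ⊢
    refine ⟨hB a h.2, ?_⟩
    rw [cnt_mem_tup]
    intro j
    by_cases hj : j = i
    · subst hj
      simpa using h.1
    · rw [Function.update_of_ne hj]
      exact cnt_mem_tup.1 (hS h.2) j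
  · rintro ⟨u, a⟩ h ⟨u', a'⟩ h' he
    simp only [Prod.mk.injEq] at he
    obtain ⟨h1, h2⟩ := he
    have h3 : u = u' := by
      have := congrFun h2 i
      simpa using this
    have h4 : a = a' := by
      funext j
      by_cases hj : j = i
      · subst hj; exact h1
      · have := congrFun h2 j
        rwa [Function.update_of_ne hj, Function.update_of_ne hj] at this
    rw [h3, h4]

lemma cnt_fib2 (V : Finset ℕ) {n : ℕ} {i j : Fin n} (hij : i ≠ j) (P : Finset (ℕ × ℕ))
    (S : Finset (Fin n → ℕ)) (hS : S ⊆ tup V n) (hP : ∀ a ∈ S, (a i, a j) ∈ P) :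
    (#V)^2 * #S ≤ #P * (#V)^n := by
  rw [← cnt_card_tup V n, sq, ← card_product, ← card_product, ← card_product]
  apply Finset.card_le_card_of_injOn (fun q : (ℕ × ℕ) × (Fin n → ℕ) =>
    ((q.2 i, q.2 j), Function.update (Function.update q.2 i q.1.1) j q.1.2))
  · rintro ⟨⟨u, w⟩, a⟩ h
    simp only [coe_product, Set.mem_prod, mem_coe] at h ⊢
    refine ⟨hP a h.2, ?_⟩
    rw [cnt_mem_tup]
    intro k
    by_cases hj : k = j
    · subst hj
      simpa using h.1.2
    · rw [Function.update_of_ne hj]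
      by_cases hi : k = i
      · subst hi
        simpa using h.1.1
      · rw [Function.update_of_ne hi]
        exact cnt_mem_tup.1 (hS h.2) k
  · rintro ⟨⟨u, w⟩, a⟩ h ⟨⟨u', w'⟩, a'⟩ h' he
    simp only [Prod.mk.injEq] at he
    obtain ⟨⟨h1, h1'⟩, h2⟩ := he
    have h3 : w = w' := by
      have := congrFun h2 j
      simpa using this
    have h3' : u = u' := by
      have := congrFun h2 i
      rw [Function.update_of_ne hij, Function.update_of_ne hij] at this
      simpa using this
    have h4 : a = a' := by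
      funext k
      by_cases hj : k = j
      · subst hj; exact h1'
      · by_cases hi : k = i
        · subst hi; exact h1
        · have := congrFun h2 k
          rwa [Function.update_of_ne hj, Function.update_of_ne hj, Function.update_of_ne hi,
            Function.update_of_ne hi] at this
    rw [h3, h3', h4]

/-- a set of naturals all of whose finite subsets have at most `N` elements -/
lemma cnt_exists_levels (Q : ℕ → Prop) (N : ℕ) (h : ∀ s : Finset ℕ, (∀ k ∈ s, Q k) → #s ≤ N) :
    ∃ s : Finset ℕ, (∀ k, k ∈ s ↔ Q k) ∧ #s ≤ N := by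
  have hfin : {k | Q k}.Finite := by
    by_contra hinf
    obtain ⟨s, hs, hc⟩ := Set.Infinite.exists_subset_card_eq hinf (N+1)
    have := h s (fun k hk => hs hk)
    omega
  refine ⟨hfin.toFinset, fun k => by simp, h _ (fun k hk => by simpa using hk)⟩

open scoped Classical in
lemma cnt_jump_pairs (hG : Gr V r t m) {y l : ℕ} (hy : 1 ≤ y) (htl : t < 2^l)
    (hsp : ∀ k, y^2 * #(V.filter (fun v => Jump V r y k v)) ≤ 10 * #V) :
    y * #((V ×ˢ V).filter (fun q => ∃ k, Jump V r y k q.1 ∧ Jump V r y k q.2)) ≤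
      120 * l * (#V)^2 := by
  have hlev : ∀ u, ∃ s : Finset ℕ, u ∈ V → (∀ k, k ∈ s ↔ Jump V r y k u) ∧ #s ≤ 12*(y*l) := by
    intro u
    by_cases hu : u ∈ V
    · obtain ⟨s, hs⟩ := cnt_exists_levels (fun k => Jump V r y k u) (12*(y*l))
        (fun s hs => count_jump hG.rmono hG.card hy htl hu 12 s (fun k hk => hs k hk))
      exact ⟨s, fun _ => hs⟩
    · exact ⟨∅, fun h => absurd h hu⟩
  choose L hL using hlev
  have hsub : (V ×ˢ V).filter (fun q => ∃ k, Jump V r y k q.1 ∧ Jump V r y k q.2) ⊆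
      V.biUnion (fun u => (L u).biUnion (fun k => {u} ×ˢ (V.filter (fun v => Jump V r y k v)))) := by
    rintro ⟨u, w⟩ h
    simp only [mem_filter, mem_product] at h
    obtain ⟨⟨hu, hw⟩, k, hk1, hk2⟩ := h
    simp only [mem_biUnion, mem_product, mem_singleton, mem_filter]
    exact ⟨u, hu, k, ((hL u hu).1 k).2 hk1, rfl, hw, hk2⟩
  have h1 : y^2 * #((V ×ˢ V).filter (fun q => ∃ k, Jump V r y k q.1 ∧ Jump V r y k q.2)) ≤
      #V * (12*(y*l) * (10 * #V)) := by
    calc y^2 * #((V ×ˢ V).filter (fun q => ∃ k, Jump V r y k q.1 ∧ Jump V r y k q.2))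
        ≤ y^2 * #(V.biUnion (fun u => (L u).biUnion
          (fun k => {u} ×ˢ (V.filter (fun v => Jump V r y k v))))) :=
          Nat.mul_le_mul_left _ (card_le_card hsub)
      _ ≤ y^2 * ∑ u ∈ V, #((L u).biUnion
          (fun k => {u} ×ˢ (V.filter (fun v => Jump V r y k v)))) :=
          Nat.mul_le_mul_left _ card_biUnion_le
      _ = ∑ u ∈ V, y^2 * #((L u).biUnion
          (fun k => {u} ×ˢ (V.filter (fun v => Jump V r y k v)))) := by rw [mul_sum]
      _ ≤ ∑ u ∈ V, (12*(y*l) * (10 * #V)) := by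
          apply sum_le_sum
          intro u hu
          calc y^2 * #((L u).biUnion (fun k => {u} ×ˢ (V.filter (fun v => Jump V r y k v))))
              ≤ y^2 * ∑ k ∈ L u, #({u} ×ˢ (V.filter (fun v => Jump V r y k v))) :=
                Nat.mul_le_mul_left _ card_biUnion_le
            _ = ∑ k ∈ L u, y^2 * #({u} ×ˢ (V.filter (fun v => Jump V r y k v))) := by
                rw [mul_sum]
            _ ≤ ∑ k ∈ L u, 10 * #V := by
                apply sum_le_sum
                intro k _
                rw [card_product, card_singleton, one_mul]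
                exact hsp k
            _ = #(L u) * (10 * #V) := by rw [sum_const, smul_eq_mul]
            _ ≤ (12*(y*l)) * (10 * #V) := Nat.mul_le_mul_right _ (hL u hu).2
      _ = #V * (12*(y*l) * (10 * #V)) := by rw [sum_const, smul_eq_mul]
  have h2 : y * (y * #((V ×ˢ V).filter (fun q => ∃ k, Jump V r y k q.1 ∧ Jump V r y k q.2))) ≤
      y * (120 * l * (#V)^2) := by
    calc y * (y * #((V ×ˢ V).filter (fun q => ∃ k, Jump V r y k q.1 ∧ Jump V r y k q.2)))
        = y^2 * #((V ×ˢ V).filter (fun q => ∃ k, Jump V r y k q.1 ∧ Jump V r y k q.2)) := by ring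
      _ ≤ #V * (12*(y*l) * (10 * #V)) := h1
      _ = y * (120 * l * (#V)^2) := by ring
  exact Nat.le_of_mul_le_mul_left h2 hy

open scoped Classical in
theorem T1_count (hG : Gr V r t m) {y l : ℕ} (hy : 1 ≤ y) (htl : t < 2^l)
    (hsp : ∀ k, y^2 * #(V.filter (fun v => Jump V r y k v)) ≤ 10 * #V) (n : ℕ) :
    y * #((tup V n).filter (fun a => ¬ T1 V r y a)) ≤ n^2 * (120*l) * (#V)^n := by
  rcases Nat.eq_zero_or_pos (#V) with hV | hV
  · -- `V` empty
    have hVe : V = ∅ := card_eq_zero.1 hV
    have : (tup V n).filter (fun a => ¬ T1 V r y a) = ∅ := by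
      apply filter_eq_empty_iff.2
      intro a ha hT
      apply hT
      intro k i j _ _
      have := cnt_mem_tup.1 ha i
      rw [hVe] at this
      simp at this
    rw [this]
    simp
  have hsub : (tup V n).filter (fun a => ¬ T1 V r y a) ⊆
      (univ : Finset (Fin n × Fin n)).biUnion (fun q => (tup V n).filter
        (fun a => q.1 ≠ q.2 ∧ ∃ k, Jump V r y k (a q.1) ∧ Jump V r y k (a q.2))) := by
    intro a ha
    rw [mem_filter] at ha
    obtain ⟨ha, hT⟩ := ha
    unfold T1 at hT
    push Not at hT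
    obtain ⟨k, i, j, h1, h2, h3⟩ := hT
    rw [mem_biUnion]
    exact ⟨(i, j), mem_univ _, mem_filter.2 ⟨ha, h3, k, h1, h2⟩⟩
  have hone : ∀ q : Fin n × Fin n, y * #((tup V n).filter
        (fun a => q.1 ≠ q.2 ∧ ∃ k, Jump V r y k (a q.1) ∧ Jump V r y k (a q.2))) ≤
        120*l*(#V)^n := by
    rintro ⟨i, j⟩
    by_cases hij : i = j
    · have : (tup V n).filter
        (fun a => i ≠ j ∧ ∃ k, Jump V r y k (a i) ∧ Jump V r y k (a j)) = ∅ := by
        apply filter_eq_empty_iff.2
        intro a _ h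
        exact h.1 hij
      simp only [this]
      simp
    · have h1 := cnt_fib2 V hij ((V ×ˢ V).filter (fun q => ∃ k, Jump V r y k q.1 ∧ Jump V r y k q.2))
        ((tup V n).filter
          (fun a => i ≠ j ∧ ∃ k, Jump V r y k (a i) ∧ Jump V r y k (a j)))
        (filter_subset _ _) (by
          intro a ha
          rw [mem_filter] at ha
          rw [mem_filter, mem_product]
          exact ⟨⟨cnt_mem_tup.1 ha.1 i, cnt_mem_tup.1 ha.1 j⟩, ha.2.2⟩)
      have h2 := cnt_jump_pairs hG hy htl hsp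
      have h3 : (#V)^2 * (y * #((tup V n).filter
          (fun a => i ≠ j ∧ ∃ k, Jump V r y k (a i) ∧ Jump V r y k (a j)))) ≤
          (#V)^2 * (120*l*(#V)^n) := by
        calc (#V)^2 * (y * #((tup V n).filter
              (fun a => i ≠ j ∧ ∃ k, Jump V r y k (a i) ∧ Jump V r y k (a j))))
            = y * ((#V)^2 * #((tup V n).filter
              (fun a => i ≠ j ∧ ∃ k, Jump V r y k (a i) ∧ Jump V r y k (a j)))) := by ring
          _ ≤ y * (#((V ×ˢ V).filter (fun q => ∃ k, Jump V r y k q.1 ∧ Jump V r y k q.2)) *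
              (#V)^n) := Nat.mul_le_mul_left _ h1
          _ = (y * #((V ×ˢ V).filter (fun q => ∃ k, Jump V r y k q.1 ∧ Jump V r y k q.2))) *
              (#V)^n := by ring
          _ ≤ (120 * l * (#V)^2) * (#V)^n := Nat.mul_le_mul_right _ h2
          _ = (#V)^2 * (120*l*(#V)^n) := by ring
      exact Nat.le_of_mul_le_mul_left h3 (by positivity)
  calc y * #((tup V n).filter (fun a => ¬ T1 V r y a))
      ≤ y * #((univ : Finset (Fin n × Fin n)).biUnion (fun q => (tup V n).filter
        (fun a => q.1 ≠ q.2 ∧ ∃ k, Jump V r y k (a q.1) ∧ Jump V r y k (a q.2)))) :=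
        Nat.mul_le_mul_left _ (card_le_card hsub)
    _ ≤ y * ∑ q : Fin n × Fin n, #((tup V n).filter
        (fun a => q.1 ≠ q.2 ∧ ∃ k, Jump V r y k (a q.1) ∧ Jump V r y k (a q.2))) :=
        Nat.mul_le_mul_left _ card_biUnion_le
    _ = ∑ q : Fin n × Fin n, y * #((tup V n).filter
        (fun a => q.1 ≠ q.2 ∧ ∃ k, Jump V r y k (a q.1) ∧ Jump V r y k (a q.2))) := by
        rw [mul_sum]
    _ ≤ ∑ q : Fin n × Fin n, 120*l*(#V)^n := sum_le_sum (fun q _ => hone q)
    _ = n^2 * (120*l) * (#V)^n := by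
        rw [sum_const, smul_eq_mul, card_univ, Fintype.card_prod, Fintype.card_fin]
        ring

open scoped Classical in
theorem T2_count {y : ℕ} (hiso : y * #(V.filter (fun v => 2 ≤ #(cl V r 20 v))) ≤ 2 * #V) (n : ℕ) :
    y * #((tup V n).filter (fun a => ¬ T2 V r a)) ≤ 2 * n * (#V)^n := by
  rcases Nat.eq_zero_or_pos (#V) with hV | hV
  · have hVe : V = ∅ := card_eq_zero.1 hV
    have : (tup V n).filter (fun a => ¬ T2 V r a) = ∅ := by
      apply filter_eq_empty_iff.2
      intro a ha hT
      apply hT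
      intro i
      have := cnt_mem_tup.1 ha i
      rw [hVe] at this
      simp at this
    rw [this]
    simp
  have hsub : (tup V n).filter (fun a => ¬ T2 V r a) ⊆
      (univ : Finset (Fin n)).biUnion (fun i => (tup V n).filter
        (fun a => 2 ≤ #(cl V r 20 (a i)))) := by
    intro a ha
    rw [mem_filter] at ha
    obtain ⟨ha, hT⟩ := ha
    unfold T2 at hT
    push Not at hT
    obtain ⟨i, hi⟩ := hT
    rw [mem_biUnion]
    exact ⟨i, mem_univ _, mem_filter.2 ⟨ha, hi⟩⟩
  have hone : ∀ i : Fin n, y * #((tup V n).filter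
        (fun a => 2 ≤ #(cl V r 20 (a i)))) ≤ 2*(#V)^n := by
    intro i
    have h1 := cnt_fib1 V i (V.filter (fun v => 2 ≤ #(cl V r 20 v))) ((tup V n).filter
        (fun a => 2 ≤ #(cl V r 20 (a i)))) (filter_subset _ _) (by
          intro a ha
          rw [mem_filter] at ha
          exact mem_filter.2 ⟨cnt_mem_tup.1 ha.1 i, ha.2⟩)
    have h3 : #V * (y * #((tup V n).filter (fun a => 2 ≤ #(cl V r 20 (a i))))) ≤
        #V * (2*(#V)^n) := by
      calc #V * (y * #((tup V n).filter (fun a => 2 ≤ #(cl V r 20 (a i)))))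
          = y * (#V * #((tup V n).filter (fun a => 2 ≤ #(cl V r 20 (a i))))) := by ring
        _ ≤ y * (#(V.filter (fun v => 2 ≤ #(cl V r 20 v))) * (#V)^n) := Nat.mul_le_mul_left _ h1
        _ = (y * #(V.filter (fun v => 2 ≤ #(cl V r 20 v)))) * (#V)^n := by ring
        _ ≤ (2 * #V) * (#V)^n := Nat.mul_le_mul_right _ hiso
        _ = #V * (2*(#V)^n) := by ring
    exact Nat.le_of_mul_le_mul_left h3 hV
  calc y * #((tup V n).filter (fun a => ¬ T2 V r a))
      ≤ y * #((univ : Finset (Fin n)).biUnion (fun i => (tup V n).filter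
        (fun a => 2 ≤ #(cl V r 20 (a i))))) :=
        Nat.mul_le_mul_left _ (card_le_card hsub)
    _ ≤ y * ∑ i : Fin n, #((tup V n).filter (fun a => 2 ≤ #(cl V r 20 (a i)))) :=
        Nat.mul_le_mul_left _ card_biUnion_le
    _ = ∑ i : Fin n, y * #((tup V n).filter (fun a => 2 ≤ #(cl V r 20 (a i)))) := by
        rw [mul_sum]
    _ ≤ ∑ i : Fin n, 2*(#V)^n := sum_le_sum (fun q _ => hone q)
    _ = 2 * n * (#V)^n := by
        rw [sum_const, smul_eq_mul, card_univ, Fintype.card_fin]
        ring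

open scoped Classical in
theorem bad2_count (hG : Gr V r t m) {y A : ℕ} (hy : 2 ≤ y) (hty : t < y^(A+1)) {n : ℕ}
    (hn : n ≤ m) (hsp : ∀ k, y^2 * #(V.filter (fun v => Jump V r y k v)) ≤ 10 * #V) :
    y^2 * #((tup V (n+1)).filter (fun a => ∃ i k, Ev V r y n (sm (fun l => a (i.succAbove l))) k ∧
      Jump V r y k (a i))) ≤ (n+1) * (3 * (n^(n*(4*A)) * (1 + n*(4*A)))) * 10 * (#V)^(n+1) := by
  obtain ⟨N, hN⟩ : ∃ N, N = 3 * (n^(n*(4*A)) * (1 + n*(4*A))) := ⟨_, rfl⟩
  rw [← hN]
  have hlev : ∀ x : ℤ, ∃ s : Finset ℕ, (∀ k, k ∈ s ↔ Ev V r y n x k) ∧ #s ≤ N := by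
    intro x
    apply cnt_exists_levels
    intro s hs
    rw [hN]
    exact ev_card hG hy hty hn x s hs
  choose L hL1 hL2 using hlev
  have hsub : (tup V (n+1)).filter (fun a => ∃ i k,
      Ev V r y n (sm (fun l => a (i.succAbove l))) k ∧ Jump V r y k (a i)) ⊆
      (univ : Finset (Fin (n+1))).biUnion (fun i => (tup V (n+1)).filter
        (fun a => ∃ k, Ev V r y n (sm (fun l => a (i.succAbove l))) k ∧ Jump V r y k (a i))) := by
    intro a ha
    rw [mem_filter] at ha
    obtain ⟨ha, i, h⟩ := ha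
    rw [mem_biUnion]
    exact ⟨i, mem_univ _, mem_filter.2 ⟨ha, h⟩⟩
  have hone : ∀ i : Fin (n+1), y^2 * #((tup V (n+1)).filter
        (fun a => ∃ k, Ev V r y n (sm (fun l => a (i.succAbove l))) k ∧ Jump V r y k (a i))) ≤
        N * 10 * (#V)^(n+1) := by
    intro i
    have h1 : #((tup V (n+1)).filter
        (fun a => ∃ k, Ev V r y n (sm (fun l => a (i.succAbove l))) k ∧ Jump V r y k (a i))) ≤
        #((tup V n).biUnion (fun b => (L (sm b)).biUnion (fun k =>
          {b} ×ˢ (V.filter (fun v => Jump V r y k v))))) := by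
      apply Finset.card_le_card_of_injOn (fun a : Fin (n+1) → ℕ =>
        ((fun l => a (i.succAbove l)), a i))
      · intro a ha
        rw [mem_coe, mem_filter] at ha
        obtain ⟨ha, k, hk1, hk2⟩ := ha
        simp only [mem_coe, mem_biUnion, mem_product, mem_singleton, mem_filter]
        refine ⟨_, ?_, k, (hL1 _ k).2 hk1, rfl, cnt_mem_tup.1 ha i, hk2⟩
        rw [cnt_mem_tup]
        intro l
        exact cnt_mem_tup.1 ha _
      · intro a _ a' _ h
        simp only [Prod.mk.injEq] at h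
        obtain ⟨h2, h3⟩ := h
        funext j
        rcases Fin.eq_self_or_eq_succAbove i j with h4 | ⟨l, h4⟩
        · rw [h4]; exact h3
        · rw [h4]
          exact congrFun h2 l
    calc y^2 * #((tup V (n+1)).filter
          (fun a => ∃ k, Ev V r y n (sm (fun l => a (i.succAbove l))) k ∧ Jump V r y k (a i)))
        ≤ y^2 * #((tup V n).biUnion (fun b => (L (sm b)).biUnion (fun k =>
          {b} ×ˢ (V.filter (fun v => Jump V r y k v))))) := Nat.mul_le_mul_left _ h1
      _ ≤ y^2 * ∑ b ∈ tup V n, #((L (sm b)).biUnion (fun k =>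
          {b} ×ˢ (V.filter (fun v => Jump V r y k v)))) :=
          Nat.mul_le_mul_left _ card_biUnion_le
      _ = ∑ b ∈ tup V n, y^2 * #((L (sm b)).biUnion (fun k =>
          {b} ×ˢ (V.filter (fun v => Jump V r y k v)))) := by rw [mul_sum]
      _ ≤ ∑ b ∈ tup V n, N * (10 * #V) := by
          apply sum_le_sum
          intro b _
          calc y^2 * #((L (sm b)).biUnion (fun k =>
                {b} ×ˢ (V.filter (fun v => Jump V r y k v))))
              ≤ y^2 * ∑ k ∈ L (sm b), #({b} ×ˢ (V.filter (fun v => Jump V r y k v))) :=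
                Nat.mul_le_mul_left _ card_biUnion_le
            _ = ∑ k ∈ L (sm b), y^2 * #({b} ×ˢ (V.filter (fun v => Jump V r y k v))) := by
                rw [mul_sum]
            _ ≤ ∑ k ∈ L (sm b), 10 * #V := by
                apply sum_le_sum
                intro k _
                rw [card_product, card_singleton, one_mul]
                exact hsp k
            _ = #(L (sm b)) * (10 * #V) := by rw [sum_const, smul_eq_mul]
            _ ≤ N * (10 * #V) := Nat.mul_le_mul_right _ (hL2 _)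
      _ = N * 10 * (#V)^(n+1) := by
          rw [sum_const, smul_eq_mul, cnt_card_tup]
          ring
  calc y^2 * #((tup V (n+1)).filter (fun a => ∃ i k,
      Ev V r y n (sm (fun l => a (i.succAbove l))) k ∧ Jump V r y k (a i)))
      ≤ y^2 * #((univ : Finset (Fin (n+1))).biUnion (fun i => (tup V (n+1)).filter
        (fun a => ∃ k, Ev V r y n (sm (fun l => a (i.succAbove l))) k ∧ Jump V r y k (a i)))) :=
        Nat.mul_le_mul_left _ (card_le_card hsub)
    _ ≤ y^2 * ∑ i : Fin (n+1), #((tup V (n+1)).filter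
        (fun a => ∃ k, Ev V r y n (sm (fun l => a (i.succAbove l))) k ∧ Jump V r y k (a i))) :=
        Nat.mul_le_mul_left _ card_biUnion_le
    _ = ∑ i : Fin (n+1), y^2 * #((tup V (n+1)).filter
        (fun a => ∃ k, Ev V r y n (sm (fun l => a (i.succAbove l))) k ∧ Jump V r y k (a i))) := by
        rw [mul_sum]
    _ ≤ ∑ i : Fin (n+1), N * 10 * (#V)^(n+1) := sum_le_sum (fun q _ => hone q)
    _ = (n+1) * N * 10 * (#V)^(n+1) := by
        rw [sum_const, smul_eq_mul, card_univ, Fintype.card_fin]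
        ring

open scoped Classical in
theorem noninj_count (V : Finset ℕ) (n : ℕ) :
    #V * #((tup V n).filter (fun a => ¬ Function.Injective a)) ≤ n^2 * (#V)^n := by
  have hsub : (tup V n).filter (fun a => ¬ Function.Injective a) ⊆
      (univ : Finset (Fin n × Fin n)).biUnion (fun q => (tup V n).filter
        (fun a => q.1 ≠ q.2 ∧ a q.1 = a q.2)) := by
    intro a ha
    rw [mem_filter] at ha
    obtain ⟨ha, hT⟩ := ha
    unfold Function.Injective at hT
    push Not at hT
    obtain ⟨i, j, h1, h2⟩ := hT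
    rw [mem_biUnion]
    exact ⟨(i, j), mem_univ _, mem_filter.2 ⟨ha, h2, h1⟩⟩
  have hone : ∀ q : Fin n × Fin n, #V * #((tup V n).filter
        (fun a => q.1 ≠ q.2 ∧ a q.1 = a q.2)) ≤ (#V)^n := by
    rintro ⟨i, j⟩
    rw [← cnt_card_tup V n, ← card_product]
    apply Finset.card_le_card_of_injOn
      (fun q : ℕ × (Fin n → ℕ) => Function.update q.2 i q.1)
    · rintro ⟨u, a⟩ h
      simp only [coe_product, Set.mem_prod, mem_coe, mem_filter] at h ⊢
      rw [cnt_mem_tup]
      intro k
      by_cases hk : k = i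
      · subst hk
        simpa using h.1
      · rw [Function.update_of_ne hk]
        exact cnt_mem_tup.1 h.2.1 k
    · rintro ⟨u, a⟩ h ⟨u', a'⟩ h' he
      simp only [coe_product, Set.mem_prod, mem_coe, mem_filter] at h h' he
      obtain ⟨-, -, hij, h1⟩ := h
      obtain ⟨-, -, -, h1'⟩ := h'
      have h3 : u = u' := by
        have := congrFun he i
        simpa using this
      have h5 : ∀ k, k ≠ i → a k = a' k := by
        intro k hk
        have := congrFun he k
        rwa [Function.update_of_ne hk, Function.update_of_ne hk] at this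
      have h4 : a = a' := by
        funext k
        by_cases hk : k = i
        · subst hk
          rw [h1, h1', h5 j (Ne.symm hij)]
        · exact h5 k hk
      rw [h3, h4]
  calc #V * #((tup V n).filter (fun a => ¬ Function.Injective a))
      ≤ #V * #((univ : Finset (Fin n × Fin n)).biUnion (fun q => (tup V n).filter
        (fun a => q.1 ≠ q.2 ∧ a q.1 = a q.2))) :=
        Nat.mul_le_mul_left _ (card_le_card hsub)
    _ ≤ #V * ∑ q : Fin n × Fin n, #((tup V n).filter
        (fun a => q.1 ≠ q.2 ∧ a q.1 = a q.2)) :=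
        Nat.mul_le_mul_left _ card_biUnion_le
    _ = ∑ q : Fin n × Fin n, #V * #((tup V n).filter
        (fun a => q.1 ≠ q.2 ∧ a q.1 = a q.2)) := by
        rw [mul_sum]
    _ ≤ ∑ q : Fin n × Fin n, (#V)^n := sum_le_sum (fun q _ => hone q)
    _ = n^2 * (#V)^n := by
        rw [sum_const, smul_eq_mul, card_univ, Fintype.card_prod, Fintype.card_fin]
        ring

end Pool.Agent.DigitA
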