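import Mathlib
import Pool.Agent.DigitA.Defs
import Pool.Agent.DigitA.Cl
import Pool.Agent.DigitA.Diff
import Pool.Agent.DigitA.Imb
import Pool.Agent.DigitA.Cnt

open Finset

namespace Pool.Agent.DigitA

open Pool.Agent.SqrtDC

variable {V : Finset ℕ} {r : ℕ → ℕ} {t m : ℕ}

/-! ## Module Src : good sources exist -/

lemma src_bound (D y l : ℕ) (hl : l^2 ≤ y) (hy : 4*D^2 ≤ y) (hy1 : 1 ≤ y) : D*(l+1) ≤ y := by
  have h1 : (D*(l+1))^2 ≤ y^2 := by
    have h2 : (l+1)^2 ≤ 4*y := by nlinarith [sq_nonneg ((l:ℤ)-1), Nat.zero_le l]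
    calc (D*(l+1))^2 = D^2*(l+1)^2 := by ring
      _ ≤ D^2*(4*y) := Nat.mul_le_mul_left _ h2
      _ = (4*D^2)*y := by ring
      _ ≤ y*y := Nat.mul_le_mul_right _ hy
      _ = y^2 := by ring
  exact (Nat.pow_le_pow_iff_left (by norm_num)).1 h1

lemma src_union {α : Type*} [DecidableEq α] (a b c d e f : Finset α) :
    #(a ∪ b ∪ c ∪ d ∪ e ∪ f) ≤ (#a + #b) + (#c + #d) + #e + #f := by
  have h3 := card_union_le (a ∪ b ∪ c ∪ d ∪ e) f
  have h4 := card_union_le (a ∪ b ∪ c ∪ d) e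
  have h5 := card_union_le (a ∪ b ∪ c) d
  have h6 := card_union_le (a ∪ b) c
  have h7 := card_union_le a b
  omega

open scoped Classical in
theorem good_exists (A m : ℕ) : ∃ f y₀ : ℕ, 1 ≤ f ∧ ∀ y, y₀ ≤ y → ∀ (l t : ℕ) (V V₀ : Finset ℕ)
    (r : ℕ → ℕ), Gr V r t (m+1) → t < y^(A+1) → t < 2^l → l^2 ≤ y → V₀ ⊆ V → #V ≤ 2 * #V₀ →
    y ≤ #V → (∀ k, y^2 * #(V.filter (fun v => Jump V r y k v)) ≤ 10 * #V) →
    y * #(V.filter (fun v => 2 ≤ #(cl V r 20 v))) ≤ 2 * #V →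
    ∃ v : Fin (m+1) → ℕ, (∀ i, v i ∈ V₀) ∧ Good V r y f m v := by
  classical
  set N : ℕ := (m+1)^((m+1)*(4*A)) with hN
  have hN1 : 1 ≤ N := Nat.one_le_pow _ _ (by omega)
  set f : ℕ := 2^(m+1)*20*N^2 with hf
  have hf1 : 1 ≤ f := by
    have : 0 < f := by positivity
    exact this
  set C : ℕ := (m+1)^2*120 + 2*(m+1) with hC
  set D : ℕ := C*(2^(m+1)*20*(N+1)) with hD
  set C2 : ℕ := (m+1) * (3 * (m^(m*(4*A)) * (1 + m*(4*A)))) * 10 with hC2
  set y₀ : ℕ := 2 + 4*D^2 + C2*(2^(m+1)*20*N) + (m+1)^2*(2^(m+1)*20) with hy₀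
  refine ⟨f, y₀, hf1, ?_⟩
  clear_value N f C D C2 y₀
  intro y hy l t V V₀ r hG hty htl hl hV₀ hVV₀ hyV hsp hiso
  have e1 : 2 ≤ y := by
    refine le_trans ?_ hy
    rw [hy₀]
    exact le_trans (Nat.le_add_right _ _) (le_trans (Nat.le_add_right _ _) (Nat.le_add_right _ _))
  have e2 : 4*D^2 ≤ y := by
    refine le_trans ?_ hy
    rw [hy₀]
    exact le_trans (Nat.le_add_left _ _) (le_trans (Nat.le_add_right _ _) (Nat.le_add_right _ _))
  have e3 : C2*(2^(m+1)*20*N) ≤ y := by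
    refine le_trans ?_ hy
    rw [hy₀]
    exact le_trans (Nat.le_add_left _ _) (Nat.le_add_right _ _)
  have e4 : (m+1)^2*(2^(m+1)*20) ≤ y := by
    refine le_trans ?_ hy
    rw [hy₀]
    exact Nat.le_add_left _ _
  clear hy hy₀
  have hy2 : 2 ≤ y := e1
  set X : ℕ := (#V)^(m+1) with hX
  have hXpos : 0 < X := by
    have : 0 < #V := by omega
    positivity
  set τ : ℕ := (m+1)^2 * r 1 with hτ
  have hstep := hG.step 1
  have hτ2 : 2*τ ≤ r 2 := by
    have h1 : 2*τ ≤ 100 * (m+1+1)^2 * (t+1)^(m+1+1) * r 1 := by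
      have h2 : 1 ≤ (t+1)^(m+1+1) := Nat.one_le_pow _ _ (by omega)
      have h3 : (m+1)^2 ≤ (m+1+1)^2 := Nat.pow_le_pow_left (by omega) 2
      calc 2*τ = 2*(m+1)^2*r 1 := by rw [hτ]; ring
        _ ≤ (100 * (m+1+1)^2 * (t+1)^(m+1+1)) * r 1 := by
          apply Nat.mul_le_mul_right
          calc 2*(m+1)^2 ≤ 100*(m+1+1)^2 := by omega
            _ = 100*(m+1+1)^2*1 := by ring
            _ ≤ 100*(m+1+1)^2*(t+1)^(m+1+1) := Nat.mul_le_mul_left _ h2
        _ = _ := by ring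
    exact h1.trans hstep
  have hτ3 : 2*τ ≤ r 3 := hτ2.trans (hG.rmono (by norm_num))
  have hτ19 : 2*τ ≤ r 19 := hτ2.trans (hG.rmono (by norm_num))
  -- the bad sets
  set GT := gt V r y (m+1) with hGT
  set B0 := (tup V (m+1)).filter (fun a => ¬ (T1 V r y a ∧ T2 V r a)) with hB0
  set G0 := GT.filter (fun v => ∃ b ∈ B0, |sm b - sm v| ≤ (τ:ℤ)) with hG0
  set P := (GT ×ˢ GT).filter (fun q => |sm q.1 - sm q.2| ≤ (τ:ℤ) ∧
      ∃ k, 3 ≤ k ∧ f * #(cell V r k q.1) < #(cell V r k q.2)) with hP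
  set B2 := (tup V (m+1)).filter (fun a => ∃ i k, Ev V r y m (sm (fun l => a (i.succAbove l))) k ∧
      Jump V r y k (a i)) with hB2
  set G2 := GT.filter (fun v => ∃ b ∈ B2, |sm b - sm v| ≤ (τ:ℤ)) with hG2
  set NI := (tup V (m+1)).filter (fun a => ¬ Function.Injective a) with hNI
  -- counts
  have c1 := T1_count hG (y := y) (l := l) (by omega) htl hsp (m+1)
  have c2 := T2_count (V := V) (r := r) (y := y) hiso (m+1)
  have c0 : y * #B0 ≤ C*(l+1)*X := by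
    have hsub : B0 ⊆ (tup V (m+1)).filter (fun a => ¬ T1 V r y a) ∪
        (tup V (m+1)).filter (fun a => ¬ T2 V r a) := by
      intro a ha
      rw [hB0, mem_filter] at ha
      rw [mem_union, mem_filter, mem_filter]
      by_cases h1 : T1 V r y a
      · right; exact ⟨ha.1, fun h2 => ha.2 ⟨h1, h2⟩⟩
      · left; exact ⟨ha.1, h1⟩
    have h3 := (card_le_card hsub).trans (card_union_le _ _)
    calc y * #B0 ≤ y * (#((tup V (m+1)).filter (fun a => ¬ T1 V r y a)) +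
        #((tup V (m+1)).filter (fun a => ¬ T2 V r a))) := Nat.mul_le_mul_left _ h3
      _ = y * #((tup V (m+1)).filter (fun a => ¬ T1 V r y a)) +
        y * #((tup V (m+1)).filter (fun a => ¬ T2 V r a)) := by ring
      _ ≤ (m+1)^2 * (120*l) * (#V)^(m+1) + 2 * (m+1) * (#V)^(m+1) := Nat.add_le_add c1 c2
      _ = ((m+1)^2*120*l + 2*(m+1)) * X := by rw [hX]; ring
      _ ≤ (C*(l+1)) * X := by
        apply Nat.mul_le_mul_right
        rw [hC]; nlinarith [Nat.zero_le ((m+1)^2*120), Nat.zero_le (2*(m+1)*l)]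
  have cG0 : #G0 ≤ N * #B0 := by
    rw [hN]
    exact near_card hG hy2 hty le_rfl B0 τ hτ19 G0 (filter_subset _ _) (by
      intro v hv; rw [hG0, mem_filter] at hv; exact hv.2)
  have cP : f * #P ≤ N^2 * X := by
    have := imb_count hG hy2 hty (le_refl (m+1)) hf1 τ hτ3
    rw [hN, hX, hP]
    exact this
  have cB2 : y^2 * #B2 ≤ C2 * X := by
    have := bad2_count hG hy2 hty (n := m) (by omega) hsp
    rw [hC2, hX, hB2]
    exact this
  have cG2 : #G2 ≤ N * #B2 := by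
    rw [hN]
    exact near_card hG hy2 hty le_rfl B2 τ hτ19 G2 (filter_subset _ _) (by
      intro v hv; rw [hG2, mem_filter] at hv; exact hv.2)
  have cNI : #V * #NI ≤ (m+1)^2 * X := noninj_count V (m+1)
  -- each bad set is small
  clear_value X τ
  set Z : ℕ := 2^(m+1)*20 with hZ
  have hZpos : 0 < Z := by positivity
  have s0 : Z * (#B0 + #G0) ≤ X := by
    have h1 : #B0 + #G0 ≤ (N+1) * #B0 := by
      calc #B0 + #G0 ≤ #B0 + N * #B0 := Nat.add_le_add_left cG0 _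
        _ = (N+1) * #B0 := by ring
    have hDy : D*(l+1) ≤ y := src_bound D y l hl e2 (by omega)
    have hypos : 0 < y := by omega
    apply Nat.le_of_mul_le_mul_left _ hypos
    calc y * (Z * (#B0 + #G0)) ≤ y * (Z * ((N+1) * #B0)) := by gcongr
      _ = Z*(N+1)*(y * #B0) := by ring
      _ ≤ Z*(N+1)*(C*(l+1)*X) := Nat.mul_le_mul_left _ c0
      _ = (D*(l+1))*X := by rw [hD, hZ]; ring
      _ ≤ y * X := Nat.mul_le_mul_right _ hDy
  have sP : Z * #P ≤ X := by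
    have hNN : 0 < N^2 := by positivity
    apply Nat.le_of_mul_le_mul_left _ hNN
    calc N^2 * (Z * #P) = f * #P := by rw [hf, hZ]; ring
      _ ≤ N^2 * X := cP
  have sG2 : Z * #G2 ≤ X := by
    have hypos : 0 < y^2 := by positivity
    apply Nat.le_of_mul_le_mul_left _ hypos
    have h5 : C2*(Z*N) ≤ y := e3
    have h6 : y ≤ y^2 := by nlinarith
    calc y^2 * (Z * #G2) ≤ y^2 * (Z * (N * #B2)) := by gcongr
      _ = Z*N*(y^2 * #B2) := by ring
      _ ≤ Z*N*(C2*X) := Nat.mul_le_mul_left _ cB2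
      _ = (C2*(Z*N))*X := by ring
      _ ≤ y^2 * X := Nat.mul_le_mul_right _ (h5.trans h6)
  have sNI : Z * #NI ≤ X := by
    have hVpos : 0 < #V := by omega
    apply Nat.le_of_mul_le_mul_left _ hVpos
    have h5 : (m+1)^2*Z ≤ #V := e4.trans hyV
    calc #V * (Z * #NI) = Z * (#V * #NI) := by ring
      _ ≤ Z * ((m+1)^2 * X) := Nat.mul_le_mul_left _ cNI
      _ = ((m+1)^2*Z) * X := by ring
      _ ≤ #V * X := Nat.mul_le_mul_right _ h5
  set P1 := P.image Prod.fst with hP1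
  set P2 := P.image Prod.snd with hP2
  set U := B0 ∪ G0 ∪ P1 ∪ P2 ∪ G2 ∪ NI with hU
  have cU : #U ≤ (#B0 + #G0) + 2 * #P + #G2 + #NI := by
    have h1 : #P1 ≤ #P := card_image_le
    have h2 : #P2 ≤ #P := card_image_le
    calc #U ≤ (#B0 + #G0) + (#P1 + #P2) + #G2 + #NI := src_union _ _ _ _ _ _
      _ ≤ (#B0 + #G0) + (#P + #P) + #G2 + #NI := by gcongr
      _ = _ := by ring
  have hcardV₀ : X ≤ 2^(m+1) * #(tup V₀ (m+1)) := by
    have h1 : #(tup V₀ (m+1)) = (#V₀)^(m+1) := by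
      unfold tup; rw [Fintype.card_piFinset]; simp
    rw [h1, hX, ← mul_pow]
    exact Nat.pow_le_pow_left hVV₀ _
  have hlt : #U < #(tup V₀ (m+1)) := by
    have h1 : Z * #U ≤ 5 * X := by
      calc Z * #U ≤ Z * ((#B0 + #G0) + 2 * #P + #G2 + #NI) := Nat.mul_le_mul_left _ cU
        _ = Z * (#B0 + #G0) + 2 * (Z * #P) + Z * #G2 + Z * #NI := by ring
        _ ≤ 5 * X := by omega
    have h2 : 2^(m+1) * (20 * #U) ≤ 2^(m+1) * (5 * #(tup V₀ (m+1))) := by
      calc 2^(m+1) * (20 * #U) = Z * #U := by rw [hZ]; ring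
        _ ≤ 5 * X := h1
        _ ≤ 5 * (2^(m+1) * #(tup V₀ (m+1))) := Nat.mul_le_mul_left _ hcardV₀
        _ = _ := by ring
    have h3 := Nat.le_of_mul_le_mul_left h2 (by positivity)
    have h4 : 0 < #(tup V₀ (m+1)) := by
      by_contra h0
      have : #(tup V₀ (m+1)) = 0 := by omega
      rw [this, mul_zero] at hcardV₀
      omega
    omega
  obtain ⟨v, hv, hvU⟩ := exists_mem_notMem_of_card_lt_card hlt
  have hvV₀ : ∀ i, v i ∈ V₀ := by
    intro i
    unfold tup at hv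
    exact (Fintype.mem_piFinset.1 hv) i
  have hvV : ∀ i, v i ∈ V := fun i => hV₀ (hvV₀ i)
  have memtup : ∀ a : Fin (m+1) → ℕ, (∀ i, a i ∈ V) → a ∈ tup V (m+1) := by
    intro a ha
    unfold tup
    exact Fintype.mem_piFinset.2 ha
  simp only [hU, mem_union, not_or] at hvU
  obtain ⟨⟨⟨⟨⟨hvB0, hvG0⟩, hvP1⟩, hvP2⟩, hvG2⟩, hvNI⟩ := hvU
  have hvT : T1 V r y v ∧ T2 V r v := by
    by_contra h
    exact hvB0 (by rw [hB0, mem_filter]; exact ⟨memtup v hvV, h⟩)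
  have hvGT : v ∈ GT := by
    rw [hGT]; unfold gt; rw [mem_filter]; exact ⟨memtup v hvV, hvT⟩
  have g0 : ∀ a : Fin (m+1) → ℕ, (∀ i, a i ∈ V) → |sm a - sm v| ≤ ((m+1)^2 * r 1 : ℕ) →
      T1 V r y a ∧ T2 V r a := by
    intro a ha hav
    rw [← hτ] at hav
    by_contra h
    apply hvG0
    rw [hG0, mem_filter]
    exact ⟨hvGT, a, by rw [hB0, mem_filter]; exact ⟨memtup a ha, h⟩, hav⟩
  refine ⟨v, hvV₀, ⟨hvV, g0, ?_, ?_, ?_⟩⟩
  · intro a ha hav k hk
    have haGT : a ∈ GT := by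
      rw [hGT]; unfold gt; rw [mem_filter]; exact ⟨memtup a ha, g0 a ha hav⟩
    rw [← hτ] at hav
    constructor
    · by_contra h
      push Not at h
      apply hvP2
      rw [hP2, mem_image]
      refine ⟨(a, v), ?_, rfl⟩
      rw [hP, mem_filter, mem_product]
      exact ⟨⟨haGT, hvGT⟩, hav, k, hk, h⟩
    · by_contra h
      push Not at h
      apply hvP1
      rw [hP1, mem_image]
      refine ⟨(v, a), ?_, rfl⟩
      rw [hP, mem_filter, mem_product]
      refine ⟨⟨hvGT, haGT⟩, ?_, k, hk, h⟩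
      show |sm v - sm a| ≤ (τ:ℤ)
      rw [abs_sub_comm]; exact hav
  · intro a ha hav i k hEv hJ
    rw [← hτ] at hav
    apply hvG2
    rw [hG2, mem_filter]
    exact ⟨hvGT, a, by rw [hB2, mem_filter]; exact ⟨memtup a ha, i, k, hEv, hJ⟩, hav⟩
  · by_contra h
    exact hvNI (by rw [hNI, mem_filter]; exact ⟨memtup v hvV, h⟩)

end Pool.Agent.DigitA
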