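import Pool.Agent.H55.GenGame
import Pool.Agent.DigitA.Defs

/-! There is no system with many sources. -/

open Finset

namespace Pool.Agent.DigitA

open Pool.Agent.H55.Gen

variable {K P : Type} [Field K] [Inhabited P] [DecidableEq P]

theorem image_val_sub {m : ℕ} (T : Finset (Fin m)) : T.image Fin.val ⊆ range m := by
  intro x hx
  obtain ⟨y, -, rfl⟩ := mem_image.1 hx
  exact mem_range.2 y.isLt

theorem image_val_univ (m : ℕ) : (univ : Finset (Fin m)).image Fin.val = range m := by
  ext x
  simp only [mem_image, mem_univ, true_and, mem_range]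
  exact ⟨fun ⟨y, hy⟩ => hy ▸ y.isLt, fun h => ⟨⟨x, h⟩, rfl⟩⟩

/-- a system gives endgame data -/
noncomputable def toEnd {m q : ℕ} (S : Sys K P m q) : EndData K P m q where
  V := S.V
  F := S.F
  r := S.e
  WW T := {w | w ∈ S.W (T.image Fin.val)}
  code w j := S.code w j
  F_ne := S.hF
  WW_sub T w hw := S.hWV _ hw
  WW_mono T T' h w hw := S.hmono _ _ (image_subset_image h) hw
  supp_sub T w hw j hj := by
    have h1 := S.hsupp _ (image_val_sub T) w hw j hj
    obtain ⟨y, hy, hyj⟩ := mem_image.1 h1
    rw [← Fin.ext hyj]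
    exact hy
  code_inj w hw w' hw' h := by
    change w ∈ S.W _ at hw
    change w' ∈ S.W _ at hw'
    rw [image_val_univ] at hw hw'
    exact S.hinj w hw w' hw' (fun j hj => congrFun h ⟨j, hj⟩)
  supp_card w hw s hs := by
    change w ∈ S.W _ at hw
    rw [image_val_univ] at hw
    refine le_trans ?_ (S.hcard w hw)
    rw [← card_image_of_injective s Fin.val_injective]
    apply card_le_card
    intro x hx
    obtain ⟨y, hy, rfl⟩ := mem_image.1 hx
    exact mem_filter.2 ⟨mem_range.2 y.isLt, hs y hy⟩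
  sep w hw u hu huw := by
    change w ∈ S.W _ at hw
    rw [image_val_univ] at hw
    have := S.hiso w hw u hu huw
    omega
  closed T T' h w hw w' hw' u hu u' hu' hr := by
    change w ∈ S.W _ at hw
    change w' ∈ S.W _ at hw'
    change u ∈ S.W _ ∧ u' ∈ S.W _
    rw [image_union]
    apply S.hclos _ (image_val_sub T) _ (image_val_sub T') ?_ w hw w' hw' u hu u' hu' ?_
    · rw [Finset.disjoint_left] at h ⊢
      intro x hx hx'
      obtain ⟨y, hy, rfl⟩ := mem_image.1 hx
      obtain ⟨y', hy', hyy⟩ := mem_image.1 hx'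
      rw [Fin.ext hyy] at hy'
      exact h hy hy'
    · have : (u : ℤ) + u' - w - w' = (u : ℤ) + u' - (w + w') := by ring
      rw [this]
      exact hr
  vs j := S.hsrc.choose j
  src j := by
    change _ ∈ S.W _
    rw [image_singleton]
    exact S.hsrc.choose_spec.1 j j.isLt
  src_inj i j hij := Fin.ext (S.hsrc.choose_spec.2 i i.isLt j j.isLt hij)
  arith w hw w' hw' hne := by
    change w ∈ S.W _ at hw
    change w' ∈ S.W _ at hw'
    rw [image_val_univ] at hw hw'
    obtain ⟨α, β, h1, h2, h3, h4, h5⟩ := S.hrel w hw w' hw' hne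
    refine ⟨α, β, by omega, by omega, by omega, by omega, ?_⟩
    rw [← h5]
    apply sum_congr _ (fun _ _ => rfl)
    ext x
    simp only [mem_filter]
    constructor
    · rintro ⟨a, b, c⟩
      exact ⟨a, by omega, by omega⟩
    · rintro ⟨a, b, c⟩
      exact ⟨a, by omega, by omega⟩

/-- there is no system with many sources -/
theorem no_sys (K P : Type) [Field K] [Finite K] [Inhabited P] [DecidableEq P] [Finite P] (q : ℕ)
    (hK : ∀ n : ℕ, 1 ≤ n → n ≤ (2*q).choose q → (n : K) ≠ 0) :
    ∃ m : ℕ, ∀ m', m ≤ m' → ∀ _ : Sys K P m' q, False := by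
  obtain ⟨m, hm⟩ := endgame K P q hK
  exact ⟨m, fun m' h S => hm m' h (toEnd S)⟩

end Pool.Agent.DigitA
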