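import Mathlib
import Pool.Agent.DigitA.NoSys
import Pool.Agent.DigitA.Src
import Pool.Agent.DigitA.SysOf

open Finset

namespace Pool.Agent.DigitA

open Pool.Agent.SqrtDC

/-- the combinatorial core -/
theorem core (A p : ℕ) [Fact p.Prime] (hp : (8*A).choose (4*A) < p) : ∃ m y₀ : ℕ, ∀ y, y₀ ≤ y →
    ∀ (l t X : ℕ) (V V₀ : Finset ℕ) (r : ℕ → ℕ) (F : ℕ → ZMod p),
    Gr V r t (m+1) → t < y^(A+1) → t < 2^l → l^2 ≤ y → V₀ ⊆ V → #V ≤ 2 * #V₀ → y ≤ #V →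
    (∀ k, y^2 * #(V.filter (fun v => Jump V r y k v)) ≤ 10 * #V) →
    y * #(V.filter (fun v => 2 ≤ #(cl V r 20 v))) ≤ 2 * #V →
    (∀ v ∈ V, F v ≠ 0) →
    (∀ v ∈ V₀, 2*(m+1) * v + 2*(m+1)^2 * r 1 ≤ X) →
    (∀ σ, r 2 ≤ σ → σ ≤ X → ∃ α β : ℕ, α ≤ σ ∧ σ ≤ β ∧ σ ≤ α + r 1 ∧ β ≤ σ + r 1 ∧
      ∑ x ∈ (V ×ˢ V).filter (fun x => α ≤ x.1 + x.2 ∧ x.1 + x.2 ≤ β), F x.1 * F x.2 = 0) →
    False := by
  have hK : ∀ n : ℕ, 1 ≤ n → n ≤ (2*(4*A)).choose (4*A) → (n : ZMod p) ≠ 0 := by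
    intro n hn1 hn2 h0
    rw [ZMod.natCast_eq_zero_iff] at h0
    have h1 := Nat.le_of_dvd (by omega) h0
    have h2 : 2*(4*A) = 8*A := by ring
    rw [h2] at hn2
    omega
  obtain ⟨m, hm⟩ := no_sys (ZMod p) (Finset (Fin (12*(3*A+2)))) (4*A) hK
  obtain ⟨f, y₁, hf, hy₁⟩ := good_exists A m
  refine ⟨m, y₁ + (4*f^2+3)^2 + 2*(m+1) + 2, ?_⟩
  intro y hy l t X V V₀ r F hG hty htl hly hV0 hVV hyV hsp hiso hF hX hN1
  obtain ⟨v, hv0, hgood⟩ := hy₁ y (by omega) l t V V₀ r hG hty htl hly hV0 hVV hyV hsp hiso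
  have hz1 : 4*f^2+3 ≤ Nat.sqrt y := by
    rw [Nat.le_sqrt']
    omega
  have hz2 : Nat.sqrt y * Nat.sqrt y ≤ y := Nat.sqrt_le y
  have hz3 : y < (Nat.sqrt y + 1) * (Nat.sqrt y + 1) := Nat.lt_succ_sqrt y
  set z := Nat.sqrt y with hz
  have hyz : 4*f^2*z ≤ y := le_trans (Nat.mul_le_mul_right z (by omega)) hz2
  have hz4 : y ≤ z^3 := by
    have h1 : (z+1)*(z+1) ≤ z^3 := by
      have h3 : 3 ≤ z := by omega
      nlinarith [Nat.mul_le_mul h3 (le_refl (z*z)), h3]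
    omega
  have htz : t < z^(3*A+2+1) := by
    have h1 : z^(3*A+2+1) = (z^3)^(A+1) := by rw [← pow_mul]; ring_nf
    rw [h1]
    exact lt_of_lt_of_le hty (Nat.pow_le_pow_left hz4 _)
  obtain ⟨S⟩ := sys_of_good hG (p := p) (A := A) (A' := 3*A+2) (y := y) (f := f) (z := z) (X := X)
    (by omega) hty (by omega) hyz hf (by omega) htz F hF hgood
    (fun i => hX (v i) (hv0 i)) hN1
  exact hm (m+1) (by omega) S

end Pool.Agent.DigitA
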