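import Mathlib
import Pool.Agent.DigitA.Defs
import Pool.Agent.SqrtDC.Exact
import Pool.Agent.SqrtDC.Clus

open Finset

namespace Pool.Agent.DigitA

open Pool.Agent.SqrtDC

/-! ## Module Reg : regular position, many points, N1 -/

lemma reg_bern (z n : ℕ) : (z + n) * z^n ≤ z * (z+1)^n := by
  induction n with
  | zero => simp
  | succ n ih =>
    calc (z + (n+1)) * z^(n+1) = (z*(z + (n+1))) * z^n := by ring
      _ ≤ ((z+n)*(z+1)) * z^n := by
          apply Nat.mul_le_mul_right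
          nlinarith
      _ = ((z+n) * z^n) * (z+1) := by ring
      _ ≤ (z * (z+1)^n) * (z+1) := Nat.mul_le_mul_right _ ih
      _ = z * (z+1)^(n+1) := by ring

lemma reg_two (z : ℕ) (hz : 1 ≤ z) : 2 * z^z ≤ (z+1)^z := by
  have h := reg_bern z z
  have h' : z * (2 * z^z) ≤ z * (z+1)^z := by
    calc z * (2 * z^z) = (z + z) * z^z := by ring
      _ ≤ _ := h
  exact Nat.le_of_mul_le_mul_left h' hz

theorem regular (g : ℕ → ℕ) (hmono : Monotone g) (y l s c₁ : ℕ) (hpos : 1 ≤ g c₁) (hy : 1 ≤ y)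
    (hg : ∀ c, g c < 2^l) :
    ∃ c, c₁ ≤ c ∧ c ≤ c₁ + s*(y^3*l) ∧ y^3 * g (c+s) ≤ (y^3+1) * g c := by
  by_contra hcon
  push Not at hcon
  have hz : 1 ≤ y^3 := Nat.one_le_pow _ _ hy
  set z := y^3 with hzdef
  have key : ∀ j, j ≤ z*l → (z+1)^j ≤ z^j * g (c₁ + s*j) := by
    intro j
    induction j with
    | zero =>
      intro _
      simpa using hpos
    | succ j ih =>
      intro hj
      have h1 := ih (by omega)
      have h2 := hcon (c₁ + s*j) (by omega) (by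
        have : s*j ≤ s*(z*l) := Nat.mul_le_mul_left _ (by omega)
        omega)
      calc (z+1)^(j+1) = (z+1)^j * (z+1) := by ring
        _ ≤ (z^j * g (c₁ + s*j)) * (z+1) := Nat.mul_le_mul_right _ h1
        _ = z^j * ((z+1) * g (c₁ + s*j)) := by ring
        _ ≤ z^j * (z * g (c₁ + s*j + s)) := Nat.mul_le_mul_left _ h2.le
        _ = z^(j+1) * g (c₁ + s*(j+1)) := by
            rw [show c₁ + s*j + s = c₁ + s*(j+1) by ring]; ring
  have h1 := key (z*l) le_rfl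
  have h2 : 2^l * z^(z*l) ≤ (z+1)^(z*l) := by
    calc 2^l * z^(z*l) = (2 * z^z)^l := by rw [mul_pow, pow_mul]
      _ ≤ ((z+1)^z)^l := Nat.pow_le_pow_left (reg_two z hz) l
      _ = (z+1)^(z*l) := by rw [← pow_mul]
  have h3 : z^(z*l) * g (c₁ + s*(z*l)) < z^(z*l) * 2^l :=
    Nat.mul_lt_mul_of_pos_left (hg _) (Nat.pow_pos hz)
  have h4 : 2^l * z^(z*l) = z^(z*l) * 2^l := mul_comm _ _
  omega

theorem many_points (V : Finset ℕ) (N W k : ℕ) (hW : 1 ≤ W) (hD : Dyn V N W) (hN : 4^k * W ≤ N) :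
    k ≤ #(V.filter (fun x => x ≤ 4^k * W)) := by
  induction k with
  | zero => exact Nat.zero_le _
  | succ k ih =>
    have h4 : 4^(k+1) * W = 4 * (4^k * W) := by ring
    have hk : W ≤ 4^k * W := Nat.le_mul_of_pos_left _ (by positivity)
    obtain ⟨x, hx, hx1, hx2⟩ := hD.f1 (4^k * W) (by omega)
    have h1 := ih (by omega)
    have hsub : insert x (V.filter (fun x => x ≤ 4^k * W)) ⊆
        V.filter (fun x => x ≤ 4^(k+1) * W) := by
      intro y hy
      rw [Finset.mem_insert, Finset.mem_filter] at hy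
      rw [Finset.mem_filter]
      rcases hy with rfl | ⟨hy1, hy2⟩
      · exact ⟨hx, by omega⟩
      · exact ⟨hy1, by omega⟩
    have h2 := Finset.card_le_card hsub
    rw [Finset.card_insert_of_notMem (by
      rw [Finset.mem_filter]
      rintro ⟨_, h⟩
      omega)] at h2
    omega

theorem n1 (p : ℕ) [Fact p.Prime] (hp : p % 8 = 3 ∨ p % 8 = 5) (Λ N t γ W : ℕ)
    (hΛ : 2*N + 10 ≤ 2^Λ) (ht : #(E N) ≤ t) (hW : Λ*t^2 + 2*t^3*γ + 1 ≤ W) (σ : ℕ) (hσ : W ≤ σ)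
    (hσN : σ + W + Λ ≤ N) :
    ∃ α β : ℕ, α ≤ σ ∧ σ ≤ β ∧ σ ≤ α + W ∧ β ≤ σ + W ∧
      ∑ x ∈ ((vis (E N) (vv p) γ) ×ˢ (vis (E N) (vv p) γ)).filter
        (fun x => α ≤ x.1 + x.2 ∧ x.1 + x.2 ≤ β),
        mass (E N) (vv p) γ x.1 * mass (E N) (vv p) γ x.2 = 0 := by
  have hp2 : p ≠ 2 := by rintro rfl; omega
  have hco := coarse (E N) (zero_mem_E N) (vv p) 2 N Λ γ W t ht hW
    (fun R hR hgood => exact2_mod p hp2 R Λ N hR hΛ hgood)
  obtain ⟨R1, h1a, h1b, hs1⟩ := hco (σ - W) (by omega)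
  obtain ⟨R2, h2a, h2b, hs2⟩ := hco σ hσN
  refine ⟨R1 + 1, R2, by omega, h2a, by omega, by omega, ?_⟩
  set V := vis (E N) (vv p) γ with hV
  set mm := mass (E N) (vv p) γ with hmm
  have conv : ∀ R, ∑ z ∈ V, ∑ z' ∈ V.filter (fun z' => z + z' ≤ R), mm z * mm z'
      = ∑ q ∈ (V ×ˢ V).filter (fun q => q.1 + q.2 ≤ R), mm q.1 * mm q.2 := by
    intro R
    rw [Finset.sum_filter, Finset.sum_product]
    refine Finset.sum_congr rfl fun z _ => ?_
    rw [Finset.sum_filter]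
  rw [conv] at hs1 hs2
  have hsplit : (V ×ˢ V).filter (fun q => q.1 + q.2 ≤ R2)
      = (V ×ˢ V).filter (fun q => q.1 + q.2 ≤ R1) ∪
        (V ×ˢ V).filter (fun q => R1 + 1 ≤ q.1 + q.2 ∧ q.1 + q.2 ≤ R2) := by
    ext q
    simp only [Finset.mem_filter, Finset.mem_union]
    constructor
    · rintro ⟨hq, hle⟩
      by_cases h : q.1 + q.2 ≤ R1
      · exact Or.inl ⟨hq, h⟩
      · exact Or.inr ⟨hq, by omega, hle⟩
    · rintro (⟨hq, hle⟩ | ⟨hq, _, hle⟩)
      · exact ⟨hq, by omega⟩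
      · exact ⟨hq, hle⟩
  have hdisj : Disjoint ((V ×ˢ V).filter (fun q => q.1 + q.2 ≤ R1))
      ((V ×ˢ V).filter (fun q => R1 + 1 ≤ q.1 + q.2 ∧ q.1 + q.2 ≤ R2)) := by
    rw [Finset.disjoint_left]
    intro q h1 h2
    rw [Finset.mem_filter] at h1 h2
    have := h1.2
    have := h2.2.1
    omega
  rw [hsplit, Finset.sum_union hdisj, hs1] at hs2
  linear_combination hs2

end Pool.Agent.DigitA
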