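import Pool.Agent.DigitA.Cl

open Finset

namespace Pool.Agent.DigitA

open Pool.Agent.SqrtDC

namespace Spread

/-- counting over the clusters of `W` at scale `R`: if every point of `L` has `#cluster ≤ c * #(cluster \ I)`
then `#L ≤ c * #(W \ I)` -/
lemma card_by_clusters (W I L : Finset ℕ) (R c : ℕ) (hL : L ⊆ W)
    (h : ∀ v ∈ L, #(W.filter (fun u => stt W R u = stt W R v)) ≤
      c * #((W \ I).filter (fun u => stt W R u = stt W R v))) : #L ≤ c * #(W \ I) := by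
  classical
  rw [card_eq_sum_card_image (fun v => stt W R v) L]
  have h1 : ∀ x ∈ L.image (fun v => stt W R v), #(L.filter (fun v => stt W R v = x)) ≤
      c * #((W \ I).filter (fun u => stt W R u = x)) := by
    intro x hx
    obtain ⟨v, hv, rfl⟩ := mem_image.mp hx
    refine le_trans (card_le_card ?_) (h v hv)
    exact filter_subset_filter _ hL
  refine (sum_le_sum h1).trans ?_
  rw [← mul_sum]
  apply Nat.mul_le_mul_left
  rw [← card_biUnion]
  · exact card_le_card (by intro u hu; obtain ⟨x, _, hx⟩ := mem_biUnion.mp hu; exact (mem_filter.mp hx).1)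
  · intro x _ x' _ hne
    show Disjoint _ _
    rw [disjoint_left]
    intro u hu hu'
    exact hne ((mem_filter.mp hu).2.symm.trans (mem_filter.mp hu').2)

section main

variable {W V₀ : Finset ℕ} {ρ B t y J : ℕ} {θ : ℕ → ℕ → ℕ}

/-- the image of `V₀` under `θ j` -/
def I (V₀ : Finset ℕ) (θ : ℕ → ℕ → ℕ) (j : ℕ) : Finset ℕ := V₀.image (θ j)

lemma inj (hρ : 1 ≤ ρ) (hB : 10*(t+1) ≤ B)
    (hsep : ∀ j, 1 ≤ j → j ≤ J → ∀ u ∈ V₀, ∀ u' ∈ V₀, u < u' → 3 * θ j u + ρ*B^j ≤ 3 * θ j u')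
    {j : ℕ} (h1 : 1 ≤ j) (h2 : j ≤ J) : Set.InjOn (θ j) V₀ := by
  intro u hu u' hu' h
  have hpos : 1 ≤ ρ * B^j := Nat.succ_le_of_lt (Nat.mul_pos hρ (pow_pos (by omega) j))
  rcases lt_trichotomy u u' with hlt | heq | hgt
  · have := hsep j h1 h2 u hu u' hu' hlt
    simp only [h] at this; omega
  · exact heq
  · have := hsep j h1 h2 u' hu' u hu hgt
    simp only [h] at this; omega

lemma card_sdiff_I (hρ : 1 ≤ ρ) (hB : 10*(t+1) ≤ B)
    (hθ : ∀ j, 1 ≤ j → j ≤ J → ∀ u ∈ V₀, θ j u ∈ W ∧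
      |(θ j u : ℤ) - (B^j * u : ℕ)| ≤ (ρ*B^(j+1) : ℕ))
    (hsep : ∀ j, 1 ≤ j → j ≤ J → ∀ u ∈ V₀, ∀ u' ∈ V₀, u < u' → 3 * θ j u + ρ*B^j ≤ 3 * θ j u')
    (hcard : y^3 * #W ≤ (y^3+1) * #V₀) {j : ℕ} (h1 : 1 ≤ j) (h2 : j ≤ J) :
    y^3 * #(W \ I V₀ θ j) ≤ #W ∧ #V₀ ≤ #W := by
  have hsub : I V₀ θ j ⊆ W := by
    intro x hx
    obtain ⟨u, hu, rfl⟩ := mem_image.mp hx
    exact (hθ j h1 h2 u hu).1
  have hc : #(I V₀ θ j) = #V₀ := card_image_of_injOn (inj hρ hB hsep h1 h2)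
  have h3 : #V₀ ≤ #W := by rw [← hc]; exact card_le_card hsub
  refine ⟨?_, h3⟩
  have h4 : #(W \ I V₀ θ j) + #V₀ = #W := by
    rw [← hc]; exact card_sdiff_add_card_eq_card hsub
  have h5 : y^3 * #(W \ I V₀ θ j) + y^3 * #V₀ = y^3 * #W := by rw [← mul_add, h4]
  have h6 : (y^3+1) * #V₀ = y^3 * #V₀ + #V₀ := by ring
  omega

/-- points with a nontrivial cluster at level `J-1` -/
lemma low (hW : #W ≤ t) (hρ : 1 ≤ ρ) (hB : 10*(t+1) ≤ B)
    (hθ : ∀ j, 1 ≤ j → j ≤ J → ∀ u ∈ V₀, θ j u ∈ W ∧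
      |(θ j u : ℤ) - (B^j * u : ℕ)| ≤ (ρ*B^(j+1) : ℕ))
    (hsep : ∀ j, 1 ≤ j → j ≤ J → ∀ u ∈ V₀, ∀ u' ∈ V₀, u < u' → 3 * θ j u + ρ*B^j ≤ 3 * θ j u')
    (hcard : y^3 * #W ≤ (y^3+1) * #V₀) (hJ1 : 1 ≤ J) :
    y^3 * #(W.filter (fun v => 2 ≤ #(cl W (fun k => ρ*B^k) (J-1) v))) ≤ 2 * #W := by
  classical
  set L := W.filter (fun v => 2 ≤ #(cl W (fun k => ρ*B^k) (J-1) v)) with hL
  have key : #L ≤ 2 * #(W \ I V₀ θ J) := by
    apply card_by_clusters W (I V₀ θ J) L (ρ*B^(J-1)) 2 (filter_subset _ _)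
    intro v hv
    have hv' := (mem_filter.mp hv)
    have hcl : W.filter (fun u => stt W (ρ*B^(J-1)) u = stt W (ρ*B^(J-1)) v) =
        cl W (fun k => ρ*B^k) (J-1) v := rfl
    rw [hcl]
    set Y := cl W (fun k => ρ*B^k) (J-1) v with hY
    have hsplit : #Y = #(Y ∩ I V₀ θ J) + #(Y \ I V₀ θ J) :=
      (card_inter_add_card_sdiff Y (I V₀ θ J)).symm
    have hone : #(Y ∩ I V₀ θ J) ≤ 1 := by
      rw [card_le_one]
      intro a ha b hb
      rw [mem_inter] at ha hb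
      obtain ⟨u, hu, rfl⟩ := mem_image.mp ha.2
      obtain ⟨u', hu', rfl⟩ := mem_image.mp hb.2
      -- distance at most t * r (J-1), but separated by r J / 3
      have hd : ∀ u ∈ V₀, ∀ u' ∈ V₀, θ J u ∈ Y → θ J u' ∈ Y → ¬ u < u' := by
        intro u hu u' hu' ha hb hlt
        have hs := hsep J hJ1 le_rfl u hu u' hu' hlt
        have h1 : θ J u' ∈ cl W (fun k => ρ*B^k) (J-1) (θ J u) := by
          rw [cl_eq ha]; exact hb
        have h2 := dist_of_mem_cl hW (cl_sub _ _ ha) h1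
        have h3 : B^J = B * B^(J-1) := by rw [← pow_succ']; congr 1; omega
        have h4 : (10*(t+1)) * (ρ * B^(J-1)) ≤ ρ * B^J := by
          rw [h3]
          calc (10*(t+1)) * (ρ * B^(J-1)) ≤ B * (ρ * B^(J-1)) := Nat.mul_le_mul_right _ hB
            _ = _ := by ring
        have h5 : 0 < ρ * B^(J-1) := Nat.mul_pos hρ (pow_pos (by omega) _)
        have h6 := (abs_le.mp h2).2
        have h7 : (θ J u' : ℤ) ≤ θ J u + ((t * (ρ * B^(J-1)) : ℕ) : ℤ) := by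
          push_cast at h6 ⊢; linarith
        have h8 : θ J u' ≤ θ J u + t * (ρ * B^(J-1)) := by exact_mod_cast h7
        have h9 : (10*(t+1)) * (ρ * B^(J-1)) = 10 * (t * (ρ * B^(J-1))) + 10 * (ρ * B^(J-1)) := by ring
        omega
      rcases lt_trichotomy u u' with h | h | h
      · exact absurd h (hd u hu u' hu' ha.1 hb.1)
      · rw [h]
      · exact absurd h (hd u' hu' u hu hb.1 ha.1)
    have hsd : (W \ I V₀ θ J).filter (fun u => stt W (ρ*B^(J-1)) u = stt W (ρ*B^(J-1)) v) =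
        Y \ I V₀ θ J := by
      ext x
      simp only [hY, mem_filter, mem_sdiff, mem_cl]
      tauto
    rw [hsd]
    have := hv'.2
    omega
  have h1 := (card_sdiff_I (y := y) hρ hB hθ hsep hcard hJ1 le_rfl).1
  calc y^3 * #L ≤ y^3 * (2 * #(W \ I V₀ θ J)) := Nat.mul_le_mul_left _ key
    _ = 2 * (y^3 * #(W \ I V₀ θ J)) := by ring
    _ ≤ 2 * #W := Nat.mul_le_mul_left _ h1

set_option maxHeartbeats 1000000 in
/-- comparison of the clusters of `θ j u` in `W` with those of `u` in `V₀` -/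
lemma compare (hW : #W ≤ t) (hρ : 1 ≤ ρ) (hB : 10*(t+1) ≤ B)
    (hθ : ∀ j, 1 ≤ j → j ≤ J → ∀ u ∈ V₀, θ j u ∈ W ∧
      |(θ j u : ℤ) - (B^j * u : ℕ)| ≤ (ρ*B^(j+1) : ℕ))
    (hsep : ∀ j, 1 ≤ j → j ≤ J → ∀ u ∈ V₀, ∀ u' ∈ V₀, u < u' → 3 * θ j u + ρ*B^j ≤ 3 * θ j u')
    (hVW : #V₀ ≤ #W) {j k u : ℕ} (h1 : 1 ≤ j) (h2 : j ≤ J) (hjk : j + 2 ≤ k) (hu : u ∈ V₀) :
    #(cl W (fun k => ρ*B^k) (k+12) (θ j u) ∩ I V₀ θ j) ≤ #(cl V₀ (fun k => ρ*B^k) (k-1-j+14) u) ∧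
    #(cl V₀ (fun k => ρ*B^k) (k-1-j) u) ≤ #(cl W (fun k => ρ*B^k) k (θ j u)) := by
  classical
  have hBpos : 0 < B := by omega
  have hBz : (0:ℤ) < B := by exact_mod_cast hBpos
  have hρz : (1:ℤ) ≤ ρ := by exact_mod_cast hρ
  have hBt : 10*((t:ℤ)+1) ≤ B := by exact_mod_cast hB
  have hinj := inj hρ hB hsep h1 h2
  have hb : ∀ i, (0:ℤ) < (B:ℤ)^i := fun i => pow_pos hBz i
  constructor
  · have hsub : cl W (fun k => ρ*B^k) (k+12) (θ j u) ∩ I V₀ θ j ⊆
        (cl V₀ (fun k => ρ*B^k) (k-1-j+14) u).image (θ j) := by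
      intro x hx
      rw [mem_inter] at hx
      obtain ⟨u', hu', rfl⟩ := mem_image.mp hx.2
      apply mem_image_of_mem
      apply mem_cl_of_near hu' hu
      have hd := dist_of_mem_cl hW (hθ j h1 h2 u hu).1 hx.1
      have e1 := (hθ j h1 h2 u hu).2
      have e2 := (hθ j h1 h2 u' hu').2
      push_cast at hd e1 e2 ⊢
      rw [abs_le] at hd e1 e2 ⊢
      -- B^j * |u' - u| ≤ t ρ B^(k+12) + 2 ρ B^(j+1) ≤ B^j * (ρ * B^(k+13-j))
      have hk : (B:ℤ)^(k+12) = (B:ℤ)^j * (B:ℤ)^(k-1-j+13) := by rw [← pow_add]; congr 1; omega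
      have hk' : (B:ℤ)^(k-1-j+14) = B * (B:ℤ)^(k-1-j+13) := by rw [← pow_succ']
      have hk'' : (B:ℤ)^(j+1) = (B:ℤ)^j * B := pow_succ _ _
      have hBle : (B:ℤ) ≤ (B:ℤ)^(k-1-j+13) := by
        calc (B:ℤ) = (B:ℤ)^1 := (pow_one _).symm
          _ ≤ _ := pow_le_pow_right₀ (by linarith) (by omega)
      have hP := hb (k-1-j+13)
      set P := (B:ℤ)^(k-1-j+13) with hPdef
      have hQ := hb j
      set Q := (B:ℤ)^j with hQdef
      rw [hk] at hd
      rw [hk''] at e1 e2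
      have main : (t:ℤ) * (ρ * (Q * P)) + 2 * (ρ * (Q * B)) ≤ Q * (ρ * (B * P)) := by
        have a1 : (t:ℤ) * P + 2 * B ≤ B * P := by nlinarith
        have a2 : (ρ:ℤ) * Q * ((t:ℤ) * P + 2 * B) ≤ ρ * Q * (B * P) := by
          apply mul_le_mul_of_nonneg_left a1; positivity
        nlinarith
      rw [hk']
      constructor
      · have : Q * (-(ρ * (B * P))) ≤ Q * ((u':ℤ) - u) := by nlinarith
        exact le_of_mul_le_mul_left this hQ
      · have : Q * ((u':ℤ) - u) ≤ Q * (ρ * (B * P)) := by nlinarith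
        exact le_of_mul_le_mul_left this hQ
    exact (card_le_card hsub).trans card_image_le
  · have hsub : (cl V₀ (fun k => ρ*B^k) (k-1-j) u).image (θ j) ⊆ cl W (fun k => ρ*B^k) k (θ j u) := by
      intro x hx
      obtain ⟨u', hu', rfl⟩ := mem_image.mp hx
      have hu'V := cl_sub _ _ hu'
      apply mem_cl_of_near (hθ j h1 h2 u' hu'V).1 (hθ j h1 h2 u hu).1
      have hd := dist_of_mem_cl (hVW.trans hW) hu hu'
      have e1 := (hθ j h1 h2 u hu).2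
      have e2 := (hθ j h1 h2 u' hu'V).2
      push_cast at hd e1 e2 ⊢
      rw [abs_le] at hd e1 e2 ⊢
      have hk : (B:ℤ)^k = B * ((B:ℤ)^j * (B:ℤ)^(k-1-j)) := by
        rw [← pow_add, ← pow_succ']; congr 1; omega
      have hk'' : (B:ℤ)^(j+1) = (B:ℤ)^j * B := pow_succ _ _
      have hBle : (B:ℤ) ≤ (B:ℤ)^(k-1-j) := by
        calc (B:ℤ) = (B:ℤ)^1 := (pow_one _).symm
          _ ≤ _ := pow_le_pow_right₀ (by linarith) (by omega)
      have hP := hb (k-1-j)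
      set P := (B:ℤ)^(k-1-j) with hPdef
      have hQ := hb j
      set Q := (B:ℤ)^j with hQdef
      rw [hk''] at e1 e2
      rw [hk]
      have main : (t:ℤ) * (Q * (ρ * P)) + 2 * (ρ * (Q * B)) ≤ ρ * (B * (Q * P)) := by
        have a1 : (t:ℤ) * P + 2 * B ≤ B * P := by nlinarith
        have a2 : (ρ:ℤ) * Q * ((t:ℤ) * P + 2 * B) ≤ ρ * Q * (B * P) := by
          apply mul_le_mul_of_nonneg_left a1; positivity
        nlinarith
      have d1 : Q * ((u':ℤ) - u) ≤ Q * (t * (ρ * P)) := mul_le_mul_of_nonneg_left hd.2 hQ.le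
      have d2 : Q * (-(t * (ρ * P))) ≤ Q * ((u':ℤ) - u) := mul_le_mul_of_nonneg_left hd.1 hQ.le
      constructor <;> linarith [d1, d2, main, e1.1, e1.2, e2.1, e2.2]
    calc #(cl V₀ (fun k => ρ*B^k) (k-1-j) u)
        = #((cl V₀ (fun k => ρ*B^k) (k-1-j) u).image (θ j)) := by
          symm; apply card_image_of_injOn
          exact hinj.mono (by exact_mod_cast cl_sub _ _)
      _ ≤ _ := card_le_card hsub

/-- levels at which the cluster of `u` in `V₀` grows -/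
def U (V₀ : Finset ℕ) (ρ B y k j : ℕ) : Finset ℕ :=
  V₀.filter (fun u => (2*y+1) * #(cl V₀ (fun k => ρ*B^k) (k-1-j) u) ≤
    2*y * #(cl V₀ (fun k => ρ*B^k) (k-1-j+14) u))

/-- one fixed `j` -/
lemma high_one (hW : #W ≤ t) (hρ : 1 ≤ ρ) (hB : 10*(t+1) ≤ B)
    (hθ : ∀ j, 1 ≤ j → j ≤ J → ∀ u ∈ V₀, θ j u ∈ W ∧
      |(θ j u : ℤ) - (B^j * u : ℕ)| ≤ (ρ*B^(j+1) : ℕ))
    (hsep : ∀ j, 1 ≤ j → j ≤ J → ∀ u ∈ V₀, ∀ u' ∈ V₀, u < u' → 3 * θ j u + ρ*B^j ≤ 3 * θ j u')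
    (hcard : y^3 * #W ≤ (y^3+1) * #V₀) {j k : ℕ} (h1 : 1 ≤ j) (h2 : j ≤ J) (hjk : j + 2 ≤ k) :
    y^3 * #(W.filter (fun v => Jump W (fun k => ρ*B^k) y k v)) ≤
      (1 + 4*y) * #W + y^3 * #(U V₀ ρ B y k j) := by
  classical
  obtain ⟨hc1, hc2⟩ := card_sdiff_I (y := y) hρ hB hθ hsep hcard h1 h2
  set S := W.filter (fun v => Jump W (fun k => ρ*B^k) y k v) with hS
  set L := W.filter (fun v => #(cl W (fun k => ρ*B^k) (k+12) v) ≤
    4*y * #(cl W (fun k => ρ*B^k) (k+12) v \ I V₀ θ j)) with hL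
  have hLcard : #L ≤ 4*y * #(W \ I V₀ θ j) := by
    apply card_by_clusters W (I V₀ θ j) L (ρ*B^(k+12)) (4*y) (filter_subset _ _)
    intro v hv
    have hv' := (mem_filter.mp hv)
    have hcl : W.filter (fun u => stt W (ρ*B^(k+12)) u = stt W (ρ*B^(k+12)) v) =
        cl W (fun k => ρ*B^k) (k+12) v := rfl
    have hsd : (W \ I V₀ θ j).filter (fun u => stt W (ρ*B^(k+12)) u = stt W (ρ*B^(k+12)) v) =
        cl W (fun k => ρ*B^k) (k+12) v \ I V₀ θ j := by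
      ext x
      simp only [mem_filter, mem_sdiff, mem_cl]
      tauto
    rw [hcl, hsd]
    exact hv'.2
  have hsub : S ⊆ (W \ I V₀ θ j) ∪ L ∪ (U V₀ ρ B y k j).image (θ j) := by
    intro v hv
    obtain ⟨hvW, hvJ⟩ := mem_filter.mp hv
    by_cases hvI : v ∈ I V₀ θ j
    · obtain ⟨u, hu, rfl⟩ := mem_image.mp hvI
      by_cases hvL : θ j u ∈ L
      · exact mem_union_left _ (mem_union_right _ hvL)
      · apply mem_union_right
        apply mem_image_of_mem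
        refine mem_filter.mpr ⟨hu, ?_⟩
        have hnot : 4*y * #(cl W (fun k => ρ*B^k) (k+12) (θ j u) \ I V₀ θ j) <
            #(cl W (fun k => ρ*B^k) (k+12) (θ j u)) := by
          by_contra hcon
          exact hvL (mem_filter.mpr ⟨hvW, not_lt.mp hcon⟩)
        obtain ⟨q1, q2⟩ := compare hW hρ hB hθ hsep hc2 h1 h2 hjk hu
        have hsplit : #(cl W (fun k => ρ*B^k) (k+12) (θ j u)) =
            #(cl W (fun k => ρ*B^k) (k+12) (θ j u) ∩ I V₀ θ j) +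
            #(cl W (fun k => ρ*B^k) (k+12) (θ j u) \ I V₀ θ j) :=
          (card_inter_add_card_sdiff _ _).symm
        unfold Jump at hvJ
        set Y := #(cl W (fun k => ρ*B^k) (k+12) (θ j u)) with hY
        set e := #(cl W (fun k => ρ*B^k) (k+12) (θ j u) \ I V₀ θ j) with he
        set c2 := #(cl V₀ (fun k => ρ*B^k) (k-1-j+14) u) with hc2'
        set c1 := #(cl V₀ (fun k => ρ*B^k) (k-1-j) u) with hc1'
        set c0 := #(cl W (fun k => ρ*B^k) k (θ j u)) with hc0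
        have hy : 1 ≤ y := by
          rcases Nat.eq_zero_or_pos y with h | h
          · subst h
            have : 0 < c0 := card_pos.mpr ⟨θ j u, self_mem_cl hvW⟩
            simp at hvJ; omega
          · exact h
        have g1 : (y+1) * c1 ≤ y * Y := (Nat.mul_le_mul_left _ q2).trans hvJ
        have g2 : Y ≤ c2 + e := by omega
        -- 2(2y+1) c1 ≤ (4y-1) Y < 4 y c2
        have g3 : 4*y*Y ≤ 4*y*c2 + 4*y*e := by rw [← mul_add]; exact Nat.mul_le_mul_left _ g2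
        have g4 : 4*y*Y < 4*y*c2 + Y := by omega
        -- (y+1) * (2 * (2y+1) * c1) ≤ (4y^2+2y) Y ≤ (y+1)(4y-1)Y
        zify at g1 g4 hy ⊢
        have g5 : ((y:ℤ)+1) * (2*(2*y+1)*c1) ≤ (y+1) * ((4*y-1)*Y) := by
          have : (2*(2*(y:ℤ)+1)) * ((y+1)*c1) ≤ (2*(2*y+1)) * (y*Y) := by
            apply mul_le_mul_of_nonneg_left g1; positivity
          have hYn : (0:ℤ) ≤ Y := by positivity
          nlinarith
        have g6 : 2*(2*(y:ℤ)+1)*c1 ≤ (4*y-1)*Y := le_of_mul_le_mul_left g5 (by positivity)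
        nlinarith
    · exact mem_union_left _ (mem_union_left _ (mem_sdiff.mpr ⟨hvW, hvI⟩))
  have hcardS : #S ≤ #(W \ I V₀ θ j) + #L + #(U V₀ ρ B y k j) := by
    refine (card_le_card hsub).trans ((card_union_le _ _).trans ?_)
    have := card_union_le (W \ I V₀ θ j) L
    have := card_image_le (s := U V₀ ρ B y k j) (f := θ j)
    omega
  calc y^3 * #S ≤ y^3 * (#(W \ I V₀ θ j) + #L + #(U V₀ ρ B y k j)) := Nat.mul_le_mul_left _ hcardS
    _ ≤ y^3 * (#(W \ I V₀ θ j) + 4*y * #(W \ I V₀ θ j) + #(U V₀ ρ B y k j)) := by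
        apply Nat.mul_le_mul_left; omega
    _ = (1+4*y) * (y^3 * #(W \ I V₀ θ j)) + y^3 * #(U V₀ ρ B y k j) := by ring
    _ ≤ _ := by
        have := Nat.mul_le_mul_left (1+4*y) hc1
        omega

lemma U_sum (hV : #V₀ ≤ t) {l : ℕ} (htl : t < 2^l) (hy : 28*l ≤ y) (hy1 : 1 ≤ y) (hB : 1 ≤ B) (k : ℕ)
    (hk : y^4 + 2 ≤ k) :
    ∑ j ∈ Icc 1 (y^4), #(U V₀ ρ B y k j) ≤ y^2 * #V₀ := by
  classical
  have e1 : ∀ j, #(U V₀ ρ B y k j) = ∑ u ∈ V₀, if (2*y+1) * #(cl V₀ (fun k => ρ*B^k) (k-1-j) u) ≤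
      2*y * #(cl V₀ (fun k => ρ*B^k) (k-1-j+14) u) then 1 else 0 := by
    intro j; unfold U; rw [card_filter]
  simp_rw [e1]
  rw [sum_comm]
  have hr : Monotone (fun k => ρ*B^k) := by
    intro a b hab
    exact Nat.mul_le_mul_left _ (Nat.pow_le_pow_right hB hab)
  have h2 : ∀ u ∈ V₀, ∑ j ∈ Icc 1 (y^4), (if (2*y+1) * #(cl V₀ (fun k => ρ*B^k) (k-1-j) u) ≤
      2*y * #(cl V₀ (fun k => ρ*B^k) (k-1-j+14) u) then 1 else 0) ≤ y^2 := by
    intro u hu
    rw [← card_filter]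
    set s := (Icc 1 (y^4)).filter (fun j => (2*y+1) * #(cl V₀ (fun k => ρ*B^k) (k-1-j) u) ≤
      2*y * #(cl V₀ (fun k => ρ*B^k) (k-1-j+14) u)) with hs
    have hinj : Set.InjOn (fun j => k-1-j) s := by
      intro a ha b hb hab
      have ha' := (mem_Icc.mp (mem_filter.mp ha).1)
      have hb' := (mem_Icc.mp (mem_filter.mp hb).1)
      simp only at hab
      omega
    have h3 : #s = #(s.image (fun j => k-1-j)) := (card_image_of_injOn hinj).symm
    rw [h3]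
    have h4 := count_jump (V := V₀) (r := fun k => ρ*B^k) (t := t) hr hV (y := 2*y) (l := l)
      (by omega) htl hu 14 (s.image (fun j => k-1-j)) (by
        intro k' hk'
        obtain ⟨j, hj, rfl⟩ := mem_image.mp hk'
        exact (mem_filter.mp hj).2)
    refine h4.trans ?_
    calc 14*(2*y*l) = y * (28*l) := by ring
      _ ≤ y * y := Nat.mul_le_mul_left _ hy
      _ = y^2 := by ring
  calc _ ≤ ∑ u ∈ V₀, y^2 := sum_le_sum h2
    _ = y^2 * #V₀ := by rw [sum_const, smul_eq_mul, mul_comm]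

end main

end Spread

open Spread in
theorem spread (W V₀ : Finset ℕ) (ρ B t l y J : ℕ) (θ : ℕ → ℕ → ℕ) (hW : #W ≤ t) (htl : t < 2^l)
    (hy : 28*l ≤ y) (hy1 : 2 ≤ y) (hρ : 1 ≤ ρ) (hB : 10*(t+1) ≤ B) (hJ : y^4 + 40 ≤ J)
    (hθ : ∀ j, 1 ≤ j → j ≤ J → ∀ u ∈ V₀, θ j u ∈ W ∧ |(θ j u : ℤ) - (B^j * u : ℕ)| ≤ (ρ*B^(j+1) : ℕ))
    (hsep : ∀ j, 1 ≤ j → j ≤ J → ∀ u ∈ V₀, ∀ u' ∈ V₀, u < u' → 3 * θ j u + ρ*B^j ≤ 3 * θ j u')
    (hcard : y^3 * #W ≤ (y^3+1) * #V₀) :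
    (∀ k, y^2 * #(W.filter (fun v => Jump W (fun k => ρ*B^k) y k v)) ≤ 10 * #W) ∧
    y * #(W.filter (fun v => 2 ≤ #(cl W (fun k => ρ*B^k) 20 v))) ≤ 2 * #W := by
  classical
  have hr : Monotone (fun k => ρ*B^k) := by
    intro a b hab
    exact Nat.mul_le_mul_left _ (Nat.pow_le_pow_right (by omega) hab)
  have hlow := low (y := y) hW hρ hB hθ hsep hcard (by omega)
  have hycube : y ≤ y^3 := Nat.le_self_pow (by norm_num) y
  have hysq : y^2 ≤ y^3 := Nat.pow_le_pow_right (by omega) (by norm_num)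
  refine ⟨?_, ?_⟩
  · intro k
    by_cases hk : k + 12 ≤ J - 1
    · have hsub : W.filter (fun v => Jump W (fun k => ρ*B^k) y k v) ⊆
          W.filter (fun v => 2 ≤ #(cl W (fun k => ρ*B^k) (J-1) v)) := by
        intro v hv
        obtain ⟨hvW, hvJ⟩ := mem_filter.mp hv
        refine mem_filter.mpr ⟨hvW, ?_⟩
        have h1 : 1 ≤ #(cl W (fun k => ρ*B^k) k v) := card_pos.mpr ⟨v, self_mem_cl hvW⟩
        have h2 : #(cl W (fun k => ρ*B^k) (k+12) v) ≤ #(cl W (fun k => ρ*B^k) (J-1) v) :=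
          card_le_card (cl_mono hr hk)
        unfold Jump at hvJ
        by_contra hcon
        push Not at hcon
        have h3 : #(cl W (fun k => ρ*B^k) (k+12) v) ≤ 1 := by omega
        have h4 : y * #(cl W (fun k => ρ*B^k) (k+12) v) ≤ y * 1 := Nat.mul_le_mul_left _ h3
        have h5 : (y+1) * 1 ≤ (y+1) * #(cl W (fun k => ρ*B^k) k v) := Nat.mul_le_mul_left _ h1
        omega
      have h1 := card_le_card hsub
      calc y^2 * #(W.filter (fun v => Jump W (fun k => ρ*B^k) y k v))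
          ≤ y^3 * #(W.filter (fun v => 2 ≤ #(cl W (fun k => ρ*B^k) (J-1) v))) :=
            Nat.mul_le_mul hysq h1
        _ ≤ 2 * #W := hlow
        _ ≤ 10 * #W := by omega
    · -- high levels
      set S := #(W.filter (fun v => Jump W (fun k => ρ*B^k) y k v)) with hS
      have hone : ∀ j ∈ Icc 1 (y^4), y^3 * S ≤ (1+4*y) * #W + y^3 * #(U V₀ ρ B y k j) := by
        intro j hj
        rw [mem_Icc] at hj
        exact high_one hW hρ hB hθ hsep hcard hj.1 (by omega) (by omega)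
      have hVW : #V₀ ≤ #W := (card_sdiff_I (y := y) hρ hB hθ hsep hcard (j := 1) le_rfl (by omega)).2
      have hsum := sum_le_sum hone
      rw [sum_const, Nat.card_Icc, smul_eq_mul, sum_add_distrib, sum_const, Nat.card_Icc, smul_eq_mul,
        ← mul_sum] at hsum
      have hU := U_sum (ρ := ρ) (B := B) (hVW.trans hW) htl hy (by omega) (by omega) k (by omega)
      have h1 : y^4 + 1 - 1 = y^4 := by omega
      rw [h1] at hsum
      have h2 : y^3 * ∑ j ∈ Icc 1 (y^4), #(U V₀ ρ B y k j) ≤ y^3 * (y^2 * #W) :=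
        Nat.mul_le_mul_left _ (hU.trans (Nat.mul_le_mul_left _ hVW))
      have h3 : y^4 * (y^3 * S) ≤ y^4 * ((1+4*y) * #W) + y^3 * (y^2 * #W) := by omega
      have h4 : y^4 * (y^3 * S) ≤ y^4 * ((1+5*y) * #W) := by
        refine h3.trans (le_of_eq ?_); ring
      have h5 : y^3 * S ≤ (1+5*y) * #W := Nat.le_of_mul_le_mul_left h4 (by positivity)
      have h6 : y * (y^2 * S) ≤ y * (10 * #W) := by
        calc y * (y^2 * S) = y^3 * S := by ring
          _ ≤ (1+5*y) * #W := h5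
          _ ≤ (10*y) * #W := Nat.mul_le_mul_right _ (by omega)
          _ = y * (10 * #W) := by ring
      exact Nat.le_of_mul_le_mul_left h6 (by omega)
  · have hsub : W.filter (fun v => 2 ≤ #(cl W (fun k => ρ*B^k) 20 v)) ⊆
        W.filter (fun v => 2 ≤ #(cl W (fun k => ρ*B^k) (J-1) v)) := by
      intro v hv
      obtain ⟨hvW, hv2⟩ := mem_filter.mp hv
      refine mem_filter.mpr ⟨hvW, hv2.trans (card_le_card (cl_mono hr (by omega)))⟩
    exact (Nat.mul_le_mul hycube (card_le_card hsub)).trans hlow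

end Pool.Agent.DigitA
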