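import Mathlib
import Pool.Agent.DigitA.Defs

open Finset

namespace Pool.Agent.DigitA

section final

variable {K P : Type} [Field K] [Inhabited P] [DecidableEq P] {N₀ q : ℕ}

/-- support of the code of `w` -/
def supp (S : Sys K P N₀ q) (w : ℕ) : Finset ℕ :=
  (range N₀).filter (fun j => S.code w j ≠ default)

/-- reduced code: the `i`-th letter is the letter at the `i`-th element of the support -/
noncomputable def red (S : Sys K P N₀ q) (w : ℕ) : Fin q → P :=
  fun i => if h : (i : ℕ) < #(supp S w) then S.code w ((supp S w).orderEmbOfFin rfl ⟨i, h⟩)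
    else default

open scoped Classical in
/-- elements with support `J` generated by at most `h` sources -/
noncomputable def Wh (S : Sys K P N₀ q) (h : ℕ) (J : Finset ℕ) : Finset ℕ :=
  (S.W (range N₀)).filter (fun w => supp S w = J ∧ ∃ T ⊆ range N₀, #T ≤ h ∧ w ∈ S.W T)

/-- admissible supports -/
def Adm (N₀ g : ℕ) (J : Finset ℕ) : Prop := ∀ x ∈ J, g ∣ x ∧ 0 < x ∧ x + g ≤ N₀

/-- `h` is a stable size with maximal support size `s` -/
structure Stab (S : Sys K P N₀ q) (h s : ℕ) : Prop where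
  s1 : 1 ≤ s
  sq : s ≤ q
  le : ∀ T ⊆ range N₀, #T ≤ 2*h → ∀ w ∈ S.W T, #(supp S w) ≤ s
  ex : ∃ T ⊆ range N₀, #T ≤ h ∧ ∃ w ∈ S.W T, #(supp S w) = s
  red : ∀ T ⊆ range N₀, #T ≤ 2*h → ∀ u ∈ S.W T, ∃ T₁ ⊆ range N₀, #T₁ ≤ h ∧ ∃ w ∈ S.W T₁,
    #(supp S w) = #(supp S u) ∧ red S w = red S u

end final

end Pool.Agent.DigitA
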