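import Mathlib

open Finset

namespace Pool.Agent.DigitA

/-! ## Module Room -/

/-- order isomorphism between finite sets of the same size -/
lemma exists_strictMonoOn (J₁ J : Finset ℕ) (hc : #J₁ = #J) :
    ∃ ψ : ℕ → ℕ, StrictMonoOn ψ J₁ ∧ J₁.image ψ = J ∧ (J₁ = J → ∀ x ∈ J₁, ψ x = x) := by
  classical
  by_cases hJ : J₁ = J
  · refine ⟨id, strictMono_id.strictMonoOn _, by rw [Finset.image_id, hJ], fun _ _ _ => rfl⟩
  · let e : J₁ ≃o J := (J₁.orderIsoOfFin hc).symm.trans (J.orderIsoOfFin rfl)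
    refine ⟨fun x => if h : x ∈ J₁ then (e ⟨x, h⟩ : ℕ) else 0, ?_, ?_, fun h => absurd h hJ⟩
    · intro x hx y hy hxy
      have hx' : x ∈ J₁ := hx
      have hy' : y ∈ J₁ := hy
      simp only [hx', hy', dif_pos]
      have : e ⟨x, hx'⟩ < e ⟨y, hy'⟩ := e.strictMono (by exact hxy)
      exact this
    · ext z
      simp only [Finset.mem_image]
      constructor
      · rintro ⟨x, hx, rfl⟩
        rw [dif_pos hx]
        exact (e ⟨x, hx⟩).2
      · intro hz
        refine ⟨(e.symm ⟨z, hz⟩ : ℕ), (e.symm ⟨z, hz⟩).2, ?_⟩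
        rw [dif_pos (e.symm ⟨z, hz⟩).2]
        simp

theorem room (N₀ g h : ℕ) (hg : 2*h+2 ≤ g) (hN : g ≤ N₀) (hg2 : 2 ∣ g) (T J₁ J : Finset ℕ) (ε : ℕ) (hε : ε < 2)
    (hT : #T ≤ h) (hJT : J₁ ⊆ T) (hJ : ∀ x ∈ J, g ∣ x ∧ 0 < x ∧ x + g ≤ N₀) (hc : #J₁ = #J) :
    ∃ φ : ℕ → ℕ, StrictMonoOn φ T ∧ (∀ x ∈ T, φ x < N₀) ∧ J₁.image φ = J ∧
      (∀ x ∈ T, x ∉ J₁ → 2 ≤ φ x % g ∧ φ x % 2 = ε) ∧ (J₁ = J → ∀ x ∈ J₁, φ x = x) := by
  classical
  obtain ⟨ψ, hψ, himg, hid⟩ := exists_strictMonoOn J₁ J hc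
  have hψJ : ∀ x ∈ J₁, ψ x ∈ J := fun x hx => by
    rw [← himg]; exact Finset.mem_image_of_mem ψ hx
  set base : ℕ → ℕ := fun x => (J₁.filter (fun k => k ≤ x)).sup ψ with hbase
  have hmono : ∀ x y, x ≤ y → base x ≤ base y := by
    intro x y hxy
    apply Finset.sup_mono
    intro k hk
    rw [Finset.mem_filter] at hk ⊢
    exact ⟨hk.1, hk.2.trans hxy⟩
  have hcase : ∀ x, base x = 0 ∨ base x ∈ J := by
    intro x
    by_cases hne : (J₁.filter (fun k => k ≤ x)).Nonempty
    · right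
      obtain ⟨k, hk, hk'⟩ := Finset.exists_mem_eq_sup _ hne ψ
      have : base x = ψ k := hk'
      rw [this]
      exact hψJ k (Finset.mem_filter.1 hk).1
    · left
      rw [Finset.not_nonempty_iff_eq_empty] at hne
      simp only [hbase, hne, Finset.sup_empty, Nat.bot_eq_zero]
  have hdvd : ∀ x, g ∣ base x := by
    intro x
    rcases hcase x with h0 | h0
    · rw [h0]; exact dvd_zero g
    · exact (hJ _ h0).1
  have hbN : ∀ x, base x + g ≤ N₀ := by
    intro x
    rcases hcase x with h0 | h0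
    · rw [h0]; omega
    · exact (hJ _ h0).2.2
  have hbJ : ∀ x ∈ J₁, base x = ψ x := by
    intro x hx
    apply le_antisymm
    · apply Finset.sup_le
      intro k hk
      rw [Finset.mem_filter] at hk
      exact hψ.monotoneOn hk.1 hx hk.2
    · exact Finset.le_sup (f := ψ) (Finset.mem_filter.2 ⟨hx, le_refl x⟩)
  have hlt : ∀ x y, x < y → y ∈ J₁ → base x < base y := by
    intro x y hxy hy
    rw [hbJ y hy]
    have hpos : 0 < ψ y := (hJ _ (hψJ y hy)).2.1
    rw [hbase]
    simp only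
    rw [Finset.sup_lt_iff hpos]
    intro k hk
    rw [Finset.mem_filter] at hk
    exact hψ hk.1 hy (lt_of_le_of_lt hk.2 hxy)
  have hstep : ∀ x y, base x < base y → base x + g ≤ base y := by
    intro x y hxy
    obtain ⟨a, ha⟩ := hdvd x
    obtain ⟨b, hb⟩ := hdvd y
    rw [ha, hb] at hxy ⊢
    have hgpos : 0 < g := by omega
    have hab : a < b := lt_of_mul_lt_mul_left hxy (Nat.zero_le g)
    calc g * a + g = g * (a+1) := by ring
      _ ≤ g * b := Nat.mul_le_mul_left g hab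
  set rk : ℕ → ℕ := fun x => #(T.filter (fun x' => x' < x ∧ base x' = base x)) with hrk
  have hrkh : ∀ x ∈ T, rk x + 1 ≤ h := by
    intro x hx
    have h1 : T.filter (fun x' => x' < x ∧ base x' = base x) ⊆ T.erase x := by
      intro z hz
      rw [Finset.mem_filter] at hz
      exact Finset.mem_erase.2 ⟨hz.2.1.ne, hz.1⟩
    have h2 := Finset.card_le_card h1
    rw [Finset.card_erase_of_mem hx] at h2
    have h3 : 0 < #T := Finset.card_pos.2 ⟨x, hx⟩
    simp only [hrk]
    omega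
  set φ : ℕ → ℕ := fun x => base x + (if x ∈ J₁ then 0 else 2 * (rk x + 1) + ε) with hφ
  have hφJ : ∀ x ∈ J₁, φ x = ψ x := by
    intro x hx
    simp only [hφ, if_pos hx, add_zero]
    exact hbJ x hx
  have hφlt : ∀ x ∈ T, φ x < base x + g := by
    intro x hx
    have := hrkh x hx
    simp only [hφ]
    split_ifs <;> omega
  have hφle : ∀ x, base x ≤ φ x := fun x => Nat.le_add_right _ _
  refine ⟨φ, ?_, ?_, ?_, ?_, ?_⟩
  · intro x hx y hy hxy
    have hx' : x ∈ T := hx
    have hy' : y ∈ T := hy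
    rcases (hmono x y hxy.le).lt_or_eq with hb | hb
    · calc φ x < base x + g := hφlt x hx'
        _ ≤ base y := hstep x y hb
        _ ≤ φ y := hφle y
    · have hyJ : y ∉ J₁ := fun hyJ => (hlt x y hxy hyJ).ne hb
      by_cases hxJ : x ∈ J₁
      · simp only [hφ, if_pos hxJ, if_neg hyJ]
        omega
      · simp only [hφ, if_neg hxJ, if_neg hyJ]
        have hr : rk x < rk y := by
          apply Finset.card_lt_card
          rw [Finset.ssubset_iff_of_subset]
          · refine ⟨x, Finset.mem_filter.2 ⟨hx', hxy, hb⟩, ?_⟩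
            intro hx2
            exact lt_irrefl x (Finset.mem_filter.1 hx2).2.1
          · intro z hz
            rw [Finset.mem_filter] at hz ⊢
            exact ⟨hz.1, hz.2.1.trans hxy, hz.2.2.trans hb⟩
        omega
  · intro x hx
    exact lt_of_lt_of_le (hφlt x hx) (hbN x)
  · rw [← himg]
    exact Finset.image_congr (fun x hx => hφJ x hx)
  · intro x hx hxJ
    have h1 := hrkh x hx
    obtain ⟨a, ha⟩ := hdvd x
    have h2 : φ x = g * a + (2 * (rk x + 1) + ε) := by
      simp only [hφ, if_neg hxJ]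
      rw [ha]
    constructor
    · rw [h2, Nat.mul_add_mod, Nat.mod_eq_of_lt (by omega)]
      omega
    · rw [h2]
      obtain ⟨b, hb⟩ := hg2
      rw [hb]
      have : 2 * b * a + (2 * (rk x + 1) + ε) = 2 * (b * a + (rk x + 1)) + ε := by ring
      rw [this, Nat.mul_add_mod, Nat.mod_eq_of_lt hε]
  · intro hJJ x hx
    rw [hφJ x hx]
    exact hid hJJ x hx

end Pool.Agent.DigitA
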