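import Mathlib
import Pool.Agent.DigitA.FinalDefs
import Pool.Agent.DigitA.Room

open Finset

namespace Pool.Agent.DigitA

section final

variable {K P : Type} [Field K] [Inhabited P] [DecidableEq P] {N₀ q : ℕ}

/-- reduced word of a function on a finite set -/
noncomputable def red' (q : ℕ) (s : Finset ℕ) (c : ℕ → P) : Fin q → P :=
  fun i => if h : (i : ℕ) < #s then c (s.orderEmbOfFin rfl ⟨i, h⟩) else default

lemma red_eq (S : Sys K P N₀ q) (w : ℕ) : red S w = red' q (supp S w) (S.code w) := rfl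

lemma mem_supp (S : Sys K P N₀ q) {w j : ℕ} :
    j ∈ supp S w ↔ j < N₀ ∧ S.code w j ≠ default := by
  unfold supp
  rw [Finset.mem_filter, Finset.mem_range]

lemma supp_sub (S : Sys K P N₀ q) (w : ℕ) : supp S w ⊆ range N₀ := Finset.filter_subset _ _

lemma red_inj (S : Sys K P N₀ q) {w w' : ℕ} (hw : w ∈ S.W (range N₀)) (hw' : w' ∈ S.W (range N₀))
    (hs : supp S w = supp S w') (hr : red S w = red S w') : w = w' := by
  refine S.hinj w hw w' hw' ?_
  intro j hj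
  by_cases hjs : j ∈ supp S w'
  · have hcard : #(supp S w') ≤ q := S.hcard w' hw'
    have hmem : j ∈ Set.range ((supp S w').orderEmbOfFin rfl) := by
      rw [Finset.range_orderEmbOfFin]
      exact hjs
    obtain ⟨i, hi⟩ := hmem
    have hiq : (i : ℕ) < q := lt_of_lt_of_le i.2 hcard
    have h1 := congrFun hr ⟨(i : ℕ), hiq⟩
    rw [red_eq, red_eq, hs] at h1
    unfold red' at h1
    rw [dif_pos i.2, dif_pos i.2] at h1
    have hii : (⟨((⟨(i : ℕ), hiq⟩ : Fin q) : ℕ), i.2⟩ : Fin #(supp S w')) = i := by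
      ext; rfl
    rw [hii, hi] at h1
    exact h1
  · have h1 : S.code w' j = default := by
      by_contra hne
      exact hjs ((mem_supp S).2 ⟨hj, hne⟩)
    have h2 : S.code w j = default := by
      by_contra hne
      apply hjs
      rw [← hs]
      exact (mem_supp S).2 ⟨hj, hne⟩
    rw [h1, h2]

omit [DecidableEq P] in
/-- the reduced word is invariant under strictly monotone transport -/
lemma red'_transport (q : ℕ) (s : Finset ℕ) (c c' : ℕ → P) (φ : ℕ → ℕ) (hφ : StrictMonoOn φ s)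
    (hc : ∀ j ∈ s, c' (φ j) = c j) : red' q (s.image φ) c' = red' q s c := by
  have hcard : #(s.image φ) = #s := Finset.card_image_of_injOn hφ.injOn
  have key : ∀ (t : Finset ℕ) (ht : t = s.image φ) (n : ℕ) (h₁ : n < #t) (h₂ : n < #s),
      t.orderEmbOfFin rfl ⟨n, h₁⟩ = φ (s.orderEmbOfFin rfl ⟨n, h₂⟩) := by
    intro t ht n h₁ h₂
    have ht' : #t = #s := by rw [ht, hcard]
    have hu : (fun i : Fin (#s) => φ (s.orderEmbOfFin rfl i)) = t.orderEmbOfFin ht' := by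
      apply Finset.orderEmbOfFin_unique
      · intro x
        rw [ht]
        exact Finset.mem_image_of_mem _ (Finset.orderEmbOfFin_mem _ _ _)
      · intro x y hxy
        apply hφ (Finset.orderEmbOfFin_mem _ _ _) (Finset.orderEmbOfFin_mem _ _ _)
        exact (s.orderEmbOfFin rfl).strictMono hxy
    have hu' := congrFun hu ⟨n, h₂⟩
    rw [hu']
    have := Finset.orderEmbOfFin_eq_orderEmbOfFin_iff (s := t) (i := ⟨n, h₁⟩) (j := ⟨n, h₂⟩)
      (h := rfl) (h' := ht')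
    exact this.2 rfl
  funext i
  unfold red'
  by_cases h : (i : ℕ) < #s
  · have h' : (i : ℕ) < #(s.image φ) := by rw [hcard]; exact h
    rw [dif_pos h, dif_pos h', key _ rfl _ h' h]
    exact hc _ (Finset.orderEmbOfFin_mem _ _ _)
  · have h' : ¬ (i : ℕ) < #(s.image φ) := by rw [hcard]; exact h
    rw [dif_neg h, dif_neg h']

/-- transport of an element to an admissible support -/
theorem transport (S : Sys K P N₀ q) {M h g : ℕ} (hS : Hom S M) (hM : h ≤ M) (hg : 2*h+2 ≤ g)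
    (hg2 : 2 ∣ g) (hN : g ≤ N₀) {T₁ : Finset ℕ} (hT₁ : T₁ ⊆ range N₀) (hc : #T₁ ≤ h) {w : ℕ}
    (hw : w ∈ S.W T₁) {J : Finset ℕ} (hJ : Adm N₀ g J) (hcard : #(supp S w) = #J) (ε : ℕ)
    (hε : ε < 2) : ∃ w' ∈ S.W (range N₀), supp S w' = J ∧ red S w' = red S w ∧
      ∃ T ⊆ range N₀, #T ≤ h ∧ J ⊆ T ∧ w' ∈ S.W T ∧ ∀ x ∈ T, x ∉ J → 2 ≤ x % g ∧ x % 2 = ε := by
  have hsub : supp S w ⊆ T₁ := by
    intro j hj
    exact S.hsupp T₁ hT₁ w hw j ((mem_supp S).1 hj).2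
  obtain ⟨φ, hφ, hφN, himg, hfill, -⟩ := room N₀ g h hg hN hg2 T₁ (supp S w) J ε hε hc hsub hJ hcard
  obtain ⟨w', hw', hcode⟩ := hS.h1 T₁ hT₁ (hc.trans hM) φ hφ hφN T₁ (Finset.Subset.refl _) w hw
  have hTsub : T₁.image φ ⊆ range N₀ := by
    intro x hx
    obtain ⟨y, hy, rfl⟩ := Finset.mem_image.1 hx
    exact Finset.mem_range.2 (hφN y hy)
  have hw'N : w' ∈ S.W (range N₀) := S.hmono _ _ hTsub hw'
  have hsupp' : supp S w' = J := by
    ext j
    constructor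
    · intro hj
      have hj' := (mem_supp S).1 hj
      have hjT := S.hsupp _ hTsub w' hw' j hj'.2
      obtain ⟨y, hy, rfl⟩ := Finset.mem_image.1 hjT
      rw [← himg]
      apply Finset.mem_image_of_mem
      rw [mem_supp]
      refine ⟨Finset.mem_range.1 (hT₁ hy), ?_⟩
      rw [← hcode y hy]
      exact hj'.2
    · intro hj
      rw [← himg] at hj
      obtain ⟨y, hy, rfl⟩ := Finset.mem_image.1 hj
      rw [mem_supp]
      refine ⟨hφN y (hsub hy), ?_⟩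
      rw [hcode y (hsub hy)]
      exact ((mem_supp S).1 hy).2
  refine ⟨w', hw'N, hsupp', ?_, T₁.image φ, hTsub, Finset.card_image_le.trans hc, ?_, hw', ?_⟩
  · rw [red_eq, red_eq, hsupp', ← himg]
    exact red'_transport q (supp S w) (S.code w) (S.code w') φ (hφ.mono (by exact_mod_cast hsub))
      (fun j hj => hcode j (hsub hj))
  · rw [← himg]
    exact Finset.image_subset_image hsub
  · intro x hx hxJ
    obtain ⟨y, hy, rfl⟩ := Finset.mem_image.1 hx
    apply hfill y hy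
    intro hys
    apply hxJ
    rw [← himg]
    exact Finset.mem_image_of_mem _ hys

theorem finA (S : Sys K P N₀ q) {M h g : ℕ} (hS : Hom S M) (hM : h ≤ M) (hg : 2*h+2 ≤ g)
    (hg2 : 2 ∣ g) (hN : g ≤ N₀) {J : Finset ℕ} (hJ : Adm N₀ g J) {w : ℕ} (hw : w ∈ Wh S h J)
    (ε : ℕ) (hε : ε < 2) :
    ∃ T ⊆ range N₀, #T ≤ h ∧ J ⊆ T ∧ w ∈ S.W T ∧ ∀ x ∈ T, x ∉ J → 2 ≤ x % g ∧ x % 2 = ε := by
  unfold Wh at hw
  rw [Finset.mem_filter] at hw
  obtain ⟨hwN, hsw, T₁, hT₁, hc, hwT⟩ := hw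
  obtain ⟨w', hw', hs', hr', T, hT, hTc, hJT, hwT', hfill⟩ :=
    transport S hS hM hg hg2 hN hT₁ hc hwT hJ (by rw [hsw]) ε hε
  have : w' = w := red_inj S hw' hwN (by rw [hs', hsw]) hr'
  subst this
  exact ⟨T, hT, hTc, hJT, hwT', hfill⟩

theorem finB (S : Sys K P N₀ q) {M h g s : ℕ} (hS : Hom S M) (hM : h ≤ M) (hg : 2*h+2 ≤ g)
    (hg2 : 2 ∣ g) (hN : g ≤ N₀) (hst : Stab S h s) {J : Finset ℕ} (hJ : Adm N₀ g J)
    {D : Finset ℕ} (hD : D ⊆ range N₀) (hDc : #D ≤ 2*h) {u : ℕ} (hu : u ∈ S.W D)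
    (hsu : supp S u = J) : u ∈ Wh S h J := by
  obtain ⟨T₁, hT₁, hc, w, hw, hcw, hrw⟩ := hst.red D hD hDc u hu
  obtain ⟨w', hw', hs', hr', T, hT, hTc, hJT, hwT', hfill⟩ :=
    transport S hS hM hg hg2 hN hT₁ hc hw hJ (by rw [hcw, hsu]) 0 (by norm_num)
  have huN : u ∈ S.W (range N₀) := S.hmono _ _ hD hu
  have : w' = u := red_inj S hw' huN (by rw [hs', hsu]) (by rw [hr', hrw])
  subst this
  unfold Wh
  rw [Finset.mem_filter]
  exact ⟨huN, hsu, T, hT, hTc, hwT'⟩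

theorem finC (S : Sys K P N₀ q) {M h g s : ℕ} (hS : Hom S M) (hM : h ≤ M) (hg : 2*h+2 ≤ g)
    (hg2 : 2 ∣ g) (hN : g ≤ N₀) (hst : Stab S h s) {J : Finset ℕ} (hJ : Adm N₀ g J)
    (hJs : #J = s) : (Wh S h J).Nonempty := by
  obtain ⟨T₁, hT₁, hc, w, hw, hcw⟩ := hst.ex
  obtain ⟨w', hw', hs', hr', T, hT, hTc, hJT, hwT', hfill⟩ :=
    transport S hS hM hg hg2 hN hT₁ hc hw hJ (by rw [hcw, hJs]) 0 (by norm_num)
  refine ⟨w', ?_⟩
  unfold Wh
  rw [Finset.mem_filter]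
  exact ⟨hw', hs', T, hT, hTc, hwT'⟩

end final

end Pool.Agent.DigitA
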