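import Mathlib
import Pool.Agent.DigitA.FinalDefs
import Pool.Agent.DigitA.FinA

open Finset

namespace Pool.Agent.DigitA

section final

variable {K P : Type} [Field K] [Inhabited P] [DecidableEq P] {N₀ q : ℕ}

/-- transport by a map `φ` which moves only the point `j ∉ supp z` of `D` does not change `z` -/
lemma shift_fix (S : Sys K P N₀ q) {M : ℕ} (hS : Hom S M) {D : Finset ℕ} (hD : D ⊆ range N₀)
    (hDM : #D ≤ M) {j : ℕ} (hj1 : j + 1 ∉ D) {φ : ℕ → ℕ} (hφj : φ j = j + 1)
    (hφ : ∀ x, x ≠ j → φ x = x) (hmon : StrictMonoOn φ D) (hφN : ∀ x ∈ D, φ x < N₀)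
    {z : ℕ} (hz : z ∈ S.W D) :
    ∃ z' ∈ S.W (D.image φ), (∀ x ∈ D, S.code z' (φ x) = S.code z x) ∧
      S.code z' j = default ∧ (S.code z j = default → z' = z) := by
  classical
  obtain ⟨z', hz', hcode⟩ := hS.h1 D hD hDM φ hmon hφN D (Finset.Subset.refl _) z hz
  have hIm : D.image φ ⊆ range N₀ := by
    intro x hx
    obtain ⟨y, hy, rfl⟩ := Finset.mem_image.1 hx
    exact Finset.mem_range.2 (hφN y hy)
  have hjI : j ∉ D.image φ := by
    intro hx
    obtain ⟨y, hy, hyj⟩ := Finset.mem_image.1 hx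
    by_cases hy' : y = j
    · rw [hy', hφj] at hyj; omega
    · rw [hφ y hy'] at hyj; exact hy' hyj
  have hdef : ∀ x, x ∉ D.image φ → S.code z' x = default := by
    intro x hx
    by_contra hne
    exact hx (S.hsupp _ hIm z' hz' x hne)
  have hdefz : ∀ x, x ∉ D → S.code z x = default := by
    intro x hx
    by_contra hne
    exact hx (S.hsupp _ hD z hz x hne)
  refine ⟨z', hz', hcode, hdef j hjI, ?_⟩
  intro hzj
  refine S.hinj z' (S.hmono _ _ hIm hz') z (S.hmono _ _ hD hz) ?_
  intro x hx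
  by_cases hxj : x = j
  · rw [hxj, hzj]; exact hdef j hjI
  by_cases hxj1 : x = j + 1
  · rw [hxj1, hdefz _ hj1]
    by_cases hjD : j ∈ D
    · have := hcode j hjD
      rw [hφj, hzj] at this
      exact this
    · apply hdef
      intro hx'
      obtain ⟨y, hy, hyj⟩ := Finset.mem_image.1 hx'
      by_cases hy' : y = j
      · rw [hy'] at hy; exact hjD hy
      · rw [hφ y hy'] at hyj; rw [hyj] at hy; exact hj1 hy
  by_cases hxD : x ∈ D
  · have := hcode x hxD
    rw [hφ x hxj] at this
    exact this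
  · rw [hdefz x hxD]
    apply hdef
    intro hx'
    obtain ⟨y, hy, hyj⟩ := Finset.mem_image.1 hx'
    by_cases hy' : y = j
    · rw [hy', hφj] at hyj; exact hxj1 hyj.symm
    · rw [hφ y hy'] at hyj; rw [hyj] at hy; exact hxD hy

theorem finD (S : Sys K P N₀ q) {M h g s : ℕ} (hS : Hom S M) (hM : 2*h+1 ≤ M) (hg : 2*h+2 ≤ g)
    (hg2 : 2 ∣ g) (hN : g ≤ N₀) (hst : Stab S h s) {J J' : Finset ℕ} (hJ : Adm N₀ g J)
    (hJ' : Adm N₀ g J') (hJs : #J = s) (hJs' : #J' = s) (hdis : Disjoint J J') {w w' u u' : ℕ}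
    (hw : w ∈ Wh S h J) (hw' : w' ∈ Wh S h J') (hu : u ∈ S.V) (hu' : u' ∈ S.V)
    (hsum : |(u : ℤ) + u' - w - w'| ≤ S.e) :
    Disjoint (supp S u) (supp S u') ∧ supp S u ∪ supp S u' = J ∪ J' ∧
      u ∈ Wh S h (supp S u) ∧ u' ∈ Wh S h (supp S u') ∧ #(supp S u) = s ∧ #(supp S u') = s := by
  classical
  obtain ⟨T, hT, hTc, hJT, hwT, hfill⟩ := finA S hS (by omega) hg hg2 hN hJ hw 0 (by norm_num)
  obtain ⟨T', hT', hTc', hJT', hwT', hfill'⟩ :=
    finA S hS (by omega) hg hg2 hN hJ' hw' 1 (by norm_num)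
  have hsw : supp S w = J := by
    have := hw; unfold Wh at this; rw [Finset.mem_filter] at this; exact this.2.1
  have hsw' : supp S w' = J' := by
    have := hw'; unfold Wh at this; rw [Finset.mem_filter] at this; exact this.2.1
  -- `T` and `T'` are disjoint
  have hmodJ : ∀ x, x ∈ J ∪ J' → x % g = 0 ∧ x + g ≤ N₀ := by
    intro x hx
    rcases Finset.mem_union.1 hx with hx | hx
    · exact ⟨Nat.mod_eq_zero_of_dvd (hJ x hx).1, (hJ x hx).2.2⟩
    · exact ⟨Nat.mod_eq_zero_of_dvd (hJ' x hx).1, (hJ' x hx).2.2⟩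
  have hTT : Disjoint T T' := by
    rw [Finset.disjoint_left]
    intro x hx hx'
    by_cases h1 : x ∈ J
    · by_cases h2 : x ∈ J'
      · exact Finset.disjoint_left.1 hdis h1 h2
      · have := (hfill' x hx' h2).1
        have := (hmodJ x (Finset.mem_union_left _ h1)).1
        omega
    · by_cases h2 : x ∈ J'
      · have := (hfill x hx h1).1
        have := (hmodJ x (Finset.mem_union_right _ h2)).1
        omega
      · have := (hfill x hx h1).2
        have := (hfill' x hx' h2).2
        omega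
  obtain ⟨huD, huD'⟩ := S.hclos T hT T' hT' hTT w hwT w' hwT' u hu u' hu' hsum
  set D := T ∪ T' with hDdef
  have hD : D ⊆ range N₀ := Finset.union_subset hT hT'
  have hDc : #D ≤ 2*h := by
    have h0 : #D ≤ #T + #T' := Finset.card_union_le T T'
    omega
  have hDM : #D ≤ M := by omega
  have hwD : w ∈ S.W D := S.hmono _ _ Finset.subset_union_left hwT
  have hwD' : w' ∈ S.W D := S.hmono _ _ Finset.subset_union_right hwT'
  have hsu : #(supp S u) ≤ s := hst.le D hD hDc u huD
  have hsu' : #(supp S u') ≤ s := hst.le D hD hDc u' huD'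
  have hcode0 : ∀ z j, j < N₀ → j ∉ supp S z → S.code z j = default := by
    intro z j hj hjz
    by_contra hne
    exact hjz ((mem_supp S).2 ⟨hj, hne⟩)
  have hwV : ∀ z, z ∈ S.W (range N₀) → z ∈ S.V := fun z hz => S.hWV _ hz
  -- main claim
  have hcover : J ∪ J' ⊆ supp S u ∪ supp S u' := by
    intro j hj
    by_contra hjn
    rw [Finset.mem_union, not_or] at hjn
    obtain ⟨hjm, hjN⟩ := hmodJ j hj
    have hg0 : 2 ≤ g := by omega
    have hjlt : j < N₀ := by omega
    have hmod1 : (j + 1) % g = 1 ∨ g = 2 := by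
      by_cases hg' : g = 2
      · exact Or.inr hg'
      · left
        rw [Nat.add_mod, hjm, Nat.zero_add, Nat.mod_mod, Nat.mod_eq_of_lt]
        omega
    have hmod1' : (j + 1) % g = 1 := by
      rw [Nat.add_mod, hjm, Nat.zero_add, Nat.mod_mod, Nat.mod_eq_of_lt]
      omega
    have hj1 : j + 1 ∉ D := by
      intro hx
      rcases Finset.mem_union.1 hx with hx | hx
      · by_cases h1 : j + 1 ∈ J
        · have := (hmodJ (j+1) (Finset.mem_union_left _ h1)).1
          omega
        · have := (hfill _ hx h1).1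
          omega
      · by_cases h1 : j + 1 ∈ J'
        · have := (hmodJ (j+1) (Finset.mem_union_right _ h1)).1
          omega
        · have := (hfill' _ hx h1).1
          omega
    let φ : ℕ → ℕ := fun x => if x = j then j + 1 else x
    have hφj : φ j = j + 1 := by simp [φ]
    have hφ : ∀ x, x ≠ j → φ x = x := by
      intro x hx; simp [φ, hx]
    have hmon : StrictMonoOn φ D := by
      intro x hx y hy hxy
      by_cases hxj : x = j
      · by_cases hyj : y = j
        · omega
        · rw [hφ y hyj, hxj, hφj]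
          have : y ≠ j + 1 := by
            intro h0; rw [h0] at hy; exact hj1 (by exact_mod_cast hy)
          omega
      · by_cases hyj : y = j
        · rw [hφ x hxj, hyj, hφj]; omega
        · rw [hφ x hxj, hφ y hyj]; exact hxy
    have hφN : ∀ x ∈ D, φ x < N₀ := by
      intro x hx
      by_cases hxj : x = j
      · rw [hxj, hφj]; omega
      · rw [hφ x hxj]; exact Finset.mem_range.1 (hD hx)
    obtain ⟨u1, hu1, hcu, -, hfu⟩ := shift_fix S hS hD hDM hj1 hφj hφ hmon hφN huD
    obtain ⟨u1', hu1', hcu', -, hfu'⟩ := shift_fix S hS hD hDM hj1 hφj hφ hmon hφN huD'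
    obtain ⟨w1, hw1, hcw, hw1j, hfw⟩ := shift_fix S hS hD hDM hj1 hφj hφ hmon hφN hwD
    obtain ⟨w1', hw1', hcw', hw1j', hfw'⟩ := shift_fix S hS hD hDM hj1 hφj hφ hmon hφN hwD'
    have hrel := hS.h2 D hD hDM φ hmon hφN u huD u' huD' w hwD w' hwD' u1 hu1 u1' hu1' w1 hw1
      w1' hw1' hcu hcu' hcw hcw' hsum
    have e1 : u1 = u := hfu (hcode0 u j hjlt hjn.1)
    have e2 : u1' = u' := hfu' (hcode0 u' j hjlt hjn.2)
    rw [e1, e2] at hrel
    have hIm : D.image φ ⊆ range N₀ := by
      intro x hx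
      obtain ⟨y, hy, rfl⟩ := Finset.mem_image.1 hx
      exact Finset.mem_range.2 (hφN y hy)
    rw [abs_le] at hsum hrel
    rcases Finset.mem_union.1 hj with hjJ | hjJ
    · have hjJ' : j ∉ J' := Finset.disjoint_left.1 hdis hjJ
      have e3 : w1' = w' := hfw' (hcode0 w' j hjlt (by rw [hsw']; exact hjJ'))
      have hne : w1 ≠ w := by
        intro h0
        rw [h0] at hw1j
        rw [← hsw] at hjJ
        exact ((mem_supp S).1 hjJ).2 hw1j
      have hiso := S.hiso w (S.hmono _ _ hD hwD) w1 (hwV _ (S.hmono _ _ hIm hw1)) hne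
      rw [e3] at hrel
      have : |(w1 : ℤ) - w| ≤ 2 * (S.e : ℤ) := by
        rw [abs_le]
        constructor <;> linarith [hsum.1, hsum.2, hrel.1, hrel.2]
      have he : (0 : ℤ) ≤ S.e := Int.natCast_nonneg _
      linarith
    · have hjJ' : j ∉ J := Finset.disjoint_right.1 hdis hjJ
      have e3 : w1 = w := hfw (hcode0 w j hjlt (by rw [hsw]; exact hjJ'))
      have hne : w1' ≠ w' := by
        intro h0
        rw [h0] at hw1j'
        rw [← hsw'] at hjJ
        exact ((mem_supp S).1 hjJ).2 hw1j'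
      have hiso := S.hiso w' (S.hmono _ _ hD hwD') w1' (hwV _ (S.hmono _ _ hIm hw1')) hne
      rw [e3] at hrel
      have : |(w1' : ℤ) - w'| ≤ 2 * (S.e : ℤ) := by
        rw [abs_le]
        constructor <;> linarith [hsum.1, hsum.2, hrel.1, hrel.2]
      have he : (0 : ℤ) ≤ S.e := Int.natCast_nonneg _
      linarith
  have hcJ : #(J ∪ J') = 2 * s := by
    rw [Finset.card_union_of_disjoint hdis, hJs, hJs']; ring
  have hcU := Finset.card_union_add_card_inter (supp S u) (supp S u')
  have hle := Finset.card_le_card hcover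
  have hint : #(supp S u ∩ supp S u') = 0 := by omega
  have hdisj : Disjoint (supp S u) (supp S u') := by
    rw [Finset.disjoint_iff_inter_eq_empty]
    exact Finset.card_eq_zero.1 hint
  have heq : J ∪ J' = supp S u ∪ supp S u' := Finset.eq_of_subset_of_card_le hcover (by omega)
  have hsU : #(supp S u) = s := by omega
  have hsU' : #(supp S u') = s := by omega
  have hAd : Adm N₀ g (supp S u) := by
    intro x hx
    have : x ∈ J ∪ J' := by rw [heq]; exact Finset.mem_union_left _ hx
    rcases Finset.mem_union.1 this with h1 | h1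
    · exact hJ x h1
    · exact hJ' x h1
  have hAd' : Adm N₀ g (supp S u') := by
    intro x hx
    have : x ∈ J ∪ J' := by rw [heq]; exact Finset.mem_union_right _ hx
    rcases Finset.mem_union.1 this with h1 | h1
    · exact hJ x h1
    · exact hJ' x h1
  exact ⟨hdisj, heq.symm, finB S hS (by omega) hg hg2 hN hst hAd hD hDc huD rfl,
    finB S hS (by omega) hg hg2 hN hst hAd' hD hDc huD' rfl, hsU, hsU'⟩

end final

end Pool.Agent.DigitA
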