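import Mathlib
import Pool.Agent.SqrtDC.Frob
import Pool.Agent.SqrtDC.Clus
import Pool.Agent.DigitA.Defs

open Finset

namespace Pool.Agent.DigitA

open Pool.Agent.SqrtDC

/-! ## Module Theta : iterated Frobenius -/

lemma theta_geom (p : ℕ) (hp : 3 ≤ p) (i : ℕ) : 2 * ∑ j ∈ range i, p^j ≤ p^i := by
  induction i with
  | zero => simp
  | succ i ih =>
    rw [Finset.sum_range_succ, pow_succ]
    have : p^i * 3 ≤ p^i * p := Nat.mul_le_mul_left _ hp
    omega

/-- iterated Frobenius relation -/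
lemma theta_frob (p : ℕ) [Fact p.Prime] (hp : p % 8 = 3 ∨ p % 8 = 5) (Λ N : ℕ)
    (hΛ : 2*N + 10 ≤ 2^Λ) (R : ℕ) (hR : R + Λ ≤ N) (i : ℕ)
    (hgood : ∀ j < i, ∀ s ∈ ss (E N) p, ¬ (R / p^j < s ∧ s ≤ R / p^j + Λ)) :
    ph (E N) (vv p) (R / p^i) = (-1)^i * ph (E N) (vv p) R := by
  induction i with
  | zero => simp
  | succ i ih =>
    have h1 := ih (fun j hj => hgood j (by omega))
    have h2 : R / p^i ≤ R := Nat.div_le_self _ _
    have h3 := frob p hp (R / p^i) Λ N (by omega) hΛ (hgood i (by omega))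
    rw [Nat.div_div_eq_div_mul, ← pow_succ] at h3
    rw [h3, h1]
    ring

/-- partial sums at cuts -/
lemma theta_cut {K : Type*} [Field K] [DecidableEq K] (A : Finset ℕ) (v : ℕ → K) (γ R : ℕ)
    (hR : ∀ e ∈ A, (e ≤ R ↔ stt A γ e ≤ R)) :
    ph A v R = ∑ s ∈ vis A v γ, (if s ≤ R then (1:K) else 0) * mass A v γ s := by
  rw [← sum_mass_vis A v γ (fun s => if s ≤ R then (1:K) else 0),
    ← sum_mass A v γ (fun s => if s ≤ R then (1:K) else 0)]
  unfold ph
  rw [Finset.sum_filter]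
  apply Finset.sum_congr rfl
  intro e he
  by_cases h : e ≤ R
  · rw [if_pos h, if_pos ((hR e he).mp h), one_mul]
  · rw [if_neg h, if_neg (fun h' => h ((hR e he).mpr h')), zero_mul]

/-- good points exist in every window -/
lemma theta_window (p : ℕ) [Fact p.Prime] (hp : p % 8 = 3 ∨ p % 8 = 5) (Λ N t ρ i : ℕ)
    (hΛ : 2*N + 10 ≤ 2^Λ) (ht : #(E N) ≤ t) (a w : ℕ)
    (hw : p^i * (Λ * t^p) + 2 * (t * (t * ρ)) < 2 * w) (ha : a + w + Λ ≤ N + 1) :
    ∃ R, a ≤ R ∧ R < a + w ∧ (∀ e ∈ E N, (e ≤ R ↔ stt (E N) ρ e ≤ R)) ∧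
      ph (E N) (vv p) (R / p^i) = (-1)^i * ph (E N) (vv p) R := by
  classical
  have hp3 : 3 ≤ p := by
    have := (Fact.out : p.Prime).two_le
    omega
  let B1 : Finset ℕ := (range i).biUnion (fun j =>
    (ss (E N) p).biUnion (fun s => Finset.Ico (p^j * (s - Λ)) (p^j * s)))
  let B2 : Finset ℕ := (E N).biUnion (fun e => Finset.Ico (stt (E N) ρ e) e)
  have hss : #(ss (E N) p) ≤ t^p := (ss_card _ _).trans (Nat.pow_le_pow_left ht p)
  have hB1 : #B1 ≤ ∑ j ∈ range i, (Λ * t^p) * p^j := by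
    refine (Finset.card_biUnion_le).trans (Finset.sum_le_sum ?_)
    intro j _
    refine (Finset.card_biUnion_le_card_mul _ _ (p^j * Λ) ?_).trans ?_
    · intro s _
      rw [Nat.card_Ico, ← Nat.mul_sub]
      exact Nat.mul_le_mul_left _ (by omega)
    · calc #(ss (E N) p) * (p^j * Λ) ≤ t^p * (p^j * Λ) := Nat.mul_le_mul_right _ hss
        _ = (Λ * t^p) * p^j := by ring
  have hB1' : 2 * #B1 ≤ p^i * (Λ * t^p) := by
    rw [← Finset.mul_sum] at hB1
    have h1 := theta_geom p hp3 i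
    calc 2 * #B1 ≤ 2 * ((Λ * t^p) * ∑ j ∈ range i, p^j) := Nat.mul_le_mul_left _ hB1
      _ = (2 * ∑ j ∈ range i, p^j) * (Λ * t^p) := by ring
      _ ≤ p^i * (Λ * t^p) := Nat.mul_le_mul_right _ h1
  have hB2 : #B2 ≤ t * (t * ρ) := by
    refine (Finset.card_biUnion_le_card_mul _ _ (t * ρ) ?_).trans (Nat.mul_le_mul_right _ ht)
    intro e he
    rw [Nat.card_Ico]
    have h1 := le_stt' (E N) ρ e t ht he
    omega
  have hlt : #(B1 ∪ B2) < #(Finset.Ico a (a + w)) := by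
    rw [Nat.card_Ico]
    have h1 := Finset.card_union_le B1 B2
    omega
  obtain ⟨R, hR1, hR2⟩ := Finset.exists_mem_notMem_of_card_lt_card hlt
  rw [Finset.mem_Ico] at hR1
  rw [Finset.mem_union, not_or] at hR2
  refine ⟨R, hR1.1, hR1.2, ?_, ?_⟩
  · intro e he
    constructor
    · intro h
      exact (stt_le _ _ _).trans h
    · intro h
      by_contra hc
      push Not at hc
      apply hR2.2
      rw [Finset.mem_biUnion]
      exact ⟨e, he, Finset.mem_Ico.mpr ⟨h, hc⟩⟩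
  · apply theta_frob p hp Λ N hΛ R (by omega)
    intro j hj s hs hcon
    apply hR2.1
    rw [Finset.mem_biUnion]
    refine ⟨j, Finset.mem_range.mpr hj, ?_⟩
    rw [Finset.mem_biUnion]
    refine ⟨s, hs, ?_⟩
    have hpj : 0 < p^j := Nat.pow_pos (by omega)
    rw [Finset.mem_Ico]
    constructor
    · have h1 : s - Λ ≤ R / p^j := Nat.sub_le_iff_le_add.mpr hcon.2
      have := (Nat.le_div_iff_mul_le hpj).mp h1
      rwa [mul_comm] at this
    · have h1 : R / p^j < s := hcon.1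
      have := (Nat.div_lt_iff_lt_mul hpj).mp h1
      rwa [mul_comm] at this

lemma theta_aux (p : ℕ) [Fact p.Prime] (hp : p % 8 = 3 ∨ p % 8 = 5) (Λ N t ρ i : ℕ)
    (hΛ : 2*N + 10 ≤ 2^Λ) (ht : #(E N) ≤ t) (hρ : 12*(Λ * t^p + 1) ≤ ρ) (hq : 12*(t+1)^2 ≤ p^i)
    (x : ℕ) (hx : x ∈ vis (E N) (vv p) ρ) (hN : p^i * (x + (t+1)*ρ) + Λ ≤ N) :
    ∃ y c, y ∈ vis (E N) (vv p) ρ ∧ 3 * (p^i * x) ≤ 3 * y + p^i * ρ ∧
      3 * y < 3 * (p^i * c) + p^i * ρ ∧ x ≤ c ∧ c ≤ x + t * ρ ∧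
      (∀ e ∈ E N, c < e → c + ρ < e) ∧ stt (E N) ρ c = x := by
  have h0 := zero_mem_E N
  have hx' := hx
  unfold vis at hx'
  rw [Finset.mem_filter] at hx'
  obtain ⟨hst, hmass⟩ := hx'
  obtain ⟨c, hcA, hxc, hct, hnext, hsc, hsum⟩ := mass_eq_ph (E N) h0 (vv p) ρ t x ht hst
  set q := p^i with hqdef
  have hq0 : 0 < q := by
    have : 0 < 12 * (t+1)^2 := by positivity
    omega
  have hq1 : 1 ≤ q := hq0
  -- window length
  set w := (q * ρ) / 3 with hwdef
  have hw1 : 3 * w ≤ q * ρ := by omega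
  have hw2 : q * ρ < 3 * w + 3 := by omega
  have hbig : q * (Λ * t^p) + 2 * (t * (t * ρ)) < 2 * w := by
    have e1 : q * (12 * (Λ * t^p + 1)) ≤ q * ρ := Nat.mul_le_mul_left _ hρ
    have e2 : 12*(t+1)^2 * ρ ≤ q * ρ := Nat.mul_le_mul_right _ hq
    have e3 : 12 * (t * (t * ρ)) + 12 * ρ ≤ 12*(t+1)^2 * ρ := by nlinarith
    have e4 : 12 ≤ ρ := by omega
    have e5 : q * (12 * (Λ * t^p + 1)) = 12 * (q * (Λ * t^p)) + 12 * q := by ring
    omega
  have hpc : q * c ≤ q * (x + t * ρ) := Nat.mul_le_mul_left q hct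
  have hqq : q * (x + (t+1)*ρ) = q * (x + t * ρ) + q * ρ := by ring
  have hqx : q * x ≤ q * c := Nat.mul_le_mul_left q hxc
  obtain ⟨R2, hR2a, hR2b, hcut2, hR2⟩ := theta_window p hp Λ N t ρ i hΛ ht (q * c) w
    (by rw [← hqdef]; exact hbig) (by omega)
  rw [← hqdef] at hR2
  have hρq : ρ ≤ ρ * q := Nat.le_mul_of_pos_right ρ hq0
  have e2 : ph (E N) (vv p) (R2 / q) = ph (E N) (vv p) c := by
    unfold ph
    apply Finset.sum_congr _ (fun _ _ => rfl)
    ext e
    simp only [Finset.mem_filter]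
    refine and_congr_right fun he => ?_
    rw [Nat.le_div_iff_mul_le hq0]
    constructor
    · intro h
      by_contra hlt
      push Not at hlt
      have h1 := hnext e he hlt
      have h2 : (c + ρ) * q ≤ e * q := Nat.mul_le_mul_right q h1.le
      have h4 : (c + ρ) * q = c * q + ρ * q := by ring
      have h5 : c * q = q * c := mul_comm _ _
      have h6 : ρ * q = q * ρ := mul_comm _ _
      omega
    · intro h
      have h2 : e * q ≤ c * q := Nat.mul_le_mul_right q h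
      have h5 : c * q = q * c := mul_comm _ _
      omega
  have hc2 := theta_cut (E N) (vv p) ρ R2 hcut2
  have hu : ((-1 : ZMod p)^i) * ((-1 : ZMod p)^i) = 1 := by
    rw [← mul_pow]; simp
  rcases Nat.eq_zero_or_pos x with hx0 | hxpos
  · -- the first cluster
    subst hx0
    have hz : ∑ e ∈ (E N).filter (fun e => e < 0), vv p e = 0 := by
      apply Finset.sum_eq_zero
      intro e he
      exact absurd (Finset.mem_filter.mp he).2 (Nat.not_lt_zero _)
    rw [hz, add_zero] at hsum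
    have hne : ph (E N) (vv p) R2 ≠ 0 := by
      intro h
      rw [h, mul_zero, e2, ← hsum] at hR2
      exact hmass hR2
    rw [hc2] at hne
    obtain ⟨y, hy, hy'⟩ := Finset.exists_ne_zero_of_sum_ne_zero hne
    have hyR : y ≤ R2 := by
      by_contra hcon
      rw [if_neg hcon, zero_mul] at hy'
      exact hy' rfl
    refine ⟨y, c, hy, by simp, ?_, hxc, hct, hnext, hsc⟩
    omega
  · have hρx : ρ < x := by
      have := ((mem_starts (E N)).mp hst).2 0 h0 hxpos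
      omega
    have hqρx : q * ρ ≤ q * x := Nat.mul_le_mul_left q hρx.le
    obtain ⟨R1, hR1a, hR1b, hcut1, hR1⟩ := theta_window p hp Λ N t ρ i hΛ ht (q * x - w) w
      (by rw [← hqdef]; exact hbig) (by omega)
    rw [← hqdef] at hR1
    have e1 : ph (E N) (vv p) (R1 / q) = ∑ e ∈ (E N).filter (fun e => e < x), vv p e := by
      unfold ph
      apply Finset.sum_congr _ (fun _ _ => rfl)
      ext e
      simp only [Finset.mem_filter]
      refine and_congr_right fun he => ?_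
      rw [Nat.le_div_iff_mul_le hq0]
      constructor
      · intro h
        have : e * q < x * q := by
          calc e * q ≤ R1 := h
            _ < x * q := by rw [mul_comm x q]; omega
        exact lt_of_mul_lt_mul_right this (Nat.zero_le q)
      · intro h
        have h1 := ((mem_starts (E N)).mp hst).2 e he h
        have h2 : (e + ρ) * q ≤ x * q := Nat.mul_le_mul_right q h1.le
        have h4 : (e + ρ) * q = e * q + ρ * q := by ring
        have h5 : x * q = q * x := mul_comm _ _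
        have h6 : ρ * q = q * ρ := mul_comm _ _
        omega
    have hc1 := theta_cut (E N) (vv p) ρ R1 hcut1
    have hne : ph (E N) (vv p) R2 - ph (E N) (vv p) R1 ≠ 0 := by
      intro h
      apply hmass
      have h6 : mass (E N) (vv p) ρ x = ph (E N) (vv p) (R2 / q) - ph (E N) (vv p) (R1 / q) := by
        rw [e1, e2, ← hsum]; ring
      rw [h6, hR1, hR2, ← mul_sub, h, mul_zero]
    rw [hc1, hc2, ← Finset.sum_sub_distrib] at hne
    obtain ⟨y, hy, hy'⟩ := Finset.exists_ne_zero_of_sum_ne_zero hne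
    have hyR : R1 < y ∧ y ≤ R2 := by
      by_contra hcon
      apply hy'
      by_cases h1 : y ≤ R1
      · rw [if_pos h1, if_pos (by omega : y ≤ R2)]; ring
      · have h2 : ¬ y ≤ R2 := by
          intro h2
          exact hcon ⟨by omega, h2⟩
        rw [if_neg h1, if_neg h2]; ring
    refine ⟨y, c, hy, ?_, ?_, hxc, hct, hnext, hsc⟩
    · omega
    · omega

theorem theta_step (p : ℕ) [Fact p.Prime] (hp : p % 8 = 3 ∨ p % 8 = 5) (Λ N t ρ i : ℕ)
    (hΛ : 2*N + 10 ≤ 2^Λ) (ht : #(E N) ≤ t) (hρ : 12*(Λ * t^p + 1) ≤ ρ) (hq : 12*(t+1)^2 ≤ p^i) :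
    ∃ θ : ℕ → ℕ, ∀ x ∈ vis (E N) (vv p) ρ, p^i * (x + (t+1)*ρ) + Λ ≤ N →
      θ x ∈ vis (E N) (vv p) ρ ∧ 3 * (p^i * x) ≤ 3 * θ x + p^i * ρ ∧ θ x ≤ p^i * (x + (t+1)*ρ) ∧
      ∀ x' ∈ vis (E N) (vv p) ρ, x < x' → p^i * (x' + (t+1)*ρ) + Λ ≤ N →
        3 * θ x + p^i * ρ ≤ 3 * θ x' := by
  classical
  have key : ∀ x, ∃ y, (x ∈ vis (E N) (vv p) ρ ∧ p^i * (x + (t+1)*ρ) + Λ ≤ N) →
      ∃ c, y ∈ vis (E N) (vv p) ρ ∧ 3 * (p^i * x) ≤ 3 * y + p^i * ρ ∧
      3 * y < 3 * (p^i * c) + p^i * ρ ∧ x ≤ c ∧ c ≤ x + t * ρ ∧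
      (∀ e ∈ E N, c < e → c + ρ < e) ∧ stt (E N) ρ c = x := by
    intro x
    by_cases h : x ∈ vis (E N) (vv p) ρ ∧ p^i * (x + (t+1)*ρ) + Λ ≤ N
    · obtain ⟨y, c, hh⟩ := theta_aux p hp Λ N t ρ i hΛ ht hρ hq x h.1 h.2
      exact ⟨y, fun _ => ⟨c, hh⟩⟩
    · exact ⟨0, fun h' => absurd h' h⟩
  choose θ hθ using key
  refine ⟨θ, fun x hx hN => ?_⟩
  obtain ⟨c, h1, h2, h3, h4, h5, h6, h7⟩ := hθ x ⟨hx, hN⟩
  refine ⟨h1, h2, ?_, ?_⟩
  · have e1 : p^i * c ≤ p^i * (x + t * ρ) := Nat.mul_le_mul_left _ h5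
    have e2 : p^i * (x + (t+1)*ρ) = p^i * (x + t * ρ) + p^i * ρ := by ring
    omega
  · intro x' hx' hlt hN'
    obtain ⟨c', h1', h2', h3', h4', h5', h6', h7'⟩ := hθ x' ⟨hx', hN'⟩
    have hst' : x' ∈ starts (E N) ρ := (Finset.mem_filter.mp hx').1
    have hx'A : x' ∈ E N := ((mem_starts (E N)).mp hst').1
    have hcx' : c < x' := by
      by_contra hle
      push Not at hle
      have h3 := le_stt_of_start (E N) hst' hle
      rw [h7] at h3
      omega
    have e4 := h6 x' hx'A hcx'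
    have e5 : p^i * (c + ρ) ≤ p^i * x' := Nat.mul_le_mul_left _ e4.le
    have e6 : p^i * (c + ρ) = p^i * c + p^i * ρ := by ring
    omega

end Pool.Agent.DigitA
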