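import Mathlib
import Pool.Agent.SqrtDC.DynOf
import Pool.Agent.DigitA.Core
import Pool.Agent.DigitA.Spread
import Pool.Agent.DigitA.Theta
import Pool.Agent.DigitA.Reg

open Finset

namespace Pool.Agent.DigitA

open Pool.Agent.SqrtDC

lemma vis_card_le {K : Type*} [Field K] [DecidableEq K] (A : Finset ℕ) (v : ℕ → K) (γ : ℕ) :
    #(vis A v γ) ≤ #A := by
  unfold vis starts
  exact (Finset.card_filter_le _ _).trans (Finset.card_filter_le _ _)

lemma aux_r (a b L : ℕ) (hb : L + 1 ≤ b) (hb2 : 2 ≤ b) (ha : b ≤ a) : L + a ≤ a * b := by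
  have h1 : a * 2 ≤ a * b := Nat.mul_le_mul_left _ hb2
  omega

lemma aux_two (y3 a b : ℕ) (hy : 1 ≤ y3) (h : y3 * a ≤ (y3+1) * b) : a ≤ 2 * b := by
  by_contra hcon
  push Not at hcon
  have h1 : y3 * (2 * b + 1) ≤ y3 * a := Nat.mul_le_mul_left _ hcon
  nlinarith

lemma aux_l (y l : ℕ) (hl : 28*l^2 ≤ y) : 28 * l ≤ y := by
  have : l ≤ l^2 := Nat.le_self_pow (by norm_num) l
  omega

lemma aux_m (m B : ℕ) (h : 100*(m+2)^2 ≤ B) : 2*(m+1) + 2*(m+1)^2 ≤ B := by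
  nlinarith

/-- the level arithmetic -/
lemma level_bound (y l : ℕ) (hy : 10 ≤ y) (hl : 28*l^2 ≤ y) :
    (y + 2) + (y^4 + 41) * (y^3*l) + y^4 + 50 ≤ y^8 := by
  have h1 : 28 * l ≤ y := aux_l y l hl
  have h2 : (y^4 + 41) * (y^3*l) * 28 ≤ (y^4 + 41) * y^4 := by
    calc (y^4 + 41) * (y^3*l) * 28 = (y^4+41) * (y^3 * (28 * l)) := by ring
      _ ≤ (y^4+41) * (y^3 * y) := by gcongr
      _ = (y^4+41) * y^4 := by ring
  have h3 : 10^4 ≤ y^4 := Nat.pow_le_pow_left hy 4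
  have h4 : y ≤ y^4 := Nat.le_self_pow (by norm_num) y
  have h5 : y^8 = y^4 * y^4 := by ring
  rw [h5]
  nlinarith

theorem main_step (A p : ℕ) [Fact p.Prime] (hp : p % 8 = 3 ∨ p % 8 = 5)
    (hpA : (8*A).choose (4*A) < p) :
    ∃ m y₀ : ℕ, ∀ y, y₀ ≤ y → ∀ (l t N Λ ρ b : ℕ), #(E N) ≤ t → t < y^(A+1) → t < 2^l →
      28*l^2 ≤ y → 2*N + 10 ≤ 2^Λ → 12*(Λ * t^p + 1) ≤ ρ →
      100 * (m+2)^2 * (t+1)^(m+10) * (Λ+1) ≤ p^b → ρ * (p^b)^(y^8) ≤ N → False := by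
  obtain ⟨m, y₁, hcore⟩ := core A p hpA
  refine ⟨m, y₁ + 10, ?_⟩
  intro y hy l t N Λ ρ b hE hty htl hly hΛ hρ hB hN
  set B := p^b with hBdef
  have ht1 : 1 ≤ t := by
    have : 0 < #(E N) := Finset.card_pos.mpr ⟨0, zero_mem_E N⟩
    omega
  have hρ1 : 12 ≤ ρ := by
    have : 12 ≤ 12*(Λ * t^p + 1) := by omega
    omega
  -- lower bounds for `B`
  have hpow : (t+1)^10 ≤ (t+1)^(m+10) := Nat.pow_le_pow_right (by omega) (by omega)
  have hm2 : 4 ≤ (m+2)^2 := by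
    have := Nat.pow_le_pow_left (show 2 ≤ m+2 by omega) 2
    omega
  have hp3 : (t+1)^3 ≤ (t+1)^10 := Nat.pow_le_pow_right (by omega) (by omega)
  have hp2 : (t+1)^2 ≤ (t+1)^10 := Nat.pow_le_pow_right (by omega) (by omega)
  have hp1 : (t+1) ≤ (t+1)^10 := Nat.le_self_pow (by omega) _
  have hp0 : 1 ≤ (t+1)^10 := Nat.one_le_pow _ _ (by omega)
  have et2 : t^2 ≤ (t+1)^10 := le_trans (Nat.pow_le_pow_left (by omega) 2) hp2
  have et3 : t^3 ≤ (t+1)^10 := le_trans (Nat.pow_le_pow_left (by omega) 3) hp3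
  have hB' := hB
  generalize (t+1)^(m+10) = T' at hpow hB'
  have hBT : 400 * (t+1)^10 * (Λ+1) ≤ B := by
    refine le_trans ?_ hB'
    have e1 : 400 * (t+1)^10 = 100 * 4 * (t+1)^10 := by norm_num
    rw [e1]
    exact Nat.mul_le_mul_right _ (Nat.mul_le_mul (Nat.mul_le_mul_left _ hm2) hpow)
  have hBm : 100 * (m+2)^2 ≤ B := by
    refine le_trans ?_ hB'
    have e1 : 100 * (m+2)^2 = 100 * (m+2)^2 * 1 * 1 := by ring
    rw [e1]
    exact Nat.mul_le_mul (Nat.mul_le_mul (by rw [mul_one, mul_one]) (le_trans hp0 hpow)) (by omega)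
  generalize (t+1)^10 = T at hp3 hp2 hp1 hp0 et2 et3 hBT
  have hTΛ : T ≤ T * (Λ+1) := Nat.le_mul_of_pos_right _ (by omega)
  have hΛT : Λ + 1 ≤ T * (Λ+1) := Nat.le_mul_of_pos_left _ (by omega)
  have hBT2 : 400 * (T * (Λ+1)) ≤ B := by
    have : 400 * (T * (Λ+1)) = 400 * T * (Λ+1) := by ring
    omega
  have hBbig : 400 ≤ B := by omega
  have hBpos : 1 ≤ B := by omega
  have hBt : 400 * (t+1) ≤ B := by omega
  have hBt2 : 12*(t+1)^2 ≤ B := by omega
  have hBΛ : Λ + 1 ≤ B := by omega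
  -- coarse window
  set W' := Λ*t^2 + 2*t^3*ρ + 1 with hW'
  have hW'1 : W' ≤ ρ * B := by
    have f1 : Λ*t^2 ≤ ρ * (T * (Λ+1)) := by
      calc Λ*t^2 ≤ (Λ+1) * T := Nat.mul_le_mul (by omega) et2
        _ = 1 * (T * (Λ+1)) := by ring
        _ ≤ ρ * (T * (Λ+1)) := Nat.mul_le_mul_right _ (by omega)
    have f2 : 2*t^3*ρ ≤ 2 * (ρ * (T * (Λ+1))) := by
      calc 2*t^3*ρ ≤ 2*T*ρ := Nat.mul_le_mul_right _ (Nat.mul_le_mul_left _ et3)
        _ = 2 * (ρ * T) := by ring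
        _ ≤ 2 * (ρ * (T * (Λ+1))) := Nat.mul_le_mul_left _ (Nat.mul_le_mul_left _ hTΛ)
    have f3 : 1 ≤ ρ * (T * (Λ+1)) := by
      calc 1 ≤ T * (Λ+1) := by omega
        _ ≤ ρ * (T * (Λ+1)) := Nat.le_mul_of_pos_left _ (by omega)
    have f4 : ρ * (400 * (T * (Λ+1))) ≤ ρ * B := Nat.mul_le_mul_left _ hBT2
    have f5 : ρ * (400 * (T * (Λ+1))) = 400 * (ρ * (T * (Λ+1))) := by ring
    omega
  set r : ℕ → ℕ := fun k => ρ * B^k with hr
  have hr0 : r 0 = ρ := by simp [hr]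
  have hr1 : r 1 = ρ * B := by simp [hr]
  have hrs : ∀ k, r (k+1) = r k * B := fun k => by simp only [hr, pow_succ]; ring
  have hrmono : Monotone r := by
    apply monotone_nat_of_le_succ
    intro k
    rw [hrs]
    exact Nat.le_mul_of_pos_right _ hBpos
  have hrpos : ∀ k, 1 ≤ r k := fun k => by
    have := hrmono (Nat.zero_le k)
    rw [hr0] at this
    omega
  -- the visible set
  set Vi := vis (E N) (vv p) ρ with hVi
  have hVit : #Vi ≤ t := (vis_card_le _ _ _).trans hE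
  -- size of `N`
  have hNy : r (y^8) ≤ N := hN
  have hlev := level_bound y l (by omega) hly
  -- Dyn
  have hDyn : Dyn Vi (N - Λ) W' := by
    apply dyn_vis p hp Λ N t ρ W' (N - Λ) hΛ hE le_rfl
    have : Λ ≤ N := by
      have h1 : r 1 ≤ r (y^8) := hrmono (Nat.one_le_pow 8 y (by omega))
      rw [hr1] at h1
      have h2 : B ≤ ρ * B := Nat.le_mul_of_pos_left _ (by omega)
      omega
    omega
  have hΛr : ∀ k, Λ + r (k+1) ≤ r (k+2) := by
    intro k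
    have h1 : r (k+2) = r (k+1) * B := hrs (k+1)
    have h2 : B ≤ r (k+1) := by
      have := hrmono (show 1 ≤ k+1 by omega)
      rw [hr1] at this
      exact le_trans (Nat.le_mul_of_pos_left _ (by omega)) this
    rw [h1]
    exact aux_r _ _ _ hBΛ (by omega) h2
  -- many points
  have hmany : y ≤ #(Vi.filter (fun x => x ≤ r (y+2))) := by
    have h4 : 4^y * W' ≤ r (y+1) := by
      calc 4^y * W' ≤ B^y * (ρ * B) := by gcongr; omega
        _ = r (y+1) := by simp only [hr, pow_succ]; ring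
    have h5 : r (y+1) ≤ N - Λ := by
      have h6 := hΛr y
      have h7 : r (y+2) ≤ r (y^8) := hrmono (by omega)
      omega
    have h8 := many_points Vi (N - Λ) W' y (by omega) hDyn (h4.trans h5)
    refine h8.trans (Finset.card_le_card ?_)
    intro x hx
    rw [Finset.mem_filter] at hx ⊢
    refine ⟨hx.1, hx.2.trans (h4.trans (hrmono (by omega)))⟩
  -- regularity
  set g : ℕ → ℕ := fun c => #(Vi.filter (fun x => x ≤ r c)) with hg
  have hgmono : Monotone g := by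
    intro c c' hcc
    apply Finset.card_le_card
    intro x hx
    rw [Finset.mem_filter] at hx ⊢
    exact ⟨hx.1, hx.2.trans (hrmono hcc)⟩
  have hglt : ∀ c, g c < 2^l := fun c =>
    lt_of_le_of_lt ((Finset.card_filter_le _ _).trans hVit) htl
  set J := y^4 + 40 with hJ
  have hg1 : 1 ≤ g (y+2) := le_trans (by omega) hmany
  obtain ⟨c, hc1, hc2, hc3⟩ := regular g hgmono y l (J+1) (y+2) hg1 (by omega) hglt
  have hctop : c + J + 5 ≤ y^8 := by
    have h1 : J + 1 = y^4 + 41 := by omega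
    rw [h1] at hc2
    omega
  set V₀ := Vi.filter (fun x => x ≤ r c) with hV₀
  set V := Vi.filter (fun x => x ≤ r (c+J+1)) with hV
  have hVV : y^3 * #V ≤ (y^3+1) * #V₀ := by
    have : c + (J+1) = c + J + 1 := by ring
    rw [this] at hc3
    exact hc3
  have hV₀V : V₀ ⊆ V := by
    intro x hx
    rw [hV₀, Finset.mem_filter] at hx
    rw [hV, Finset.mem_filter]
    exact ⟨hx.1, hx.2.trans (hrmono (by omega))⟩
  have hVt : #V ≤ t := (Finset.card_filter_le _ _).trans hVit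
  have hy3 : 1 ≤ y^3 := Nat.one_le_pow _ _ (by omega)
  have hV2 : #V ≤ 2 * #V₀ := aux_two _ _ _ hy3 hVV
  have hyV : y ≤ #V := by
    refine hmany.trans (Finset.card_le_card ?_)
    intro x hx
    rw [Finset.mem_filter] at hx
    rw [hV, Finset.mem_filter]
    exact ⟨hx.1, hx.2.trans (hrmono (by omega))⟩
  -- growth
  have hGr : Gr V r t (m+1) := by
    refine ⟨hrpos 0, hVt, ?_⟩
    intro k
    rw [hrs k]
    have h1 : 100 * (m+1+1)^2 * (t+1)^(m+1+1) ≤ B := by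
      have h2 : (t+1)^(m+1+1) ≤ (t+1)^(m+10) := Nat.pow_le_pow_right (by omega) (by omega)
      calc 100 * (m+1+1)^2 * (t+1)^(m+1+1) ≤ 100 * (m+2)^2 * (t+1)^(m+10) := by gcongr
        _ ≤ 100 * (m+2)^2 * (t+1)^(m+10) * (Λ+1) := Nat.le_mul_of_pos_right _ (by omega)
        _ ≤ B := hB
    calc 100 * (m+1+1)^2 * (t+1)^(m+1+1) * r k ≤ B * r k := Nat.mul_le_mul_right _ h1
      _ = r k * B := by ring
  -- bounds at the top
  have hrN : r (c+J+1) + Λ ≤ N := by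
    have h1 := hΛr (c+J)
    have h2 : r (c+J+2) ≤ r (y^8) := hrmono (by omega)
    omega
  have hkey : ∀ j, j ≤ J → ∀ u ∈ V₀, B^j * (u + (t+1)*ρ) ≤ r (c+J+1) := by
    intro j hj u hu
    rw [hV₀, Finset.mem_filter] at hu
    have h1 : (t+1) * ρ ≤ r c := by
      have h2 : r 1 ≤ r c := hrmono (by omega)
      rw [hr1] at h2
      have h3 : (t+1)*ρ ≤ ρ * B := by
        rw [mul_comm]
        exact Nat.mul_le_mul_left _ (by omega)
      omega
    calc B^j * (u + (t+1)*ρ) ≤ B^J * (r c + r c) :=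
          Nat.mul_le_mul (Nat.pow_le_pow_right (by omega) hj) (Nat.add_le_add hu.2 h1)
      _ = 2 * r (c+J) := by simp only [hr, pow_add]; ring
      _ ≤ B * r (c+J) := Nat.mul_le_mul_right _ (by omega)
      _ = r (c+J+1) := by rw [hrs (c+J)]; ring
  -- the maps
  have hth : ∀ j, 1 ≤ j → j ≤ J → ∃ θ : ℕ → ℕ, ∀ x ∈ V₀,
      θ x ∈ V ∧ |(θ x : ℤ) - (B^j * x : ℕ)| ≤ (ρ * B^(j+1) : ℕ) ∧
      ∀ x' ∈ V₀, x < x' → 3 * θ x + ρ * B^j ≤ 3 * θ x' := by
    intro j hj1 hjJ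
    have hpB : p^(b*j) = B^j := by rw [pow_mul]
    have hq : 12*(t+1)^2 ≤ p^(b*j) := by
      rw [hpB]
      exact hBt2.trans (Nat.le_self_pow (by omega) B)
    obtain ⟨θ, hθ⟩ := theta_step p hp Λ N t ρ (b*j) hΛ hE hρ hq
    rw [hpB] at hθ
    refine ⟨θ, fun x hx => ?_⟩
    have hx' := hx
    rw [hV₀, Finset.mem_filter] at hx'
    have hxk := hkey j hjJ x hx
    obtain ⟨h1, h2, h3, h4⟩ := hθ x hx'.1 (by omega)
    refine ⟨?_, ?_, ?_⟩
    · rw [hV, Finset.mem_filter]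
      exact ⟨h1, h3.trans hxk⟩
    · have h5 : B^j * (x + (t+1)*ρ) ≤ B^j * x + ρ * B^(j+1) := by
        have : B^j * ((t+1)*ρ) ≤ ρ * B^(j+1) := by
          calc B^j * ((t+1)*ρ) = (ρ * B^j) * (t+1) := by ring
            _ ≤ (ρ * B^j) * B := Nat.mul_le_mul_left _ (by omega)
            _ = ρ * B^(j+1) := by rw [pow_succ]; ring
        rw [mul_add]
        omega
      have h6 : B^j * ρ ≤ ρ * B^(j+1) := by
        calc B^j * ρ = (ρ * B^j) * 1 := by ring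
          _ ≤ (ρ * B^j) * B := Nat.mul_le_mul_left _ (by omega)
          _ = ρ * B^(j+1) := by rw [pow_succ]; ring
      rw [abs_le]
      constructor
      · have : B^j * x ≤ θ x + ρ * B^(j+1) := by omega
        have h7 : ((B^j * x : ℕ) : ℤ) ≤ (θ x : ℤ) + ((ρ * B^(j+1) : ℕ) : ℤ) := by exact_mod_cast this
        linarith
      · have : θ x ≤ B^j * x + ρ * B^(j+1) := h3.trans h5
        have h7 : (θ x : ℤ) ≤ ((B^j * x : ℕ) : ℤ) + ((ρ * B^(j+1) : ℕ) : ℤ) := by exact_mod_cast this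
        linarith
    · intro x' hx'' hlt
      have hx3 := hx''
      rw [hV₀, Finset.mem_filter] at hx3
      have hxk' := hkey j hjJ x' hx''
      have := h4 x' hx3.1 hlt (by omega)
      rw [mul_comm ρ]
      exact this
  have hth2 : ∃ θ : ℕ → ℕ → ℕ, ∀ j, 1 ≤ j → j ≤ J → ∀ x ∈ V₀,
      θ j x ∈ V ∧ |(θ j x : ℤ) - (B^j * x : ℕ)| ≤ (ρ * B^(j+1) : ℕ) ∧
      ∀ x' ∈ V₀, x < x' → 3 * θ j x + ρ * B^j ≤ 3 * θ j x' := by
    classical
    refine ⟨fun j => if h : 1 ≤ j ∧ j ≤ J then (hth j h.1 h.2).choose else id, ?_⟩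
    intro j h1 h2 x hx
    have h3 : (1 ≤ j ∧ j ≤ J) := ⟨h1, h2⟩
    simp only [dif_pos h3]
    exact (hth j h1 h2).choose_spec x hx
  obtain ⟨θ, hθ⟩ := hth2
  have hl28 : 28 * l ≤ y := aux_l y l hly
  have hl2 : l^2 ≤ y := by omega
  obtain ⟨hs1, hs2⟩ := spread V V₀ ρ B t l y J θ hVt htl hl28 (by omega) (by omega) (by omega)
    (by omega)
    (fun j h1 h2 u hu => ⟨(hθ j h1 h2 u hu).1, (hθ j h1 h2 u hu).2.1⟩)
    (fun j h1 h2 u hu u' hu' hlt => (hθ j h1 h2 u hu).2.2 u' hu' hlt) hVV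
  -- apply the core
  refine hcore y (by omega) l t (r (c+1)) V V₀ r (mass (E N) (vv p) ρ) hGr hty htl hl2 hV₀V hV2 hyV
    hs1 hs2 ?_ ?_ ?_
  · intro v hv
    rw [hV, Finset.mem_filter, hVi] at hv
    exact (Finset.mem_filter.mp hv.1).2
  · intro v hv
    rw [hV₀, Finset.mem_filter] at hv
    have h1 : r 1 ≤ r c := hrmono (by omega)
    calc 2*(m+1) * v + 2*(m+1)^2 * r 1 ≤ 2*(m+1) * r c + 2*(m+1)^2 * r c := by
          gcongr
          exact hv.2
      _ = (2*(m+1) + 2*(m+1)^2) * r c := by ring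
      _ ≤ B * r c := by
          apply Nat.mul_le_mul_right
          exact aux_m m B hBm
      _ = r (c+1) := by rw [hrs c]; ring
  · intro σ hσ2 hσX
    have hW'r : W' ≤ r 1 := by rw [hr1]; exact hW'1
    have h12 : r 1 ≤ r 2 := hrmono (by omega)
    have h1c : r 1 ≤ r (c+1) := hrmono (by omega)
    have hsmall : r (c+1) + r (c+1) ≤ r (c+J+1) := by
      have h1 : r (c+2) ≤ r (c+J+1) := hrmono (by omega)
      have h2 : r (c+2) = r (c+1) * B := hrs (c+1)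
      have h3 : r (c+1) * 2 ≤ r (c+1) * B := Nat.mul_le_mul_left _ (by omega)
      omega
    obtain ⟨α, β, h1, h2, h3, h4, h5⟩ := n1 p hp Λ N t ρ W' hΛ hE le_rfl σ (by omega) (by omega)
    refine ⟨α, β, h1, h2, by omega, by omega, ?_⟩
    rw [← hVi] at h5
    rw [← h5]
    apply Finset.sum_congr _ (fun _ _ => rfl)
    ext x
    simp only [Finset.mem_filter, Finset.mem_product, hV]
    constructor
    · rintro ⟨⟨⟨h6, _⟩, ⟨h7, _⟩⟩, h8⟩
      exact ⟨⟨h6, h7⟩, h8⟩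
    · rintro ⟨⟨h6, h7⟩, h8⟩
      refine ⟨⟨⟨h6, by omega⟩, ⟨h7, by omega⟩⟩, h8⟩

end Pool.Agent.DigitA
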