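import Mathlib
import Pool.Agent.SqrtDC.Exact
import Pool.Agent.DigitA.MainStep

open Finset

namespace Pool.Agent.DigitA

open Pool.Agent.SqrtDC

/-- the digit changes up to `n` -/
noncomputable def chg (n : ℕ) : Finset ℕ := (Finset.Icc 1 n).filter (fun k : ℕ =>
      ⌊Real.sqrt 2 * 2^k⌋ % 2 ≠ ⌊Real.sqrt 2 * 2^(k+1)⌋ % 2)

lemma card_E_le' (L n : ℕ) (hL : 2^L ≤ n) : #(E (2^L)) ≤ #(chg n) + 1 := by
  classical
  have hsub : E (2^L) ⊆ insert 0 (chg n) := by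
    intro e he
    rw [E, Finset.mem_filter, Finset.mem_range] at he
    rcases Nat.eq_zero_or_pos e with h0 | h0
    · subst h0; exact Finset.mem_insert_self _ _
    · apply Finset.mem_insert_of_mem
      rw [chg, Finset.mem_filter, Finset.mem_Icc]
      exact ⟨⟨h0, by omega⟩, (dl_ne_zero_iff e h0).1 he.2⟩
  exact (Finset.card_le_card hsub).trans (Finset.card_insert_le _ _)

/-- squares of logarithms are small -/
lemma log_sq_small (C : ℕ) : ∃ y₁ : ℕ, ∀ y, y₁ ≤ y → C * (Nat.log 2 y + 1)^2 ≤ y := by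
  -- `(k+1)^2 * C ≤ 2^k` for large `k`
  have h1 : ∀ᶠ k : ℕ in Filter.atTop, (C * (k+1)^2 : ℕ) ≤ 2^k := by
    have h2 : Filter.Tendsto (fun k : ℕ => ((k:ℝ)^2 / 2^k)) Filter.atTop (nhds 0) :=
      tendsto_pow_const_div_const_pow_of_one_lt 2 (by norm_num)
    have h3 : ∀ᶠ k : ℕ in Filter.atTop, ((k:ℝ)^2 / 2^k) < 1 / (4 * (C+1)) :=
      h2.eventually_lt_const (by positivity)
    filter_upwards [h3, Filter.eventually_ge_atTop 1] with k hk hk1
    have h4 : (0:ℝ) < 2^k := by positivity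
    rw [div_lt_iff₀ h4] at hk
    have h5 : (k:ℝ)^2 * (4 * (C+1)) < 2^k := by
      have : (0:ℝ) < 4 * (C+1) := by positivity
      calc (k:ℝ)^2 * (4 * (C+1)) < (1/(4*(C+1)) * 2^k) * (4*(C+1)) := by
            exact mul_lt_mul_of_pos_right hk this
        _ = 2^k := by field_simp
    have h6 : k^2 * (4 * (C+1)) < 2^k := by exact_mod_cast h5
    have h7 : (k+1)^2 ≤ 4 * k^2 := by nlinarith
    calc C * (k+1)^2 ≤ (C+1) * (4 * k^2) := Nat.mul_le_mul (by omega) h7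
      _ = k^2 * (4 * (C+1)) := by ring
      _ ≤ 2^k := h6.le
  obtain ⟨k₀, hk₀⟩ := Filter.eventually_atTop.mp h1
  refine ⟨2^k₀, fun y hy => ?_⟩
  have hy0 : y ≠ 0 := by
    have := Nat.one_le_two_pow (n := k₀)
    omega
  have h2 : k₀ ≤ Nat.log 2 y := by
    apply Nat.le_log_of_pow_le (by norm_num) hy
  exact (hk₀ _ h2).trans (Nat.pow_log_le_self 2 hy0)

lemma pow9 (y : ℕ) (hy : 512 ≤ y) : (y+1)^9 ≤ y^10 := by
  calc (y+1)^9 ≤ (2*y)^9 := Nat.pow_le_pow_left (by omega) 9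
    _ = 512 * y^9 := by ring
    _ ≤ y * y^9 := Nat.mul_le_mul_right _ hy
    _ = y^10 := by ring

theorem main (A : ℕ) : ∀ᶠ n : ℕ in Filter.atTop, (Real.log n)^A ≤
      (((Finset.Icc 1 n).filter (fun k : ℕ =>
      ⌊Real.sqrt 2 * 2^k⌋ % 2 ≠ ⌊Real.sqrt 2 * 2^(k+1)⌋ % 2)).card : ℝ) := by
  classical
  -- the prime
  obtain ⟨p, hp1, hp2, hp3⟩ := Nat.forall_exists_prime_gt_and_eq_mod (q := 8) (a := (3 : ZMod 8))
    (by decide) ((8*(10*A+10)).choose (4*(10*A+10)))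
  have hp8 : p % 8 = 3 ∨ p % 8 = 5 := by
    left
    have h1 : ((p : ℕ) : ZMod 8) = ((3 : ℕ) : ZMod 8) := by rw [hp3]; rfl
    rw [ZMod.natCast_eq_natCast_iff] at h1
    exact h1
  have : Fact p.Prime := ⟨hp2⟩
  obtain ⟨m, y₀, hmain⟩ := main_step (10*A+10) p hp8 hp1
  obtain ⟨K, hK⟩ : ∃ K, K = (10*A+1)*(m+10) + 13 := ⟨_, rfl⟩
  obtain ⟨C, hC⟩ : ∃ C, C = 28*(10*A+1)^2 + (10*A*p+12 + p*K) := ⟨_, rfl⟩
  obtain ⟨y₁, hy₁⟩ := log_sq_small C
  obtain ⟨Y, hY⟩ : ∃ Y, Y = y₀ + y₁ + 512 + 100*(m+2)^2 := ⟨_, rfl⟩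
  filter_upwards [Filter.eventually_ge_atTop (2^(Y^9))] with n hn
  by_contra hcon
  push Not at hcon
  have hn0 : n ≠ 0 := by
    have := Nat.one_le_two_pow (n := Y^9)
    omega
  -- `L`
  obtain ⟨L, hL⟩ : ∃ L, L = Nat.log 2 n := ⟨_, rfl⟩
  have hL1 : 2^L ≤ n := by rw [hL]; exact Nat.pow_log_le_self 2 hn0
  have hL2 : n < 2^(L+1) := by rw [hL]; exact Nat.lt_pow_succ_log_self (by norm_num) n
  have hYL : Y^9 ≤ L := by
    rw [hL]
    exact Nat.le_log_of_pow_le (by norm_num) hn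
  have hlog : Real.log n ≤ L + 1 := by
    have h1 : Real.log n ≤ Real.log ((2:ℝ)^(L+1)) := by
      apply Real.log_le_log (by positivity)
      exact_mod_cast hL2.le
    rw [Real.log_pow] at h1
    have h2 : Real.log 2 ≤ 1 := by
      have := Real.log_two_lt_d9
      linarith
    have h3 : (0:ℝ) ≤ ((L+1 : ℕ) : ℝ) := by positivity
    calc Real.log n ≤ ((L+1:ℕ):ℝ) * Real.log 2 := h1
      _ ≤ ((L+1:ℕ):ℝ) * 1 := mul_le_mul_of_nonneg_left h2 h3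
      _ = L + 1 := by push_cast; ring
  have hcount : #(chg n) < (L+1)^A := by
    have h1 : (#(chg n) : ℝ) < (Real.log n)^A := hcon
    have h2 : (Real.log n)^A ≤ ((L:ℝ)+1)^A := by
      apply pow_le_pow_left₀ _ hlog
      apply Real.log_natCast_nonneg
    have h3 : (#(chg n) : ℝ) < (((L+1)^A : ℕ) : ℝ) := by
      push_cast
      linarith
    exact_mod_cast h3
  -- `y`
  obtain ⟨y, hy1, hy2⟩ : ∃ y, y^9 ≤ L ∧ L < (y+1)^9 := by
    refine ⟨Nat.findGreatest (fun y => y^9 ≤ L) L, ?_, ?_⟩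
    · exact Nat.findGreatest_spec (P := fun y => y^9 ≤ L) (Nat.zero_le L) (by positivity)
    · by_contra h
      push Not at h
      have h2 : Nat.findGreatest (fun y => y^9 ≤ L) L + 1 ≤ L :=
        (Nat.le_self_pow (by norm_num) _).trans h
      have := Nat.le_findGreatest (P := fun y => y^9 ≤ L) h2 h
      omega
  have hyY : Y ≤ y := by
    by_contra h
    push Not at h
    have : (y+1)^9 ≤ Y^9 := Nat.pow_le_pow_left (by omega) 9
    omega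
  have hy512 : 512 ≤ y := by omega
  have hym : 100*(m+2)^2 ≤ y := by omega
  have h910 := pow9 y hy512
  have hy10 : 512 ≤ y^10 := hy512.trans (Nat.le_self_pow (by norm_num) y)
  -- `t`
  obtain ⟨t, ht⟩ : ∃ t, t = (L+1)^A := ⟨_, rfl⟩
  have hEt : #(E (2^L)) ≤ t := by
    have := card_E_le' L n hL1
    omega
  have hty : t ≤ y^(10*A) := by
    rw [ht, pow_mul]
    exact Nat.pow_le_pow_left (by omega) A
  have ht1 : 1 ≤ t := by rw [ht]; exact Nat.one_le_pow _ _ (by omega)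
  have hyp : 0 < y := by omega
  have htya : t < y^(10*A+10+1) := by
    refine lt_of_le_of_lt hty ?_
    exact Nat.pow_lt_pow_right (by omega) (by omega)
  -- `λ`
  obtain ⟨w, hw⟩ : ∃ w, w = Nat.log 2 y + 1 := ⟨_, rfl⟩
  have hw1 : 1 ≤ w := by omega
  have hyw : y ≤ 2^w := by
    rw [hw]
    exact (Nat.lt_pow_succ_log_self (by norm_num) y).le
  have hCw : C * w^2 ≤ y := by
    rw [hw]
    exact hy₁ y (by omega)
  have hww : w ≤ w^2 := Nat.le_self_pow (by norm_num) w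
  obtain ⟨l, hl⟩ : ∃ l, l = 10*A*w + 1 := ⟨_, rfl⟩
  have htl : t < 2^l := by
    have h1 : y^(10*A) ≤ 2^(10*A*w) := by
      calc y^(10*A) ≤ (2^w)^(10*A) := Nat.pow_le_pow_left hyw _
        _ = 2^(10*A*w) := by rw [← pow_mul]; congr 1; ring
    have h2 : 2^(10*A*w) < 2^l := Nat.pow_lt_pow_right (by norm_num) (by omega)
    omega
  have hl28 : 28*l^2 ≤ y := by
    have h1 : l ≤ (10*A+1)*w := by
      rw [hl, add_mul, one_mul]
      omega
    have h2 : l^2 ≤ ((10*A+1)*w)^2 := Nat.pow_le_pow_left h1 2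
    have h3 : 28*(10*A+1)^2 * w^2 ≤ C * w^2 := Nat.mul_le_mul_right _ (by omega)
    have h4 : 28 * ((10*A+1)*w)^2 = 28*(10*A+1)^2 * w^2 := by ring
    omega
  -- `Λ`
  obtain ⟨Λ, hΛ⟩ : ∃ Λ, Λ = L + 5 := ⟨_, rfl⟩
  have hΛ2 : 2*2^L + 10 ≤ 2^Λ := by
    have h1 : 1 ≤ 2^L := Nat.one_le_two_pow
    have h2 : 2^Λ = 32 * 2^L := by rw [hΛ, pow_add]; ring
    omega
  have hΛy : Λ + 1 ≤ y^11 := by
    have h2 : y^11 = y * y^10 := by ring
    have h3 : 512 * y^10 ≤ y * y^10 := Nat.mul_le_mul_right _ hy512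
    omega
  -- `ρ`
  obtain ⟨ρ, hρ⟩ : ∃ ρ, ρ = 12*(Λ*t^p+1) := ⟨_, rfl⟩
  have hρy : ρ ≤ y^(10*A*p+12) := by
    have h1 : t^p ≤ y^(10*A*p) := by
      calc t^p ≤ (y^(10*A))^p := Nat.pow_le_pow_left hty p
        _ = y^(10*A*p) := by rw [← pow_mul]
    have h2 : Λ * t^p ≤ y^11 * y^(10*A*p) := Nat.mul_le_mul (by omega) h1
    have h3 : 1 ≤ y^11 * y^(10*A*p) := Nat.one_le_iff_ne_zero.mpr (by positivity)
    have h4 : y^(10*A*p+12) = y * (y^11 * y^(10*A*p)) := by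
      rw [pow_add]; ring
    have h5 : 512 * (y^11 * y^(10*A*p)) ≤ y * (y^11 * y^(10*A*p)) := Nat.mul_le_mul_right _ hy512
    rw [hρ, h4]
    omega
  -- `b`
  obtain ⟨b, hb⟩ : ∃ b, b = K*w := ⟨_, rfl⟩
  have hp2' : 2 ≤ p := hp2.two_le
  have hB1 : 100 * (m+2)^2 * (t+1)^(m+10) * (Λ+1) ≤ p^b := by
    have h1 : t + 1 ≤ y^(10*A+1) := by
      have h2 : y^(10*A+1) = y * y^(10*A) := by rw [pow_succ]; ring
      have h3 : 512 * y^(10*A) ≤ y * y^(10*A) := Nat.mul_le_mul_right _ hy512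
      omega
    have h2 : (t+1)^(m+10) ≤ y^((10*A+1)*(m+10)) := by
      rw [pow_mul]
      exact Nat.pow_le_pow_left h1 _
    calc 100 * (m+2)^2 * (t+1)^(m+10) * (Λ+1)
        ≤ y * y^((10*A+1)*(m+10)) * y^11 := Nat.mul_le_mul (Nat.mul_le_mul hym h2) hΛy
      _ = y^((10*A+1)*(m+10) + 12) := by rw [pow_add]; ring
      _ ≤ y^K := Nat.pow_le_pow_right hyp (by omega)
      _ ≤ (2^w)^K := Nat.pow_le_pow_left hyw K
      _ = 2^b := by rw [← pow_mul, hb]; congr 1; ring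
      _ ≤ p^b := Nat.pow_le_pow_left hp2' b
  have hBN : ρ * (p^b)^(y^8) ≤ 2^L := by
    have h1 : ρ ≤ 2^((10*A*p+12)*w) := by
      calc ρ ≤ y^(10*A*p+12) := hρy
        _ ≤ (2^w)^(10*A*p+12) := Nat.pow_le_pow_left hyw _
        _ = 2^((10*A*p+12)*w) := by rw [← pow_mul]; congr 1; ring
    have h2 : p^b ≤ 2^(p*b) := by
      calc p^b ≤ (2^p)^b := Nat.pow_le_pow_left (Nat.lt_two_pow_self).le b
        _ = 2^(p*b) := by rw [← pow_mul]
    have h3 : (p^b)^(y^8) ≤ 2^(p*b*y^8) := by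
      calc (p^b)^(y^8) ≤ (2^(p*b))^(y^8) := Nat.pow_le_pow_left h2 _
        _ = 2^(p*b*y^8) := by rw [← pow_mul]
    have h4 : (10*A*p+12)*w + p*b*y^8 ≤ L := by
      have h5 : 1 ≤ y^8 := Nat.one_le_pow _ _ hyp
      have h6 : (10*A*p+12)*w ≤ (10*A*p+12)*w*y^8 := Nat.le_mul_of_pos_right _ h5
      have h7 : p*b*y^8 = p*K*w*y^8 := by rw [hb]; ring
      have h8 : (10*A*p+12)*w*y^8 + p*K*w*y^8 = (10*A*p+12+p*K)*w*y^8 := by ring
      have h9 : (10*A*p+12+p*K)*w ≤ y := by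
        calc (10*A*p+12+p*K)*w ≤ C * w^2 := Nat.mul_le_mul (by omega) hww
          _ ≤ y := hCw
      have h10 : (10*A*p+12+p*K)*w*y^8 ≤ y * y^8 := Nat.mul_le_mul_right _ h9
      have h11 : y * y^8 = y^9 := by ring
      omega
    calc ρ * (p^b)^(y^8) ≤ 2^((10*A*p+12)*w) * 2^(p*b*y^8) := Nat.mul_le_mul h1 h3
      _ = 2^((10*A*p+12)*w + p*b*y^8) := by rw [pow_add]
      _ ≤ 2^L := Nat.pow_le_pow_right (by norm_num) h4
  exact hmain y (by omega) l t (2^L) Λ ρ b hEt htya htl hl28 hΛ2 (by omega) hB1 hBN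

end Pool.Agent.DigitA
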