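import Pool.Agent.H55.FinRamsey

/-! Finite Ramsey theorem for all sizes `≤ M` simultaneously. -/

open Finset

namespace Pool.Agent.DigitA

theorem ramsey (C : Type) [Finite C] (M N₀ : ℕ) : ∃ m : ℕ, ∀ χ : Finset ℕ → C, ∃ e : ℕ → ℕ,
    StrictMono e ∧ (∀ i < N₀, e i < m) ∧ ∀ D ⊆ range N₀, ∀ D' ⊆ range N₀, #D = #D' → #D ≤ M →
      χ (D.image e) = χ (D'.image e) := by
  classical
  rcases isEmpty_or_nonempty C with hC | hC
  · exact ⟨0, fun χ => (hC.false (χ ∅)).elim⟩
  obtain ⟨t, ht⟩ := Pool.Agent.H55.ramsey_emb C M N₀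
  refine ⟨t, ?_⟩
  intro χ
  obtain ⟨ι, hι⟩ := ht t le_rfl (fun S => χ (S.image Fin.val))
  set e : ℕ → ℕ := fun i => if h : i < N₀ then ((ι ⟨i, h⟩ : Fin t) : ℕ) else t + i with he
  have he1 : ∀ i (h : i < N₀), e i = ((ι ⟨i, h⟩ : Fin t) : ℕ) := by
    intro i h
    simp only [he]
    rw [dif_pos h]
  have he2 : ∀ i, ¬ i < N₀ → e i = t + i := by
    intro i h
    simp only [he]
    rw [dif_neg h]
  refine ⟨e, ?_, ?_, ?_⟩
  · intro i j hij
    by_cases hj : j < N₀
    · have hi : i < N₀ := by omega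
      rw [he1 i hi, he1 j hj]
      have : ι ⟨i, hi⟩ < ι ⟨j, hj⟩ := ι.strictMono (by rw [Fin.mk_lt_mk]; exact hij)
      exact this
    · by_cases hi : i < N₀
      · rw [he1 i hi, he2 j hj]
        have := (ι ⟨i, hi⟩).isLt
        omega
      · rw [he2 i hi, he2 j hj]
        omega
  · intro i hi
    rw [he1 i hi]
    exact (ι ⟨i, hi⟩).isLt
  · have key : ∀ D ⊆ range N₀, ∃ S : Finset (Fin N₀), S.card = #D ∧
        (S.map ι.toEmbedding).image Fin.val = D.image e := by
      intro D hD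
      refine ⟨univ.filter (fun x : Fin N₀ => (x : ℕ) ∈ D), ?_, ?_⟩
      · have h1 : (univ.filter (fun x : Fin N₀ => (x : ℕ) ∈ D)).image Fin.val = D := by
          ext x
          simp only [mem_image, mem_filter, mem_univ, true_and]
          constructor
          · rintro ⟨y, hy, rfl⟩
            exact hy
          · intro hx
            exact ⟨⟨x, mem_range.1 (hD hx)⟩, hx, rfl⟩
        conv_rhs => rw [← h1]
        rw [card_image_of_injective _ Fin.val_injective]
      · ext y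
        simp only [mem_image, mem_map, mem_filter, mem_univ, true_and]
        constructor
        · rintro ⟨z, ⟨x, hx, rfl⟩, rfl⟩
          exact ⟨x, hx, he1 x x.isLt⟩
        · rintro ⟨x, hx, rfl⟩
          exact ⟨ι ⟨x, mem_range.1 (hD hx)⟩, ⟨⟨x, mem_range.1 (hD hx)⟩, hx, rfl⟩,
            (he1 x (mem_range.1 (hD hx))).symm⟩
    intro D hD D' hD' hc hM
    obtain ⟨S, hS, hSD⟩ := key D hD
    obtain ⟨S', hS', hSD'⟩ := key D' hD'
    have := hι S S' (by omega) (by omega)
    rw [hSD, hSD'] at this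
    exact this

end Pool.Agent.DigitA
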